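import Pool.Agent.LibPcg.PDefs

set_option autoImplicit false

/-!
Row PA1. An edge of a tree is on the path from `x` to `y` iff it separates `x` from `y`.
Sketch. (a) If `e` is an edge of the path `p` and `x`, `y` are joined in `T - e`, take a path `q`
there (`Walk.toPath`/`bypass`), map it to `T` (`Walk.mapLe (deleteEdges_le _)`): it is a path of `T`
which does not contain `e`; uniqueness of paths (`IsAcyclic.path_unique`,
`IsTree.existsUnique_path`) says that it is `p`, a contradiction.
(b) If `e` is not in `p.edges` then `p.toDeleteEdge e h` (or `Walk.transfer`) shows reachability.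
-/

namespace Pool.Agent.LibPcg

open SimpleGraph

theorem mem_path_edges_iff {W : Type} {T : SimpleGraph W} (hT : T.IsTree) {x y : W}
    (p : T.Walk x y) (hp : p.IsPath) (e : Sym2 W) (he : e ∈ T.edgeSet) :
    e ∈ p.edges ↔ ¬ Same T e x y := by
  classical
  have _ := he
  constructor
  · intro h hs
    obtain ⟨q⟩ := hs
    have hle : T.deleteEdges {e} ≤ T := T.deleteEdges_le {e}
    have hq : (q.toPath : (T.deleteEdges {e}).Walk x y).IsPath := q.toPath.2
    have hq2 : ((q.toPath : (T.deleteEdges {e}).Walk x y).mapLe hle).IsPath :=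
      hq.mapLe hle
    have h1 := hT.isAcyclic.path_unique ⟨p, hp⟩ ⟨_, hq2⟩
    have h2 : p = (q.toPath : (T.deleteEdges {e}).Walk x y).mapLe hle := congrArg Subtype.val h1
    rw [h2, Walk.edges_mapLe_eq_edges] at h
    have h3 := Walk.edges_subset_edgeSet _ h
    rw [SimpleGraph.edgeSet_deleteEdges] at h3
    exact h3.2 rfl
  · intro h
    by_contra hc
    exact h ⟨p.toDeleteEdge e hc⟩

end Pool.Agent.LibPcg
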