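import Pool.Agent.LibPcg.PDefs
import Pool.Agent.LibPcg.PA1

set_option autoImplicit false

/-!
Row PA3. The distance of two leaves: it is unique, and it is the sum of the weights of the edges
which separate them.
Sketch. `dist_iff`: the path is unique (`IsTree.existsUnique_path`, `WTree.d` is defined with
`.choose`, use `.choose_spec`). `d_eq_sum`: `p.edges` is `Nodup` for a path
(`Walk.IsPath.isTrail`, `.edges_nodup`); so the sum over the list is the sum over
`p.edges.toFinset`, which by PA1 is the filter of the edges `e ∈ T.edgeSet` with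
`¬ Same T e x y` (`Walk.edges_subset_edgeSet`).
-/

namespace Pool.Agent.LibPcg

open SimpleGraph

theorem WTree.dist_iff {V : Type} (D : WTree V) (u v : V) (t : ℝ) : D.Dist u v t ↔ t = D.d u v := by
  have hc := (D.tree.existsUnique_path (D.leaf u) (D.leaf v)).choose_spec
  constructor
  · rintro ⟨p, hp, rfl⟩
    unfold WTree.d
    rw [hc.2 p hp]
  · rintro rfl
    exact ⟨_, hc.1, rfl⟩

open Classical in
theorem WTree.d_eq_sum {V : Type} (D : WTree V) [Fintype D.W] (u v : V) :
    D.d u v = ∑ e ∈ (Finset.univ : Finset (Sym2 D.W)).filter (fun e => e ∈ D.T.edgeSet),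
      if Same D.T e (D.leaf u) (D.leaf v) then 0 else D.w e := by
  have hc := (D.tree.existsUnique_path (D.leaf u) (D.leaf v)).choose_spec
  unfold WTree.d
  set p := (D.tree.existsUnique_path (D.leaf u) (D.leaf v)).choose
  have hp : p.IsPath := hc.1
  have hnd : p.edges.Nodup := hp.isTrail.edges_nodup
  rw [← List.sum_toFinset _ hnd, ← Finset.sum_filter_add_sum_filter_not
    ((Finset.univ : Finset (Sym2 D.W)).filter (fun e => e ∈ D.T.edgeSet))
    (fun e => Same D.T e (D.leaf u) (D.leaf v))]
  rw [Finset.sum_eq_zero (s := Finset.filter (fun e => Same D.T e (D.leaf u) (D.leaf v)) _)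
    (fun e he => by rw [if_pos (Finset.mem_filter.mp he).2]), zero_add]
  refine Finset.sum_congr ?_ (fun e he => ?_)
  · ext e
    simp only [List.mem_toFinset, Finset.mem_filter, Finset.mem_univ, true_and]
    constructor
    · intro he
      exact ⟨p.edges_subset_edgeSet he,
        (mem_path_edges_iff D.tree p hp e (p.edges_subset_edgeSet he)).mp he⟩
    · rintro ⟨he, hs⟩
      exact (mem_path_edges_iff D.tree p hp e he).mpr hs
  · rw [if_neg (Finset.mem_filter.mp he).2]

end Pool.Agent.LibPcg
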