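import Pool.Agent.LibPcg.PDefs

set_option autoImplicit false

/-!
Row PA2. Removing an edge of a tree leaves (at most) two components.
Sketch. Write `e = s(u, v)`. Claim: for every walk `p : T.Walk x u` (all `x`), `Same T e x u` or
`Same T e x v`. Induction on `p`: `nil`: refl. `cons h q` (`x` adjacent to `x'`): if `s(x, x') = e`
then `x = u` or `x = v`, refl; otherwise `x`, `x'` are adjacent in `T.deleteEdges {e}`, use the
induction hypothesis and transitivity. Now each of `x, y, z` is on the side of `u` or of `v`
(connectedness gives the walks), so two of them are on the same side.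
-/

namespace Pool.Agent.LibPcg

open SimpleGraph

/-- every vertex is on the side of `u` or of `v` -/
theorem PA2_side {W : Type} {T : SimpleGraph W} (u v : W) {x y : W} (p : T.Walk x y) :
    y = u → Same T s(u, v) x u ∨ Same T s(u, v) x v := by
  induction p with
  | nil =>
    rintro rfl
    exact Or.inl (SimpleGraph.Reachable.refl _)
  | @cons a b c h q ih =>
    intro hu
    by_cases he : s(a, b) = s(u, v)
    · rcases Sym2.eq_iff.1 he with ⟨h1, -⟩ | ⟨h1, -⟩
      · subst h1
        exact Or.inl (SimpleGraph.Reachable.refl _)
      · subst h1
        exact Or.inr (SimpleGraph.Reachable.refl _)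
    · have h1 : (T.deleteEdges {s(u, v)}).Reachable a b := by
        refine SimpleGraph.Adj.reachable ?_
        rw [SimpleGraph.deleteEdges_adj]
        exact ⟨h, fun h' => he (Set.mem_singleton_iff.1 h')⟩
      rcases ih hu with h2 | h2
      · exact Or.inl (h1.trans h2)
      · exact Or.inr (h1.trans h2)

theorem two_sides {W : Type} {T : SimpleGraph W} (hT : T.IsTree) {e : Sym2 W}
    (he : e ∈ T.edgeSet) {x y z : W} (h1 : ¬ Same T e x y) (h2 : ¬ Same T e y z) :
    Same T e x z := by
  induction e using Sym2.ind with
  | _ u v =>
    have key : ∀ a : W, Same T s(u, v) a u ∨ Same T s(u, v) a v := fun a => by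
      obtain ⟨p⟩ := hT.connected.preconnected a u
      exact PA2_side u v p rfl
    rcases key x with hx | hx <;> rcases key y with hy | hy <;> rcases key z with hz | hz
    · exact SimpleGraph.Reachable.trans hx (SimpleGraph.Reachable.symm hz)
    · exact absurd (SimpleGraph.Reachable.trans hx (SimpleGraph.Reachable.symm hy)) h1
    · exact SimpleGraph.Reachable.trans hx (SimpleGraph.Reachable.symm hz)
    · exact absurd (SimpleGraph.Reachable.trans hy (SimpleGraph.Reachable.symm hz)) h2
    · exact absurd (SimpleGraph.Reachable.trans hy (SimpleGraph.Reachable.symm hz)) h2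
    · exact SimpleGraph.Reachable.trans hx (SimpleGraph.Reachable.symm hz)
    · exact absurd (SimpleGraph.Reachable.trans hx (SimpleGraph.Reachable.symm hy)) h1
    · exact SimpleGraph.Reachable.trans hx (SimpleGraph.Reachable.symm hz)

end Pool.Agent.LibPcg
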