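import Pool.Agent.LibPcg.PDefs

set_option autoImplicit false

/-!
Row PA4. Four point condition for sums of splits.
Sketch. Put `r e x y := if R e x y then 0 else w e`. For `e ∈ s` and four points `x y z u` one of:
all four related: contributions `(r x y + r z u, r x z + r y u, r x u + r y z) = (0, 0, 0)`; one
point separated from the other three (there are two classes by `h2`): `(w, w, w)`; type `xy|zu`:
`(0, 2w, 2w)`; type `xz|yu`: `(2w, 0, 2w)`; type `xu|yz`: `(2w, 2w, 0)`.
Symmetry, `self`: from the equivalence relation. `four`: if no `e ∈ s` has type `xz|yu`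
(i.e. `R e x z ∧ R e y u ∧ ¬ R e x y`) then for every `e` the first contribution is `≤` the second,
so the first sum is `≤` the second (`Finset.sum_le_sum`). Otherwise fix `f` of type `xz|yu`; by
`hq` no `e` has type `xu|yz` (apply `hq e f x u y z`: `R e x u`, `R e y z`, `¬ R f x u`,
`¬ R f y z`, so `R e x y`), hence for every `e` the first contribution is `≤` the third one.
-/

namespace Pool.Agent.LibPcg

open SimpleGraph

open Classical in
lemma PA4_aux {X : Type} {R : X → X → Prop} (hR : Equivalence R)
    (h2 : ∀ x y z, ¬ R x y → ¬ R y z → R x z) {w : ℝ} (hw : 0 ≤ w) (x y z u : X)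
    (h : ¬ (R x z ∧ R y u ∧ ¬ R x y)) :
    (if R x y then 0 else w) + (if R z u then 0 else w) ≤
      (if R x z then 0 else w) + (if R y u then 0 else w) := by
  by_cases a1 : R x z
  · by_cases a2 : R y u
    · have a3 : R x y := by
        by_contra h3
        exact h ⟨a1, a2, h3⟩
      have a4 : R z u := hR.trans (hR.symm a1) (hR.trans a3 a2)
      rw [if_pos a3, if_pos a4, if_pos a1, if_pos a2]
    · -- one of `x y`, `z u` is related
      rw [if_pos a1, if_neg a2]
      by_cases a3 : R x y
      · rw [if_pos a3]
        split_ifs <;> linarith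
      · have a5 : R x u := h2 x y u a3 a2
        have a4 : R z u := hR.trans (hR.symm a1) a5
        rw [if_neg a3, if_pos a4]
        linarith
  · by_cases a2 : R y u
    · rw [if_neg a1, if_pos a2]
      by_cases a3 : R x y
      · rw [if_pos a3]
        split_ifs <;> linarith
      · have a5 : R z y := h2 z x y (fun h' => a1 (hR.symm h')) a3
        have a4 : R z u := hR.trans a5 a2
        rw [if_neg a3, if_pos a4]
    · rw [if_neg a1, if_neg a2]
      split_ifs <;> linarith

open Classical in
theorem fourPt_of_quad {ι X : Type} (s : Finset ι) (w : ι → ℝ) (hw : ∀ e ∈ s, 0 ≤ w e)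
    (R : ι → X → X → Prop) (hR : ∀ e ∈ s, Equivalence (R e))
    (h2 : ∀ e ∈ s, ∀ x y z, ¬ R e x y → ¬ R e y z → R e x z)
    (hq : ∀ e ∈ s, ∀ f ∈ s, ∀ x y z u, R e x y → R e z u → ¬ R f x y → ¬ R f z u → R e x z) :
    FourPt (fun x y => ∑ e ∈ s, if R e x y then 0 else w e) := by
  refine ⟨fun x => ?_, fun x y => ?_, fun x y z u => ?_⟩
  · exact Finset.sum_eq_zero fun e he => if_pos ((hR e he).refl x)
  · refine Finset.sum_congr rfl fun e he => ?_
    by_cases h : R e x y
    · rw [if_pos h, if_pos ((hR e he).symm h)]
    · rw [if_neg h, if_neg fun h' => h ((hR e he).symm h')]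
  · by_cases hf : ∃ f ∈ s, R f x z ∧ R f y u ∧ ¬ R f x y
    · obtain ⟨f, hf, f1, f2, f3⟩ := hf
      refine le_max_of_le_right ?_
      rw [← Finset.sum_add_distrib, ← Finset.sum_add_distrib]
      refine Finset.sum_le_sum fun e he => ?_
      have e1 : ¬ (R e x u ∧ R e y z ∧ ¬ R e x y) := by
        rintro ⟨h1, h3, h4⟩
        refine h4 (hq e he f hf x u y z h1 h3 (fun h5 => ?_) (fun h5 => ?_))
        · exact f3 ((hR f hf).trans h5 ((hR f hf).symm f2))
        · exact f3 ((hR f hf).trans f1 ((hR f hf).symm h5))
      have e2 := PA4_aux (hR e he) (h2 e he) (hw e he) x y u z e1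
      have e3 : (if R e u z then 0 else w e) = (if R e z u then 0 else w e) := by
        by_cases h : R e u z
        · rw [if_pos h, if_pos ((hR e he).symm h)]
        · rw [if_neg h, if_neg fun h' => h ((hR e he).symm h')]
      rwa [e3] at e2
    · refine le_max_of_le_left ?_
      rw [← Finset.sum_add_distrib, ← Finset.sum_add_distrib]
      refine Finset.sum_le_sum fun e he => ?_
      exact PA4_aux (hR e he) (h2 e he) (hw e he) x y z u fun h => hf ⟨e, he, h⟩

end Pool.Agent.LibPcg
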