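import Pool.Agent.LibPcg.PDefs
import Pool.Agent.LibPcg.PA1
import Pool.Agent.LibPcg.PA2

set_option autoImplicit false

/-!
Row PA5. Compatibility of the splits given by two edges of a tree.
Sketch. Let `p` be the path from `x` to `y`. By PA1 it does not contain `e` and contains `f`. Write
`f = s(a, b)`. So `a ∈ p.support` (`Walk.fst_mem_support_of_mem_edges`) and the initial part
`p.takeUntil a` does not contain `e` (`edges_takeUntil_subset`), which gives
`Same T e x a` (`Walk.toDeleteEdge`). In the same way for the path from `z` to `u`: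
`Same T e z a`. Hence `Same T e x z`. (`Same` is reachability in a graph, hence an equivalence.)
-/

namespace Pool.Agent.LibPcg

open SimpleGraph

/-- Joining `x` to an end point of an edge separating `x` from `y`, inside of `T - e`. -/
lemma PA5_aux {W : Type} {T : SimpleGraph W} (hT : T.IsTree) {e : Sym2 W} {a b : W}
    (he : e ∈ T.edgeSet) (hf : s(a, b) ∈ T.edgeSet) {x y : W} (h1 : Same T e x y)
    (h3 : ¬ Same T s(a, b) x y) : Same T e x a := by
  classical
  obtain ⟨p, hp, -⟩ := hT.existsUnique_path x y
  have e1 : e ∉ p.edges := fun h => (mem_path_edges_iff hT p hp e he).1 h h1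
  have e2 : s(a, b) ∈ p.edges := (mem_path_edges_iff hT p hp _ hf).2 h3
  have e3 : a ∈ p.support := p.fst_mem_support_of_mem_edges e2
  have e4 : e ∉ (p.takeUntil a e3).edges := fun h => e1 (p.edges_takeUntil_subset_edges e3 h)
  exact ⟨(p.takeUntil a e3).toDeleteEdge e e4⟩

theorem quad {W : Type} {T : SimpleGraph W} (hT : T.IsTree) {e f : Sym2 W}
    (he : e ∈ T.edgeSet) (hf : f ∈ T.edgeSet) {x y z u : W} (h1 : Same T e x y)
    (h2 : Same T e z u) (h3 : ¬ Same T f x y) (h4 : ¬ Same T f z u) : Same T e x z := by
  induction f using Sym2.inductionOn with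
  | hf a b =>
    have h5 : Same T e x a := PA5_aux hT he hf h1 h3
    have h6 : Same T e z a := PA5_aux hT he hf h2 h4
    exact h5.trans h6.symm

end Pool.Agent.LibPcg
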