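import Pool.Agent.LibPcg.PDefs
import Pool.Agent.LibPcg.PA2
import Pool.Agent.LibPcg.PA3
import Pool.Agent.LibPcg.PA4
import Pool.Agent.LibPcg.PA5

set_option autoImplicit false

/-!
Row PA6. The four point condition for the distances in a tree.
Sketch. `have := D.fin; cases nonempty_fintype D.W`; rewrite `D.d` with `WTree.d_eq_sum` and apply
`fourPt_of_quad` with `R e u v := Same D.T e (D.leaf u) (D.leaf v)`, the hypotheses being
reachability facts, PA2 and PA5, `D.nonneg`.
-/

namespace Pool.Agent.LibPcg

open SimpleGraph

theorem WTree.fourPt {V : Type} (D : WTree V) : FourPt D.d := by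
  classical
  have := D.fin
  cases nonempty_fintype D.W
  have h2 : D.d = fun x y => _ := funext fun x => funext fun y => D.d_eq_sum x y
  rw [h2]
  refine fourPt_of_quad _ D.w (fun e _ => D.nonneg e)
    (fun e u v => Same D.T e (D.leaf u) (D.leaf v)) ?_ ?_ ?_
  · intro e _
    exact ⟨fun x => SimpleGraph.Reachable.refl _, fun h => SimpleGraph.Reachable.symm h,
      fun h h' => SimpleGraph.Reachable.trans h h'⟩
  · intro e he x y z h h'
    exact two_sides D.tree (Finset.mem_filter.1 he).2 h h'
  · intro e he f hf x y z u h1 h3 h4 h5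
    exact quad D.tree (Finset.mem_filter.1 he).2 (Finset.mem_filter.1 hf).2 h1 h3 h4 h5

end Pool.Agent.LibPcg
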