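import Pool.Agent.LibPcg.PDefs

set_option autoImplicit false

/-!
Row PA7. On a finite set of nonnegative reals an interval is given by two thresholds.
Sketch. If no element of `S` is in `I`: `a = b = 0`. Otherwise let `m`, `M` be the minimum and the
maximum of the elements of `S` in `I`; `a = m ≥ 0`; `b` = the minimum of the elements of `S` which
are `> M` if there are any, else `M + 1`. For `t ∈ S` with `m ≤ t < b`: `t ≤ M` (by the choice of
`b`), so `t ∈ I` since `I` is order connected (`Set.OrdConnected.out`).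
Basic facts on `FourPt`: `nonneg` from `four x x y y` and `self`; triangle inequality from
`four x y z z`.
-/

namespace Pool.Agent.LibPcg

open SimpleGraph

theorem interval_fin (I : Set ℝ) (hI : IsInterval I) (S : Finset ℝ) :
    ∃ a b : ℝ, 0 ≤ a ∧ 0 ≤ b ∧ ∀ t ∈ S, t ∈ I ↔ a ≤ t ∧ t < b := by
  classical
  by_cases hne : (S.filter (· ∈ I)).Nonempty
  · set F := S.filter (· ∈ I) with hF
    have hm := F.min'_mem hne
    have hM := F.max'_mem hne
    set m := F.min' hne with hmdef
    set M := F.max' hne with hMdef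
    have hmI : m ∈ I := (Finset.mem_filter.mp hm).2
    have hMI : M ∈ I := (Finset.mem_filter.mp hM).2
    have hm0 : 0 ≤ m := hI.2 m hmI
    have hM0 : 0 ≤ M := hI.2 M hMI
    obtain ⟨b, hb, hbS⟩ : ∃ b : ℝ, M < b ∧ ∀ t ∈ S, M < t → b ≤ t := by
      by_cases h : (S.filter (M < ·)).Nonempty
      · refine ⟨(S.filter (M < ·)).min' h, ?_, fun t ht hMt => ?_⟩
        · exact (Finset.mem_filter.mp (Finset.min'_mem _ h)).2
        · exact Finset.min'_le _ _ (Finset.mem_filter.mpr ⟨ht, hMt⟩)
      · refine ⟨M + 1, by linarith, fun t ht hMt => ?_⟩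
        exact absurd ⟨t, Finset.mem_filter.mpr ⟨ht, hMt⟩⟩ h
    refine ⟨m, b, hm0, by linarith, fun t ht => ⟨fun htI => ?_, fun htI => ?_⟩⟩
    · have htF : t ∈ F := Finset.mem_filter.mpr ⟨ht, htI⟩
      exact ⟨F.min'_le t htF, lt_of_le_of_lt (F.le_max' t htF) hb⟩
    · have htM : t ≤ M := by
        by_contra hcon
        push Not at hcon
        have := hbS t ht hcon
        linarith [htI.2]
      exact hI.1.out hmI hMI ⟨htI.1, htM⟩
  · refine ⟨0, 0, le_refl _, le_refl _, fun t ht => ⟨fun htI => ?_, fun h => ?_⟩⟩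
    · exact absurd ⟨t, Finset.mem_filter.mpr ⟨ht, htI⟩⟩ hne
    · exact absurd h.1 (not_le.mpr h.2)

theorem FourPt.nonneg {V : Type} {d : V → V → ℝ} (h : FourPt d) (x y : V) : 0 ≤ d x y := by
  have h1 := h.four x x y y
  rw [h.self, h.self, max_self] at h1
  linarith

theorem FourPt.triangle {V : Type} {d : V → V → ℝ} (h : FourPt d) (x y z : V) :
    d x y ≤ d x z + d z y := by
  have h1 := h.four x y z z
  rw [h.self, h.symm y z, max_self] at h1
  linarith

end Pool.Agent.LibPcg
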