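import Pool.Agent.LibPcg.PBDefs
import Pool.Agent.LibPcg.PA7

set_option autoImplicit false

/-!
Row PB1. The Gromov product of a four point metric.
-/

namespace Pool.Agent.LibPcg

open SimpleGraph

theorem ult_of_fourPt {V : Type} {d : V → V → ℝ} (h : FourPt d) (r : V) :
    Ult (fun x y => (d x r + d y r - d x y) / 2) r := by
  have htri : ∀ x y z, d x y ≤ d x z + d y z := by
    intro x y z
    have h1 := h.four x y z z
    rw [h.self z, max_self] at h1
    linarith
  refine ⟨fun x y => ?_, fun x y z => ?_, fun x y => ?_, fun y => ?_, fun x y => ?_⟩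
  · show (d x r + d y r - d x y) / 2 = (d y r + d x r - d y x) / 2
    rw [h.symm x y]
    ring
  · show min ((d x r + d y r - d x y) / 2) ((d y r + d z r - d y z) / 2) ≤
      (d x r + d z r - d x z) / 2
    have h1 := h.four x z y r
    rw [h.symm z y] at h1
    rcases le_max_iff.1 h1 with h2 | h2
    · exact (min_le_left _ _).trans (by linarith)
    · exact (min_le_right _ _).trans (by linarith)
  · show (d x r + d y r - d x y) / 2 ≤ (d x r + d x r - d x x) / 2
    have h1 := htri y r x
    rw [h.self x]
    have h2 := h.symm y x
    have h3 := h.symm r x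
    linarith
  · show (d r r + d y r - d r y) / 2 = 0
    rw [h.self r, h.symm r y]
    ring
  · show 0 ≤ (d x r + d y r - d x y) / 2
    have h1 := htri x y r
    linarith

end Pool.Agent.LibPcg
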