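import Pool.Agent.LibPcg.PBDefs

set_option autoImplicit false

/-!
Row PB2. Basic facts on clusters.
Sketch. `mem_iff`: write `C.1 = cl c x (c x y)`; if `u ∈ C.1`, i.e. `c x y ≤ c x u`, then
`cl c x (c x y) = cl c u (c x y)`: if `c x y ≤ c x v` then `c u v ≥ min (c u x) (c x v) ≥ c x y`,
and conversely. The level is well defined: if `cl c x (c x y) = cl c x' (c x' y')` then
`c x y = c x' y'`: `x, y` belong to the second one, so
`c x y ≥ min (c x x') (c x' y) ≥ c x' y'` and symmetrically. Hence with `h := lev C` (which is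
`c x0 y0` for the chosen `x0 y0`, `C.2.choose_spec.choose_spec`) everything follows.
`lev_le`: `v ∈ C = cl c u (lev C)`. `sub_iff`: by `mem_iff`, for a common element `u`:
`C = cl c u (lev C)`, `C' = cl c u (lev C')`; if `lev C' ≤ lev C` clearly `C ⊆ C'`; conversely
`C` contains `x, y` with `c x y = lev C` (the chosen ones: `x, y ∈ C`, `le`), they are in `C'`, so
`lev C' ≤ c x y = lev C` by `lev_le`.
-/

namespace Pool.Agent.LibPcg

open SimpleGraph

theorem PB2_mem {V : Type} {c : V → V → ℝ} {r : V} (h : Ult c r) (x y : V) :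
    x ∈ cl c x (c x y) := h.le x y

theorem PB2_cl {V : Type} {c : V → V → ℝ} {r : V} (h : Ult c r) {x u : V} {t : ℝ}
    (hu : u ∈ cl c x t) : cl c x t = cl c u t := by
  have hu1 : t ≤ c x u := hu
  have hu2 : t ≤ c u x := by rw [h.symm]; exact hu1
  ext v
  constructor
  · intro hv
    exact (le_min hu2 hv).trans (h.ult u x v)
  · intro hv
    exact (le_min hu1 hv).trans (h.ult x u v)

theorem PB2_le {V : Type} {c : V → V → ℝ} {r : V} (h : Ult c r) {x y x' : V} {t : ℝ}
    (hs : cl c x (c x y) ⊆ cl c x' t) : t ≤ c x y := by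
  have h1 : t ≤ c x' x := hs (PB2_mem h x y)
  have h2 : t ≤ c x' y := hs (le_refl (c x y))
  rw [h.symm] at h1
  exact (le_min h1 h2).trans (h.ult x x' y)

theorem PB2_lev {V : Type} {c : V → V → ℝ} (C : Node c) :
    ∃ x y, C.1 = cl c x (c x y) ∧ lev C = c x y :=
  ⟨C.2.choose, C.2.choose_spec.choose, C.2.choose_spec.choose_spec, rfl⟩

theorem mem_mkN_left {V : Type} {c : V → V → ℝ} {r : V} (h : Ult c r) (x y : V) :
    x ∈ (mkN c x y).1 := PB2_mem h x y

theorem mem_mkN_right {V : Type} {c : V → V → ℝ} (x y : V) : y ∈ (mkN c x y).1 :=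
  le_refl (c x y)

theorem lev_mkN {V : Type} {c : V → V → ℝ} {r : V} (h : Ult c r) (x y : V) :
    lev (mkN c x y) = c x y := by
  obtain ⟨x0, y0, h1, h2⟩ := PB2_lev (mkN c x y)
  have h3 : cl c x (c x y) = cl c x0 (c x0 y0) := h1
  rw [h2]
  exact le_antisymm (PB2_le h h3.le) (PB2_le h h3.ge)

theorem Node.nonempty {V : Type} {c : V → V → ℝ} {r : V} (h : Ult c r) (C : Node c) :
    ∃ u, u ∈ C.1 := by
  obtain ⟨x0, y0, h1, -⟩ := PB2_lev C
  exact ⟨x0, by rw [h1]; exact PB2_mem h x0 y0⟩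

theorem Node.eq_cl {V : Type} {c : V → V → ℝ} {r : V} (h : Ult c r) (C : Node c) {u : V}
    (hu : u ∈ C.1) : C.1 = cl c u (lev C) := by
  obtain ⟨x0, y0, h1, h2⟩ := PB2_lev C
  rw [h1] at hu
  rw [h2, h1]
  exact PB2_cl h hu

theorem Node.lev_le {V : Type} {c : V → V → ℝ} {r : V} (h : Ult c r) (C : Node c) {u v : V}
    (hu : u ∈ C.1) (hv : v ∈ C.1) : lev C ≤ c u v := by
  rw [Node.eq_cl h C hu] at hv
  exact hv

theorem Node.sub_iff {V : Type} {c : V → V → ℝ} {r : V} (h : Ult c r) (C C' : Node c) {u : V}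
    (hu : u ∈ C.1) (hu' : u ∈ C'.1) : C.1 ⊆ C'.1 ↔ lev C' ≤ lev C := by
  constructor
  · intro hs
    obtain ⟨x0, y0, h1, h2⟩ := PB2_lev C
    rw [Node.eq_cl h C' hu', h1] at hs
    rw [h2]
    exact PB2_le h hs
  · intro hle
    rw [Node.eq_cl h C hu, Node.eq_cl h C' hu']
    intro v hv
    exact hle.trans hv

theorem mkN_root {V : Type} {c : V → V → ℝ} {r : V} (h : Ult c r) : (mkN c r r).1 = Set.univ := by
  refine Set.eq_univ_of_forall fun y => ?_
  show c r r ≤ c r y
  rw [h.root, h.root]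

theorem eq_univ_of_root_mem {V : Type} {c : V → V → ℝ} {r : V} (h : Ult c r) (C : Node c)
    (hr : r ∈ C.1) : C.1 = Set.univ := by
  have h1 := Node.lev_le h C hr hr
  rw [h.root] at h1
  rw [Node.eq_cl h C hr]
  refine Set.eq_univ_of_forall fun y => ?_
  show lev C ≤ c r y
  rw [h.root]
  exact h1

end Pool.Agent.LibPcg
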