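import Pool.Agent.LibPcg.PBDefs
import Pool.Agent.LibPcg.PB2

set_option autoImplicit false

/-!
Row PB3. Parents of clusters.
Sketch. Let `x ∈ C.1` and choose `z ∉ C.1` with `c x z` maximal (`V` finite, the complement is
nonempty). Put `P := mkN c x z`. By PB2 `C.1 = cl c x (lev C)`; `z ∉ C.1` says
`c x z < lev C`, so `C.1 ⊂ P.1` (`z ∈ P.1`). If `C.1 ⊂ Q.1`, then `x ∈ Q.1`,
`Q.1 = cl c x (lev Q)`, and some `z' ∈ Q.1` is not in `C.1`: `lev Q ≤ c x z' ≤ c x z`, so
`P.1 ⊆ Q.1`. So the condition in the definition of `par` holds (`dif_pos`, `choose_spec`).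
If `C.1 = univ` no `P` with `C.1 ⊂ P.1` exists and `par C = C` (`dif_neg`).
-/

namespace Pool.Agent.LibPcg

open SimpleGraph

theorem par_spec {V : Type} [Finite V] {c : V → V → ℝ} {r : V} (h : Ult c r) (C : Node c)
    (hC : C.1 ≠ Set.univ) : C.1 ⊂ (par C).1 ∧ ∀ Q : Node c, C.1 ⊂ Q.1 → (par C).1 ⊆ Q.1 := by
  classical
  obtain ⟨x, hx⟩ := Node.nonempty h C
  have hne : (C.1ᶜ).Nonempty := by
    rw [Set.nonempty_compl]
    exact hC
  obtain ⟨z, hz, hmax⟩ := Set.exists_max_image (C.1ᶜ) (fun y => c x y) (Set.toFinite _) hne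
  have hCx := Node.eq_cl h C hx
  have hlt : c x z < lev C := by
    by_contra hcon
    apply hz
    rw [hCx]
    exact not_lt.1 hcon
  have hex : ∃ P : Node c, C.1 ⊂ P.1 ∧ ∀ Q : Node c, C.1 ⊂ Q.1 → P.1 ⊆ Q.1 := by
    refine ⟨mkN c x z, ⟨?_, ?_⟩, ?_⟩
    · intro y hy
      rw [hCx] at hy
      have hy' : lev C ≤ c x y := hy
      show c x z ≤ c x y
      linarith
    · intro hsub
      exact hz (hsub (mem_mkN_right x z))
    · intro Q hQ
      have hxQ : x ∈ Q.1 := hQ.1 hx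
      have hQx := Node.eq_cl h Q hxQ
      obtain ⟨z', hz'Q, hz'C⟩ := Set.exists_of_ssubset hQ
      have h1 : lev Q ≤ c x z' := by
        rw [hQx] at hz'Q
        exact hz'Q
      have h2 : c x z' ≤ c x z := hmax z' hz'C
      intro y hy
      have hy' : c x z ≤ c x y := hy
      rw [hQx]
      show lev Q ≤ c x y
      linarith
  rw [par, dif_pos hex]
  exact hex.choose_spec

theorem par_univ {V : Type} {c : V → V → ℝ} (C : Node c) (hC : C.1 = Set.univ) : par C = C := by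
  classical
  rw [par, dif_neg]
  rintro ⟨P, hP, -⟩
  rw [hC] at hP
  exact hP.2 (Set.subset_univ _)

end Pool.Agent.LibPcg
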