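import Pool.Agent.LibPcg.PDefs

set_option autoImplicit false

/-!
Row PB4. The graph of a parent function is a tree.
Sketch. `G := SimpleGraph.fromRel (fun x y => p x = y)` (`fromRel_adj`). Connected: by strong
induction on `rk x` every `x` is joined to `root` (if `x ≠ root`, `rk (p x) < rk x`, so `x ≠ p x`
and `x`, `p x` are adjacent). Every edge is `s(x, p x)` for some `x ≠ root` (`p root = root`), so
`Nat.card G.edgeSet ≤ Nat.card {x // x ≠ root} = Nat.card W - 1` (surjection
`{x // x ≠ root} → G.edgeSet`, `Nat.card_le_card_of_surjective` or `Set.ncard_image_le`).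
With `Connected.card_vert_le_card_edgeSet_add_one` we have equality;
`SimpleGraph.isTree_iff_connected_and_card`.
-/

namespace Pool.Agent.LibPcg

open SimpleGraph

theorem parG_isTree {W : Type} [Finite W] (p : W → W) (root : W) (rk : W → ℕ)
    (hroot : p root = root) (hrk : ∀ x, x ≠ root → rk (p x) < rk x) :
    (SimpleGraph.fromRel (fun x y => p x = y)).IsTree := by
  classical
  have hadj : ∀ x, x ≠ root → (SimpleGraph.fromRel (fun x y => p x = y)).Adj x (p x) :=
    fun x hx => by
      rw [SimpleGraph.fromRel_adj]
      refine ⟨fun h => ?_, Or.inl rfl⟩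
      have h1 := hrk x hx
      rw [← h] at h1
      exact lt_irrefl _ h1
  have hreach : ∀ n x, rk x ≤ n →
      (SimpleGraph.fromRel (fun x y => p x = y)).Reachable x root := by
    intro n
    induction n with
    | zero =>
      intro x hx
      by_cases h : x = root
      · rw [h]
      · have := hrk x h
        omega
    | succ n ih =>
      intro x hx
      by_cases h : x = root
      · rw [h]
      · exact (hadj x h).reachable.trans (ih _ (by have := hrk x h; omega))
  have hconn : (SimpleGraph.fromRel (fun x y => p x = y)).Connected := by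
    rw [SimpleGraph.connected_iff]
    exact ⟨fun x y => (hreach _ x le_rfl).trans (hreach _ y le_rfl).symm, ⟨root⟩⟩
  rw [SimpleGraph.isTree_iff_connected_and_card]
  refine ⟨hconn, ?_⟩
  have h1 := hconn.card_vert_le_card_edgeSet_add_one
  have h2 : Nat.card (SimpleGraph.fromRel (fun x y => p x = y)).edgeSet ≤
      Nat.card {x : W // x ≠ root} := by
    refine Nat.card_le_card_of_surjective (fun x : {x : W // x ≠ root} =>
      (⟨s(x.1, p x.1), hadj x.1 x.2⟩ :
        (SimpleGraph.fromRel (fun x y => p x = y)).edgeSet)) ?_
    rintro ⟨e, he⟩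
    induction e using Sym2.ind with
    | _ u v =>
      have h := (SimpleGraph.fromRel_adj _ _ _).1 (SimpleGraph.mem_edgeSet _ |>.1 he)
      rcases h with ⟨hne, h | h⟩
      · have h4 : u ≠ root := by
          rintro rfl
          exact hne (hroot.symm.trans h)
        refine ⟨⟨u, h4⟩, Subtype.ext ?_⟩
        show s(u, p u) = s(u, v)
        rw [h]
      · have h4 : v ≠ root := by
          rintro rfl
          exact hne (h.symm.trans hroot)
        refine ⟨⟨v, h4⟩, Subtype.ext ?_⟩
        show s(v, p v) = s(u, v)
        rw [h, Sym2.eq_swap]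
  have h3 : Nat.card {x : W // x ≠ root} + 1 = Nat.card W := by
    have := Fintype.ofFinite W
    rw [Nat.card_eq_fintype_card, Nat.card_eq_fintype_card,
      Fintype.card_subtype_compl (fun x => x = root), Fintype.card_subtype_eq]
    have h5 : 0 < Fintype.card W := Fintype.card_pos_iff.2 ⟨root⟩
    omega
  omega

end Pool.Agent.LibPcg
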