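import Pool.Agent.LibPcg.PBDefs
import Pool.Agent.LibPcg.PB2
import Pool.Agent.LibPcg.PB3
import Pool.Agent.LibPcg.PB4

set_option autoImplicit false

/-!
Row PB5. The tree of the clusters is a tree.
-/

namespace Pool.Agent.LibPcg

open SimpleGraph

theorem bT_isTree {V : Type} [Finite V] {c : V → V → ℝ} {r : V} (h : Ult c r) :
    (bT c).IsTree := by
  have hle : ∀ C : Node c, (C.1ᶜ).ncard ≤ Nat.card V := by
    intro C
    rw [← Set.ncard_univ]
    exact Set.ncard_le_ncard (Set.subset_univ _)
  refine parG_isTree (upN c) (Sum.inr (mkN c r r))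
    (fun x => Sum.elim (fun _ => Nat.card V + 1) (fun C : Node c => (C.1ᶜ).ncard) x) ?_ ?_
  · show Sum.inr (par (mkN c r r)) = (Sum.inr (mkN c r r) : V ⊕ Node c)
    rw [par_univ _ (mkN_root h)]
  · rintro (v | C) hx
    · show ((mkN c v v).1ᶜ).ncard < Nat.card V + 1
      exact Nat.lt_succ_of_le (hle _)
    · show ((par C).1ᶜ).ncard < (C.1ᶜ).ncard
      have hC : C.1 ≠ Set.univ := by
        intro hC
        apply hx
        congr 1
        exact Subtype.ext (hC.trans (mkN_root h).symm)
      exact Set.ncard_lt_ncard (compl_lt_compl_iff_lt.2 (par_spec h C hC).1)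

end Pool.Agent.LibPcg
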