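import Pool.Agent.LibPcg.PBDefs
import Pool.Agent.LibPcg.PB2
import Pool.Agent.LibPcg.PB3

set_option autoImplicit false

/-!
Row PB6. Upward paths in the tree of the clusters.
Sketch. `up_node`: strong induction on `(C'.1 \ C.1).ncard`. If `C = C'` take `nil`. Otherwise
`C.1 ⊂ C'.1` (so `C.1 ≠ univ`), `P := par C` satisfies `C.1 ⊂ P.1 ⊆ C'.1` (PB3). The induction
hypothesis gives a path from `.inr P` to `.inr C'` in clusters `Q` with `P.1 ⊆ Q.1 ⊆ C'.1`; the
vertex `.inr C` is not in its support (`C.1 ⊂ P.1`), and `.inr C`, `.inr P` are adjacent in `bT c`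
(`fromRel_adj`, `upN c (.inr C) = .inr (par C)`, `C ≠ P`). So `Walk.cons` is a path
(`Walk.cons_isPath_iff`), its weight is `|lev C - lev P| + (lev P - lev C')` with `lev P ≤ lev C`
(`Node.sub_iff`). `up_leaf`: `.inl u` is adjacent to `.inr (mkN c u u)`, weight
`|c u u - lev (mkN c u u)| = 0` (`lev_mkN`), and `(mkN c u u).1 ⊆ C.1` by `Node.sub_iff`
(`lev C ≤ c u u`), then use `up_node`.
-/

namespace Pool.Agent.LibPcg

open SimpleGraph

theorem up_node {V : Type} [Finite V] {c : V → V → ℝ} {r : V} (h : Ult c r) (C C' : Node c)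
    (hC : C.1 ⊆ C'.1) : ∃ p : (bT c).Walk (.inr C) (.inr C'), p.IsPath ∧
      (p.edges.map (bw c)).sum = lev C - lev C' ∧
      ∀ z ∈ p.support, ∃ Q : Node c, z = .inr Q ∧ C.1 ⊆ Q.1 ∧ Q.1 ⊆ C'.1 := by
  induction hn : (C'.1 \ C.1).ncard using Nat.strong_induction_on generalizing C with
  | _ n ih =>
    by_cases heq : C.1 = C'.1
    · obtain rfl : C = C' := Subtype.ext heq
      refine ⟨Walk.nil, Walk.IsPath.nil, ?_, ?_⟩
      · simp
      · intro z hz
        rw [Walk.support_nil, List.mem_singleton] at hz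
        exact ⟨C, hz, subset_rfl, subset_rfl⟩
    · have hss : C.1 ⊂ C'.1 := ssubset_of_subset_of_ne hC heq
      have hCne : C.1 ≠ Set.univ := by
        intro hu
        rw [hu] at hss
        exact hss.2 (Set.subset_univ _)
      obtain ⟨h1, h2⟩ := par_spec h C hCne
      have hPC' : (par C).1 ⊆ C'.1 := h2 C' hss
      obtain ⟨y, hyP, hyC⟩ := Set.exists_of_ssubset h1
      have hlt : (C'.1 \ (par C).1).ncard < n := by
        rw [← hn]
        refine Set.ncard_lt_ncard ⟨Set.sdiff_subset_sdiff_right h1.1, ?_⟩ (Set.toFinite _)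
        intro hsub
        exact (hsub ⟨hPC' hyP, hyC⟩).2 hyP
      obtain ⟨p, hp, hsum, hsup⟩ := ih _ hlt (par C) hPC' rfl
      have hadj : (bT c).Adj (.inr C) (.inr (par C)) := by
        rw [bT, SimpleGraph.fromRel_adj]
        refine ⟨?_, Or.inl rfl⟩
        intro hcp
        have hcp' : C = par C := Sum.inr_injective hcp
        rw [← hcp'] at h1
        exact h1.2 subset_rfl
      have hnot : (Sum.inr C : V ⊕ Node c) ∉ p.support := by
        intro hmem
        obtain ⟨Q, hQ, hQ1, -⟩ := hsup _ hmem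
        have hQ' : C = Q := Sum.inr_injective hQ
        rw [← hQ'] at hQ1
        exact h1.2 hQ1
      refine ⟨Walk.cons hadj p, ?_, ?_, ?_⟩
      · rw [Walk.cons_isPath_iff]
        exact ⟨hp, hnot⟩
      · rw [Walk.edges_cons, List.map_cons, List.sum_cons, hsum]
        obtain ⟨u, hu⟩ := Node.nonempty h C
        have hle : lev (par C) ≤ lev C := (Node.sub_iff h C (par C) hu (h1.1 hu)).1 h1.1
        have hb : bw c s(.inr C, .inr (par C)) = lev C - lev (par C) := by
          show |lev C - lev (par C)| = _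
          rw [abs_of_nonneg (by linarith)]
        rw [hb]
        ring
      · intro z hz
        rw [Walk.support_cons, List.mem_cons] at hz
        rcases hz with rfl | hz
        · exact ⟨C, rfl, subset_rfl, hC⟩
        · obtain ⟨Q, hQ, hQ1, hQ2⟩ := hsup z hz
          exact ⟨Q, hQ, h1.1.trans hQ1, hQ2⟩

theorem up_leaf {V : Type} [Finite V] {c : V → V → ℝ} {r : V} (h : Ult c r) (u : V) (C : Node c)
    (hu : u ∈ C.1) : ∃ p : (bT c).Walk (.inl u) (.inr C), p.IsPath ∧
      (p.edges.map (bw c)).sum = c u u - lev C ∧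
      ∀ z ∈ p.support, z = .inl u ∨ ∃ Q : Node c, z = .inr Q ∧ u ∈ Q.1 ∧ Q.1 ⊆ C.1 := by
  have hu0 : u ∈ (mkN c u u).1 := mem_mkN_right u u
  have hlev : lev (mkN c u u) = c u u := lev_mkN h u u
  have hsub : (mkN c u u).1 ⊆ C.1 := by
    rw [Node.sub_iff h (mkN c u u) C hu0 hu, hlev]
    exact Node.lev_le h C hu hu
  obtain ⟨p, hp, hsum, hsup⟩ := up_node h (mkN c u u) C hsub
  have hadj : (bT c).Adj (.inl u) (.inr (mkN c u u)) := by
    rw [bT, SimpleGraph.fromRel_adj]
    exact ⟨Sum.inl_ne_inr, Or.inl rfl⟩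
  have hnot : (Sum.inl u : V ⊕ Node c) ∉ p.support := by
    intro hmem
    obtain ⟨Q, hQ, -, -⟩ := hsup _ hmem
    exact Sum.inl_ne_inr hQ
  refine ⟨Walk.cons hadj p, ?_, ?_, ?_⟩
  · rw [Walk.cons_isPath_iff]
    exact ⟨hp, hnot⟩
  · rw [Walk.edges_cons, List.map_cons, List.sum_cons, hsum, hlev]
    have hb : bw c s(.inl u, .inr (mkN c u u)) = 0 := by
      show |c u u - lev (mkN c u u)| = 0
      rw [hlev, sub_self, abs_zero]
    rw [hb, zero_add]
  · intro z hz
    rw [Walk.support_cons, List.mem_cons] at hz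
    rcases hz with rfl | hz
    · exact Or.inl rfl
    · obtain ⟨Q, hQ, hQ1, hQ2⟩ := hsup z hz
      exact Or.inr ⟨Q, hQ, hQ1 hu0, hQ2⟩

end Pool.Agent.LibPcg
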