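import Pool.Agent.LibPcg.PBDefs
import Pool.Agent.LibPcg.PB2
import Pool.Agent.LibPcg.PB3
import Pool.Agent.LibPcg.PB6

set_option autoImplicit false

/-!
Row PB7. The path between two leaves of the tree of the clusters.
Sketch. If `u = v`: `nil`. Otherwise let `C := mkN c u v`, it contains `u`, `v` and has the level
`c u v`. Let `p` and `q` be the paths of `up_leaf` from `.inl u` and from `.inl v` to `.inr C`. The
walk `p.append q.reverse` is a path: `Walk.isPath_def`, `Walk.support_append`, `List.nodup_append`;
a common vertex `z` of the two supports is `.inr Q` with `u ∈ Q.1`, `v ∈ Q.1`, `Q.1 ⊆ C.1`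
(`u ≠ v`); then `lev Q ≤ c u v = lev C`, so `C.1 ⊆ Q.1` (`Node.sub_iff`) and `Q = C`
(`Subtype.ext`); but `.inr C` is the first vertex of `q.reverse`, which is removed in the tail
(`q.reverse.support` is `.inr C :: _` and has no duplicates, `Walk.support_eq_cons`). Weight:
`(c u u - c u v) + (c v v - c u v)` (`Walk.edges_append`, `edges_reverse`, `List.sum_reverse`).
-/

namespace Pool.Agent.LibPcg

open SimpleGraph

theorem leaf_path {V : Type} [Finite V] {c : V → V → ℝ} {r : V} (h : Ult c r) (u v : V) :
    ∃ p : (bT c).Walk (.inl u) (.inl v), p.IsPath ∧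
      (p.edges.map (bw c)).sum = c u u + c v v - 2 * c u v := by
  by_cases huv : u = v
  · subst huv
    refine ⟨SimpleGraph.Walk.nil, SimpleGraph.Walk.IsPath.nil, ?_⟩
    rw [SimpleGraph.Walk.edges_nil, List.map_nil, List.sum_nil]
    ring
  · have hlev := lev_mkN h u v
    obtain ⟨p, hp, hpw, hps⟩ := up_leaf h u (mkN c u v) (mem_mkN_left h u v)
    obtain ⟨q, hq, hqw, hqs⟩ := up_leaf h v (mkN c u v) (mem_mkN_right u v)
    refine ⟨p.append q.reverse, ?_, ?_⟩
    · have hcons := (SimpleGraph.Walk.cons_tail_support q.reverse).symm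
      have hnd : q.reverse.support.Nodup := hq.reverse.support_nodup
      rw [SimpleGraph.Walk.isPath_def, SimpleGraph.Walk.support_append, List.nodup_append]
      refine ⟨hp.support_nodup, hnd.tail, ?_⟩
      intro a ha b hb hab
      subst hab
      have hb2 : a ∈ q.support := by
        have h1 := List.mem_of_mem_tail hb
        rw [SimpleGraph.Walk.support_reverse] at h1
        exact List.mem_reverse.1 h1
      rw [hcons, List.nodup_cons] at hnd
      rcases hps a ha with h1 | ⟨Q, h1, h2, h3⟩ <;> rcases hqs a hb2 with h4 | ⟨Q', h4, h5, h6⟩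
      · exact huv (Sum.inl_injective (h1.symm.trans h4))
      · exact Sum.inl_ne_inr (h1.symm.trans h4)
      · exact Sum.inl_ne_inr (h4.symm.trans h1)
      · have h7 : Q = Q' := Sum.inr_injective (h1.symm.trans h4)
        subst h7
        have h8 : lev Q ≤ lev (mkN c u v) := by
          rw [hlev]
          exact Node.lev_le h Q h2 h5
        have h9 := (Node.sub_iff h (mkN c u v) Q (mem_mkN_left h u v) h2).2 h8
        have h10 : Q = mkN c u v := Subtype.ext (Set.Subset.antisymm h3 h9)
        rw [h10] at h1
        rw [h1] at hb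
        exact hnd.1 hb
    · rw [SimpleGraph.Walk.edges_append, SimpleGraph.Walk.edges_reverse, List.map_append,
        List.map_reverse, List.sum_append, List.sum_reverse, hpw, hqw, hlev]
      ring

end Pool.Agent.LibPcg
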