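import Pool.Agent.LibPcg.PBDefs
import Pool.Agent.LibPcg.PB2
import Pool.Agent.LibPcg.PB3
import Pool.Agent.LibPcg.PB6

set_option autoImplicit false

/-!
Row PB8. The leaves of the tree of the clusters.
-/

namespace Pool.Agent.LibPcg

open SimpleGraph

theorem bT_leaves {V : Type} [Finite V] [Nontrivial V] {c : V → V → ℝ} {r : V} (h : Ult c r)
    (x : V ⊕ Node c) : IsLeaf (bT c) x ↔ ∃ v, Sum.inl v = x := by
  constructor
  · intro hx
    rcases x with v | C
    · exact ⟨v, rfl⟩
    exfalso
    have key : ∀ u ∈ C.1, ∃ y, (bT c).Adj (.inr C) y ∧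
        (y = .inl u ∨ ∃ Q : Node c, y = .inr Q ∧ Q.1 ⊆ C.1) := by
      intro u hu
      obtain ⟨p, -, -, hp⟩ := up_leaf h u C hu
      have hn : ¬ p.Nil := by
        intro hn
        exact absurd hn.eq (by simp)
      have h1 := p.adj_penultimate hn
      refine ⟨p.penultimate, h1.symm, ?_⟩
      rcases hp p.penultimate (Walk.getVert_mem_support _ _) with h2 | ⟨Q, h2, -, h3⟩
      · exact Or.inl h2
      · exact Or.inr ⟨Q, h2, h3⟩
    by_cases hC : C.1 = Set.univ
    · have hCr : C = mkN c r r := Subtype.ext (hC.trans (mkN_root h).symm)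
      have h1 : (bT c).Adj (.inr C) (.inl r) := by
        rw [bT, SimpleGraph.fromRel_adj]
        refine ⟨by simp, Or.inr ?_⟩
        show Sum.inr (mkN c r r) = Sum.inr C
        rw [hCr]
      obtain ⟨u, hu⟩ := exists_ne r
      obtain ⟨y, hy, hy2⟩ := key u (by rw [hC]; exact Set.mem_univ u)
      have h2 := hx y (.inl r) hy h1
      rcases hy2 with h3 | ⟨Q, h3, -⟩
      · rw [h3] at h2
        exact hu (Sum.inl.inj h2)
      · rw [h3] at h2
        exact absurd h2 (by simp)
    · obtain ⟨h0, -⟩ := par_spec h C hC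
      have h1 : (bT c).Adj (.inr C) (.inr (par C)) := by
        rw [bT, SimpleGraph.fromRel_adj]
        refine ⟨?_, Or.inl rfl⟩
        intro h2
        have h3 : C = par C := Sum.inr.inj h2
        rw [← h3] at h0
        exact h0.ne rfl
      obtain ⟨u, hu⟩ := Node.nonempty h C
      obtain ⟨y, hy, hy2⟩ := key u hu
      have h2 := hx y (.inr (par C)) hy h1
      rcases hy2 with h3 | ⟨Q, h3, h4⟩
      · rw [h3] at h2
        exact absurd h2 (by simp)
      · rw [h3] at h2
        have h5 : Q = par C := Sum.inr.inj h2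
        rw [h5] at h4
        exact h0.2 h4
  · rintro ⟨v, rfl⟩
    have key : ∀ y, (bT c).Adj (.inl v) y → y = .inr (mkN c v v) := by
      intro y hy
      rw [bT, SimpleGraph.fromRel_adj] at hy
      rcases hy.2 with h1 | h1
      · exact h1.symm
      · rcases y with w | Q
        · exact absurd h1 (by simp [upN])
        · exact absurd h1 (by simp [upN])
    intro y z hy hz
    rw [key y hy, key z hz]

end Pool.Agent.LibPcg
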