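import Pool.Agent.LibPcg.PBDefs
import Pool.Agent.LibPcg.PA3
import Pool.Agent.LibPcg.PA7
import Pool.Agent.LibPcg.PB1
import Pool.Agent.LibPcg.PB2
import Pool.Agent.LibPcg.PB5
import Pool.Agent.LibPcg.PB7
import Pool.Agent.LibPcg.PB8

set_option autoImplicit false

/-!
Row PB9. Every function with the four point condition is realized by a tree (Buneman).
Sketch. If `V` is a subsingleton: `W := Unit`, `T := ⊥` (`IsTree.of_subsingleton`), weights `0`; all
distances are `0 = d x x` (the path is `nil`). Otherwise `Nontrivial V`; pick `r : V`,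
`c x y := (d x r + d y r - d x y) / 2` (PB1), and use `W := V ⊕ Node c`, `T := bT c`, `w := bw c`
(nonnegative: `Sym2.ind`, `abs_nonneg`), `leaf := Sum.inl`, PB5, PB8. By PB7 (and `WTree.dist_iff`,
PA3) the distance of `u` and `v` is `c u u + c v v - 2 * c u v = d u v`
(`c u u = d u r` since `d u u = 0`).
-/

namespace Pool.Agent.LibPcg

open SimpleGraph

/-- the tree with one vertex -/
def PB9_pt (V : Type) [Subsingleton V] [Nonempty V] : WTree V where
  W := Unit
  fin := inferInstance
  T := ⊥
  tree := IsTree.of_subsingleton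
  w := fun _ => 0
  nonneg := fun _ => le_rfl
  leaf := fun _ => ()
  inj := fun _ _ _ => Subsingleton.elim _ _
  leaves := fun x => by
    constructor
    · intro _
      obtain ⟨v⟩ := (inferInstance : Nonempty V)
      exact ⟨v, rfl⟩
    · intro _ y z _ _
      rfl

/-- the tree of the clusters with its weights -/
noncomputable def PB9_tr {V : Type} [Finite V] [Nontrivial V] {c : V → V → ℝ} {r : V}
    (h : Ult c r) : WTree V where
  W := V ⊕ Node c
  fin := inferInstance
  T := bT c
  tree := bT_isTree h
  w := bw c
  nonneg := fun e => by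
    induction e using Sym2.ind with
    | _ x y => exact abs_nonneg _
  leaf := Sum.inl
  inj := Sum.inl_injective
  leaves := fun x => bT_leaves h x

theorem buneman {V : Type} [Finite V] [Nonempty V] (d : V → V → ℝ) (h : FourPt d) :
    ∃ D : WTree V, ∀ u v, D.d u v = d u v := by
  rcases subsingleton_or_nontrivial V with hV | hV
  · refine ⟨PB9_pt V, fun u v => ?_⟩
    obtain rfl : u = v := Subsingleton.elim _ _
    rw [h.self, WTree.d]
    have hw : (PB9_pt V).w = fun _ => 0 := rfl
    rw [hw]
    simp
  · obtain ⟨r⟩ := (inferInstance : Nonempty V)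
    have hu := ult_of_fourPt h r
    refine ⟨PB9_tr hu, fun u v => ?_⟩
    obtain ⟨p, hp, hsum⟩ := leaf_path hu u v
    have hD : (PB9_tr hu).Dist u v ((d u r + d u r - d u u) / 2 + (d v r + d v r - d v v) / 2 -
        2 * ((d u r + d v r - d u v) / 2)) := ⟨p, hp, hsum⟩
    rw [WTree.dist_iff] at hD
    rw [← hD, h.self, h.self]
    ring

end Pool.Agent.LibPcg
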