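import Pool.Agent.LibPcg.PDefs

set_option autoImplicit false

/-!
Row PC6. The distances of a double star have the four point property.
Sketch. `self`, `symm`: clear. `four`: put `s := if side x = side y then 0 else L` etc. Cases on the
equalities among `x y z u` (`by_cases` / `split_ifs`; substitute) and on the four values of `side`.
If `x = z`: the right entry of the maximum equals the left hand side; the same for `x = u`, `y = z`,
`y = u` (one of the two entries). If `x = y` or `z = u`: triangle inequality. If all four are
different: the sum of the four weights is on both sides, and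
`[xy] + [zu] ≤ max ([xz] + [yu]) ([xu] + [yz])` for the `L`-terms by cases on the four sides.
-/

namespace Pool.Agent.LibPcg

open SimpleGraph

open Classical in
theorem fourPt_star {V : Type} (side : V → Bool) (ω : V → ℝ) (hω : ∀ x, 0 ≤ ω x) (L : ℝ)
    (hL : 0 ≤ L) :
    FourPt (fun x y => if x = y then 0 else ω x + ω y + if side x = side y then 0 else L) := by
  have h3 : ∀ a b c : Bool, (if a = b then (0 : ℝ) else L) ≤
      (if a = c then 0 else L) + (if c = b then 0 else L) := by
    intro a b c
    cases a <;> cases b <;> cases c <;> simp <;> linarith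
  have h4 : ∀ a b c e : Bool, (if a = b then (0 : ℝ) else L) + (if c = e then 0 else L) ≤
      (if a = c then 0 else L) + (if b = e then 0 else L) ∨
      (if a = b then (0 : ℝ) else L) + (if c = e then 0 else L) ≤
      (if a = e then 0 else L) + (if b = c then 0 else L) := by
    intro a b c e
    cases a <;> cases b <;> cases c <;> cases e <;> simp <;> linarith
  have h0 : ∀ a b : Bool, 0 ≤ (if a = b then (0 : ℝ) else L) := by
    intro a b
    split_ifs
    · exact le_rfl
    · exact hL
  obtain ⟨d, hd⟩ : ∃ d : V → V → ℝ, d = fun x y =>
      if x = y then 0 else ω x + ω y + if side x = side y then 0 else L := ⟨_, rfl⟩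
  have hself : ∀ x, d x x = 0 := fun x => by rw [hd]; exact if_pos rfl
  have hne : ∀ x y, x ≠ y → d x y = ω x + ω y + if side x = side y then 0 else L :=
    fun x y hxy => by rw [hd]; exact if_neg hxy
  have hsymm : ∀ x y, d x y = d y x := fun x y => by
    by_cases hxy : x = y
    · rw [hxy]
    · rw [hne x y hxy, hne y x (Ne.symm hxy), add_comm (ω x)]
      congr 1
      by_cases hs : side x = side y
      · rw [if_pos hs, if_pos hs.symm]
      · rw [if_neg hs, if_neg (Ne.symm hs)]
  have hnn : ∀ x y, 0 ≤ d x y := fun x y => by
    by_cases hxy : x = y
    · rw [hxy, hself]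
    · rw [hne x y hxy]
      have := hω x
      have := hω y
      have := h0 (side x) (side y)
      linarith
  have htri : ∀ x y z, d x y ≤ d x z + d z y := fun x y z => by
    by_cases hxy : x = y
    · rw [hxy, hself]
      exact add_nonneg (hnn _ _) (hnn _ _)
    · by_cases hxz : x = z
      · rw [hxz, hself, zero_add]
      · by_cases hzy : z = y
        · rw [hzy, hself, add_zero]
        · rw [hne x y hxy, hne x z hxz, hne z y hzy]
          have := hω z
          have := h3 (side x) (side y) (side z)
          linarith
  rw [← hd]
  refine ⟨hself, hsymm, fun x y z u => ?_⟩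
  by_cases hxz : x = z
  · refine le_max_of_le_right (le_of_eq ?_)
    rw [hxz, hsymm y z, add_comm]
  by_cases hxu : x = u
  · refine le_max_of_le_left (le_of_eq ?_)
    rw [hxu, hsymm y u, hsymm z u, add_comm]
  by_cases hyz : y = z
  · refine le_max_of_le_left (le_of_eq ?_)
    rw [hyz]
  by_cases hyu : y = u
  · refine le_max_of_le_right (le_of_eq ?_)
    rw [hyu, hsymm z u]
  by_cases hxy : x = y
  · refine le_max_of_le_left ?_
    rw [hxy, hself, zero_add, hsymm y z]
    exact htri z u y
  by_cases hzu : z = u
  · refine le_max_of_le_left ?_
    rw [hzu, hself, add_zero, hsymm y u]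
    exact htri x y u
  rw [hne _ _ hxz, hne _ _ hxu, hne _ _ hyz, hne _ _ hyu, hne _ _ hxy, hne _ _ hzu, le_max_iff]
  rcases h4 (side x) (side y) (side z) (side u) with h | h
  · left
    linarith
  · right
    linarith

end Pool.Agent.LibPcg
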