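import Pool.Agent.LibPcg.PDefs

set_option autoImplicit false

/-!
Row PN1. A feasible point where the tight constraints determine the point.
-/

namespace Pool.Agent.LibPcg

open SimpleGraph

open Classical in
lemma exists_vertex_aux {ι K : Type} [Fintype ι] [Fintype K] (B : K → ι → ℝ) (c : K → ℝ)
    (hB : ∀ y : ι → ℝ, y ≠ 0 → ∃ k, ∑ j, B k j * y j < 0 ∨ 0 < ∑ j, B k j * y j) :
    ∀ (n : ℕ) (x : ι → ℝ), (∀ k, c k ≤ ∑ j, B k j * x j) →
      Fintype.card K ≤ (Finset.univ.filter fun k => ∑ j, B k j * x j = c k).card + n →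
      ∃ x : ι → ℝ, (∀ k, c k ≤ ∑ j, B k j * x j) ∧
        ∀ y : ι → ℝ, (∀ k, ∑ j, B k j * x j = c k → ∑ j, B k j * y j = 0) → y = 0 := by
  intro n
  induction n with
  | zero =>
    intro x hx hn
    refine ⟨x, hx, fun y hy => ?_⟩
    by_contra hne
    obtain ⟨k, hk⟩ := hB y hne
    have hall : (Finset.univ.filter fun k => ∑ j, B k j * x j = c k) = Finset.univ :=
      Finset.eq_univ_of_card _ (le_antisymm (Finset.card_le_univ _) (by simpa using hn))
    have h1 : k ∈ (Finset.univ.filter fun k => ∑ j, B k j * x j = c k) := by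
      rw [hall]; exact Finset.mem_univ _
    have h2 := hy k (Finset.mem_filter.1 h1).2
    rcases hk with h | h <;> linarith
  | succ n ih =>
    intro x hx hn
    by_cases hv : ∀ y : ι → ℝ, (∀ k, ∑ j, B k j * x j = c k → ∑ j, B k j * y j = 0) → y = 0
    · exact ⟨x, hx, hv⟩
    push Not at hv
    obtain ⟨y₀, hy₀, hne₀⟩ := hv
    -- choose the sign
    obtain ⟨y, hy, k₁, hk₁⟩ : ∃ y : ι → ℝ,
        (∀ k, ∑ j, B k j * x j = c k → ∑ j, B k j * y j = 0) ∧ ∃ k, ∑ j, B k j * y j < 0 := by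
      obtain ⟨k, hk⟩ := hB y₀ hne₀
      rcases hk with h | h
      · exact ⟨y₀, hy₀, k, h⟩
      · refine ⟨fun j => -y₀ j, fun k hk => ?_, k, ?_⟩
        · have := hy₀ k hk
          simp only [mul_neg, Finset.sum_neg_distrib, this, neg_zero]
        · simp only [mul_neg, Finset.sum_neg_distrib]
          linarith
    have hN : (Finset.univ.filter fun k => ∑ j, B k j * y j < 0).Nonempty :=
      ⟨k₁, Finset.mem_filter.2 ⟨Finset.mem_univ _, hk₁⟩⟩
    obtain ⟨k₀, hk₀, hmin⟩ := Finset.exists_min_image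
      (Finset.univ.filter fun k => ∑ j, B k j * y j < 0)
      (fun k => (∑ j, B k j * x j - c k) / (-(∑ j, B k j * y j))) hN
    have hk₀' : ∑ j, B k₀ j * y j < 0 := (Finset.mem_filter.1 hk₀).2
    set s := (∑ j, B k₀ j * x j - c k₀) / (-(∑ j, B k₀ j * y j)) with hs
    have hs0 : 0 ≤ s := div_nonneg (by linarith [hx k₀]) (by linarith)
    have hlin : ∀ k, ∑ j, B k j * (x j + s * y j) = ∑ j, B k j * x j + s * ∑ j, B k j * y j := by
      intro k
      rw [Finset.mul_sum, ← Finset.sum_add_distrib]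
      refine Finset.sum_congr rfl fun j _ => ?_
      ring
    refine ih (fun j => x j + s * y j) ?_ ?_
    · intro k
      rw [hlin]
      rcases lt_or_ge (∑ j, B k j * y j) 0 with h | h
      · have h1 := hmin k (Finset.mem_filter.2 ⟨Finset.mem_univ _, h⟩)
        rw [le_div_iff₀ (by linarith)] at h1
        linarith
      · have := mul_nonneg hs0 h
        linarith [hx k]
    · have hsub : insert k₀ (Finset.univ.filter fun k => ∑ j, B k j * x j = c k) ⊆
          (Finset.univ.filter fun k => ∑ j, B k j * (x j + s * y j) = c k) := by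
        intro k hk
        rw [Finset.mem_insert] at hk
        refine Finset.mem_filter.2 ⟨Finset.mem_univ _, ?_⟩
        rw [hlin]
        rcases hk with rfl | hk
        · have h1 : s * (-(∑ j, B k j * y j)) = ∑ j, B k j * x j - c k := by
            rw [hs]
            exact div_mul_cancel₀ _ (by linarith : -(∑ j, B k j * y j) ≠ 0)
          linarith
        · have h1 := (Finset.mem_filter.1 hk).2
          rw [h1, hy k h1, mul_zero, add_zero]
      have hnot : k₀ ∉ (Finset.univ.filter fun k => ∑ j, B k j * x j = c k) := by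
        intro h
        have := hy k₀ (Finset.mem_filter.1 h).2
        linarith
      have hc := Finset.card_le_card hsub
      rw [Finset.card_insert_of_notMem hnot] at hc
      omega

theorem exists_vertex {ι κ : Type} [Fintype ι] [Fintype κ] (A : κ → ι → ℝ) (c : κ → ℝ)
    (x0 : ι → ℝ) (h0 : ∀ j, 0 ≤ x0 j) (h1 : ∀ i, c i ≤ ∑ j, A i j * x0 j) :
    ∃ x : ι → ℝ, (∀ j, 0 ≤ x j) ∧ (∀ i, c i ≤ ∑ j, A i j * x j) ∧
      ∀ y : ι → ℝ, (∀ j, x j = 0 → y j = 0) →
        (∀ i, ∑ j, A i j * x j = c i → ∑ j, A i j * y j = 0) → y = 0 := by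
  classical
  set B : ι ⊕ κ → ι → ℝ := Sum.elim (fun i j => if j = i then 1 else 0) A with hB
  set c' : ι ⊕ κ → ℝ := Sum.elim (fun _ => 0) c with hc'
  have hl : ∀ (i : ι) (x : ι → ℝ), ∑ j, B (Sum.inl i) j * x j = x i := by
    intro i x
    simp [hB]
  have hr : ∀ (i : κ) (x : ι → ℝ), ∑ j, B (Sum.inr i) j * x j = ∑ j, A i j * x j := by
    intro i x
    simp [hB]
  obtain ⟨x, hx, hv⟩ := exists_vertex_aux B c' (by
    intro y hy
    obtain ⟨j, hj⟩ := Function.ne_iff.1 hy
    refine ⟨Sum.inl j, ?_⟩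
    rw [hl]
    exact lt_or_gt_of_ne hj) (Fintype.card (ι ⊕ κ)) x0 (by
    rintro (i | i)
    · rw [hl]; exact h0 i
    · rw [hr]; exact h1 i) (by omega)
  refine ⟨x, fun j => ?_, fun i => ?_, fun y hy1 hy2 => ?_⟩
  · have := hx (Sum.inl j)
    rwa [hl] at this
  · have := hx (Sum.inr i)
    rwa [hr] at this
  · refine hv y ?_
    rintro (i | i) hk
    · rw [hl] at hk ⊢
      exact hy1 i hk
    · rw [hr] at hk ⊢
      exact hy2 i hk

end Pool.Agent.LibPcg
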