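import Pool.Agent.LibPcg.PDefs

set_option autoImplicit false

/-!
Row PN2. A square nonsingular subsystem.
-/

namespace Pool.Agent.LibPcg

open SimpleGraph

theorem exists_minor {ι κ : Type} [Fintype ι] [DecidableEq ι] [Fintype κ] (v : κ → ι → ℝ)
    (h : ∀ y : ι → ℝ, (∀ i, ∑ j, v i j * y j = 0) → y = 0) :
    ∃ f : ι → κ, (Matrix.of fun i j => v (f i) j).det ≠ 0 := by
  classical
  -- the rows span
  have hspan : Submodule.span ℝ (Set.range v) = ⊤ := by
    by_contra hne
    obtain ⟨φ, hφ0, hφ⟩ := Submodule.exists_le_ker_of_lt_top _ (lt_top_iff_ne_top.2 hne)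
    have hrep : ∀ w : ι → ℝ, φ w = ∑ j, w j * φ (Pi.single j 1) := by
      intro w
      conv_lhs => rw [← Finset.univ_sum_single w]
      rw [map_sum]
      refine Finset.sum_congr rfl fun j _ => ?_
      have : (Pi.single j (w j) : ι → ℝ) = w j • Pi.single j 1 := by
        rw [← Pi.single_smul, smul_eq_mul, mul_one]
      rw [this, map_smul, smul_eq_mul]
    have h0 : (fun j => φ (Pi.single j 1)) = 0 := by
      refine h _ fun i => ?_
      rw [← hrep]
      exact hφ (Submodule.subset_span ⟨i, rfl⟩)
    apply hφ0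
    ext w
    rw [LinearMap.comp_apply, hrep]
    simp only [LinearMap.zero_comp, LinearMap.zero_apply]
    refine Finset.sum_eq_zero fun j _ => ?_
    have := congrFun h0 j
    simp only [Pi.zero_apply] at this
    rw [this, mul_zero]
  obtain ⟨κ', a, -, hsp, hli⟩ := exists_linearIndependent' ℝ v
  rw [hspan] at hsp
  set b : Module.Basis κ' ℝ (ι → ℝ) := Module.Basis.mk hli hsp.ge with hb
  have : Fintype κ' := FiniteDimensional.fintypeBasisIndex b
  have hcard : Fintype.card κ' = Fintype.card ι := by
    rw [← Module.finrank_eq_card_basis b, Module.finrank_fintype_fun_eq_card]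
  have e : ι ≃ κ' := Fintype.equivOfCardEq hcard.symm
  refine ⟨fun i => a (e i), ?_⟩
  have hli' : LinearIndependent ℝ (fun i => v (a (e i))) := hli.comp e e.injective
  have h1 : IsUnit (Matrix.of fun i j => v (a (e i)) j) :=
    Matrix.linearIndependent_rows_iff_isUnit.1 hli'
  exact (Matrix.isUnit_iff_isUnit_det _).1 h1 |>.ne_zero

end Pool.Agent.LibPcg
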