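import Pool.Agent.LibPcg.PDefs

set_option autoImplicit false

/-!
Row PN3. Cramer's rule with integers.
Sketch. `M : Matrix ι ι ℤ`, `M.map cast *ᵥ x = cast b`. With `N i := M.cramer b i` we have
`M *ᵥ (M.cramer b) = M.det • b` (`Matrix.mulVec_cramer`), so over `ℝ` (`Matrix.det` commutes with the
cast: `Int.cast_det` or `RingHom.map_det`) `M (det M * x - N) = 0`, hence `N j = det M * x j`
(`Matrix.eq_zero_of_mulVec_eq_zero`). Bound: `M.cramer b j = (M.updateCol j b).det`
(`Matrix.cramer_apply`), all entries of `M.updateCol j b` have absolute value `≤ K`, and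
`Matrix.det_le` (with `abv := AbsoluteValue.abs`) gives `|det| ≤ (card ι)! * K ^ card ι`.
-/

namespace Pool.Agent.LibPcg

open SimpleGraph

theorem cramer_int {ι : Type} [Fintype ι] [DecidableEq ι] (M : Matrix ι ι ℤ) (b : ι → ℤ)
    (x : ι → ℝ) (hM : M.det ≠ 0) (hx : ∀ i, ∑ j, (M i j : ℝ) * x j = b i) (K : ℕ)
    (hK : ∀ i j, |M i j| ≤ K) (hb : ∀ i, |b i| ≤ K) :
    ∃ N : ι → ℤ, (∀ j, (N j : ℝ) = M.det * x j) ∧
      ∀ j, |N j| ≤ ((Fintype.card ι).factorial * K ^ Fintype.card ι : ℕ) := by
  refine ⟨fun j => M.cramer b j, ?_, ?_⟩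
  · set MR : Matrix ι ι ℝ := M.map (Int.cast : ℤ → ℝ) with hMR
    have hdet : MR.det = (M.det : ℝ) := (Int.cast_det M).symm
    have hdet0 : MR.det ≠ 0 := by
      rw [hdet]
      exact_mod_cast hM
    have h1 : MR.mulVec (fun j => (M.det : ℝ) * x j - (M.cramer b j : ℝ)) = 0 := by
      funext i
      have h2 : ∑ j, M i j * M.cramer b j = M.det * b i := by
        have := congrFun (Matrix.mulVec_cramer M b) i
        simpa [Matrix.mulVec, dotProduct] using this
      have h3 : (∑ j, (M i j : ℝ) * (M.cramer b j : ℝ)) = (M.det : ℝ) * (b i : ℝ) := by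
        have := congrArg (Int.cast : ℤ → ℝ) h2
        rw [Int.cast_sum, Int.cast_mul] at this
        simpa only [Int.cast_mul] using this
      change ∑ j, (M i j : ℝ) * ((M.det : ℝ) * x j - (M.cramer b j : ℝ)) = 0
      have h4 : ∑ j, (M i j : ℝ) * ((M.det : ℝ) * x j - (M.cramer b j : ℝ)) =
          (M.det : ℝ) * (∑ j, (M i j : ℝ) * x j) - ∑ j, (M i j : ℝ) * (M.cramer b j : ℝ) := by
        rw [Finset.mul_sum, ← Finset.sum_sub_distrib]
        refine Finset.sum_congr rfl fun j _ => ?_
        ring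
      rw [h4, hx i, h3, sub_self]
    have h5 := Matrix.eq_zero_of_mulVec_eq_zero hdet0 h1
    intro j
    have h6 := congrFun h5 j
    simp only [Pi.zero_apply] at h6
    linarith
  · intro j
    have h7 : ∀ i k, AbsoluteValue.abs ((M.updateCol j b) i k) ≤ (K : ℤ) := by
      intro i k
      rw [Matrix.updateCol_apply]
      split_ifs
      · exact hb i
      · exact hK i k
    have h8 := Matrix.det_le h7
    change |M.cramer b j| ≤ _
    rw [Matrix.cramer_apply]
    have h9 : |(M.updateCol j b).det| ≤ (Fintype.card ι).factorial • ((K : ℤ) ^ Fintype.card ι) := h8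
    rw [nsmul_eq_mul] at h9
    push_cast
    exact h9

end Pool.Agent.LibPcg
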