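import Pool.Agent.LibPcg.PDefs
import Pool.Agent.LibPcg.PN1
import Pool.Agent.LibPcg.PN2
import Pool.Agent.LibPcg.PN3

set_option autoImplicit false

/-!
Row PN4. Small natural solutions of systems of linear inequalities.
Sketch. PN1 (with `A`, `c` cast to `ℝ`) gives `x`. Let `κ' := {s : ι ⊕ κ // s is tight at x}` with the
integer row `Pi.single j 1` resp. `A i` and right hand side `0` resp. `c i`. PN2 for the real rows gives
`f : ι → κ'`; `M` the integer matrix of these rows, `det M ≠ 0` (its cast is the determinant of PN2),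
entries `≤ K` in absolute value (`1 ≤ K`), right hand sides in `{0, 1}`. PN3 gives
`N j = det M * x j`, `|N j| ≤ N! K^N`. Put `y j := (N j).natAbs`, so `(y j : ℝ) = |det M| * x j` as
`0 ≤ x j`. Then `∑ j, A i j * y j = |det M| * ∑ j, A i j * x j ≥ |det M| * c i ≥ c i` because
`|det M| ≥ 1` and `0 ≤ c i` (all of this in `ℝ`, then cast back to `ℤ`).
-/

namespace Pool.Agent.LibPcg

open SimpleGraph

/-- the integer rows of all the constraints -/
def PN4B {ι κ : Type} [DecidableEq ι] (A : κ → ι → ℤ) : ι ⊕ κ → ι → ℤ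
  | .inl j => Pi.single j 1
  | .inr i => A i

/-- the right hand sides of all the constraints -/
def PN4r {ι κ : Type} (c : κ → ℤ) : ι ⊕ κ → ℤ
  | .inl _ => 0
  | .inr i => c i

theorem small_solution {ι κ : Type} [Fintype ι] [DecidableEq ι] [Fintype κ] (A : κ → ι → ℤ)
    (c : κ → ℤ) (hc : ∀ i, c i = 0 ∨ c i = 1) (K : ℕ) (hK : 1 ≤ K) (hA : ∀ i j, |A i j| ≤ K)
    (x0 : ι → ℝ) (h0 : ∀ j, 0 ≤ x0 j) (h1 : ∀ i, (c i : ℝ) ≤ ∑ j, (A i j : ℝ) * x0 j) :
    ∃ y : ι → ℕ, (∀ j, y j ≤ (Fintype.card ι).factorial * K ^ Fintype.card ι) ∧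
      ∀ i, c i ≤ ∑ j, A i j * (y j : ℤ) := by
  classical
  obtain ⟨x, hx0, hx1, hx2⟩ := exists_vertex (fun i j => (A i j : ℝ)) (fun i => (c i : ℝ)) x0 h0 h1
  have hinl : ∀ (j : ι) (y : ι → ℝ), ∑ j', ((PN4B A (Sum.inl j) j' : ℤ) : ℝ) * y j' = y j := by
    intro j y
    rw [Finset.sum_eq_single j]
    · show (((Pi.single j (1 : ℤ) : ι → ℤ) j : ℤ) : ℝ) * y j = y j
      rw [Pi.single_eq_same, Int.cast_one, one_mul]
    · intro b _ hb
      show (((Pi.single j (1 : ℤ) : ι → ℤ) b : ℤ) : ℝ) * y b = 0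
      rw [Pi.single_eq_of_ne hb, Int.cast_zero, zero_mul]
    · intro h
      exact absurd (Finset.mem_univ j) h
  obtain ⟨f, hf⟩ := exists_minor
    (fun (s : {s : ι ⊕ κ // ∑ j, ((PN4B A s j : ℤ) : ℝ) * x j = ((PN4r c s : ℤ) : ℝ)}) j =>
      ((PN4B A s.1 j : ℤ) : ℝ)) (fun y hy => by
      refine hx2 y (fun j hj => ?_) (fun i hi => ?_)
      · have h2 : ∑ j', ((PN4B A (Sum.inl j : ι ⊕ κ) j' : ℤ) : ℝ) * x j' =
            ((PN4r c (Sum.inl j : ι ⊕ κ) : ℤ) : ℝ) := by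
          rw [hinl, hj]
          exact Int.cast_zero.symm
        have h3 := hy ⟨Sum.inl j, h2⟩
        rw [hinl] at h3
        exact h3
      · exact hy ⟨Sum.inr i, hi⟩)
  have hdet : (((Matrix.of fun i j => PN4B A (f i).1 j : Matrix ι ι ℤ).det : ℤ) : ℝ) =
      (Matrix.of fun i j => ((PN4B A (f i).1 j : ℤ) : ℝ)).det := by
    have h2 := RingHom.map_det (Int.castRingHom ℝ)
      (Matrix.of fun i j => PN4B A (f i).1 j : Matrix ι ι ℤ)
    exact h2
  have hM : (Matrix.of fun i j => PN4B A (f i).1 j : Matrix ι ι ℤ).det ≠ 0 := by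
    intro h
    rw [h, Int.cast_zero] at hdet
    exact hf hdet.symm
  have hK' : (1 : ℤ) ≤ (K : ℤ) := by exact_mod_cast hK
  have hB : ∀ (s : ι ⊕ κ) (j : ι), |PN4B A s j| ≤ (K : ℤ) := by
    rintro (j' | i) j
    · show |(Pi.single j' (1 : ℤ) : ι → ℤ) j| ≤ (K : ℤ)
      by_cases hj : j = j'
      · rw [hj, Pi.single_eq_same, abs_one]
        exact hK'
      · rw [Pi.single_eq_of_ne hj, abs_zero]
        linarith
    · exact hA i j
  have hr : ∀ s : ι ⊕ κ, |PN4r c s| ≤ (K : ℤ) := by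
    rintro (j' | i)
    · show |(0 : ℤ)| ≤ (K : ℤ)
      rw [abs_zero]
      linarith
    · show |c i| ≤ (K : ℤ)
      rcases hc i with h | h
      · rw [h, abs_zero]
        linarith
      · rw [h, abs_one]
        exact hK'
  obtain ⟨N, hN, hN'⟩ := cramer_int (Matrix.of fun i j => PN4B A (f i).1 j : Matrix ι ι ℤ)
    (fun i => PN4r c (f i).1) x hM (fun i => (f i).2) K (fun i j => hB _ j) (fun i => hr _)
  obtain ⟨d, hd⟩ : ∃ d : ℤ, d = (Matrix.of fun i j => PN4B A (f i).1 j : Matrix ι ι ℤ).det :=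
    ⟨_, rfl⟩
  rw [← hd] at hN hM
  have hd1 : (1 : ℝ) ≤ |(d : ℝ)| := by
    have h2 : (1 : ℤ) ≤ |d| := Int.one_le_abs hM
    exact_mod_cast h2
  have hy : ∀ j, (((N j).natAbs : ℕ) : ℝ) = |(d : ℝ)| * x j := by
    intro j
    rw [Nat.cast_natAbs, Int.cast_abs, hN j, abs_mul, abs_of_nonneg (hx0 j)]
  refine ⟨fun j => (N j).natAbs, fun j => ?_, fun i => ?_⟩
  · have h2 := hN' j
    rw [Int.abs_eq_natAbs] at h2
    exact_mod_cast h2
  · have h2 : ((c i : ℤ) : ℝ) ≤ ((∑ j, A i j * (((N j).natAbs : ℕ) : ℤ) : ℤ) : ℝ) := by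
      have h3 : ((∑ j, A i j * (((N j).natAbs : ℕ) : ℤ) : ℤ) : ℝ) =
          |(d : ℝ)| * ∑ j, (A i j : ℝ) * x j := by
        rw [Int.cast_sum, Finset.mul_sum]
        refine Finset.sum_congr rfl fun j _ => ?_
        rw [Int.cast_mul, Int.cast_natCast, hy j]
        ring
      rw [h3]
      have h4 : (c i : ℝ) ≤ ∑ j, (A i j : ℝ) * x j := hx1 i
      have h5 : (0 : ℝ) ≤ (c i : ℝ) := by
        rcases hc i with h | h
        · rw [h, Int.cast_zero]
        · rw [h, Int.cast_one]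
          exact zero_le_one
      nlinarith
    exact Int.cast_le.1 h2

end Pool.Agent.LibPcg
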