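import Pool.Agent.LibPcg.PDefs
import Pool.Agent.LibPcg.PA7

set_option autoImplicit false

/-!
Row PN5. Scaling: strict inequalities become inequalities with gap one.
-/

namespace Pool.Agent.LibPcg

open SimpleGraph

theorem exists_scale {V J : Type} [Fintype V] [Fintype J] (d : V → V → ℝ) (a : J → ℝ) :
    ∃ μ : ℝ, 1 ≤ μ ∧ ∀ j x y, d x y < a j → 1 ≤ μ * a j - μ * d x y := by
  classical
  let f : J × V × V → ℝ := fun p =>
    if d p.2.1 p.2.2 < a p.1 then 1 / (a p.1 - d p.2.1 p.2.2) else 0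
  have hf : ∀ p, 0 ≤ f p := by
    intro p
    show 0 ≤ if d p.2.1 p.2.2 < a p.1 then 1 / (a p.1 - d p.2.1 p.2.2) else 0
    split_ifs with h
    · exact (one_div_pos.2 (sub_pos.2 h)).le
    · exact le_refl 0
  refine ⟨1 + ∑ p, f p, ?_, fun j x y h => ?_⟩
  · have h1 : 0 ≤ ∑ p, f p := Finset.sum_nonneg fun p _ => hf p
    linarith
  · have h1 : f (j, x, y) ≤ ∑ p, f p :=
      Finset.single_le_sum (fun p _ => hf p) (Finset.mem_univ (j, x, y))
    have h2 : f (j, x, y) = 1 / (a j - d x y) := if_pos h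
    have h3 : 0 < a j - d x y := sub_pos.2 h
    have h4 : 1 / (a j - d x y) * (a j - d x y) = 1 := div_mul_cancel₀ _ h3.ne'
    have h5 : 1 / (a j - d x y) ≤ 1 + ∑ p, f p := by
      rw [← h2]
      linarith
    have h6 := mul_le_mul_of_nonneg_right h5 h3.le
    rw [h4] at h6
    linarith [mul_sub (1 + ∑ p, f p) (a j) (d x y)]

end Pool.Agent.LibPcg
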