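import Pool.Agent.LibPcg.PDefs
import Pool.Agent.LibPcg.PA7
import Pool.Agent.LibPcg.PN4
import Pool.Agent.LibPcg.PN5

set_option autoImplicit false

/-!
Row PN6. Small natural distances and thresholds with the same comparisons.
Sketch. Unknowns `ι := V × V ⊕ J` (values `D x y`, `T j`); the real solution is `μ * d x y`, `μ * a j`
(PN5; nonnegative by `FourPt.nonneg`, `ha`). Constraints, `κ := V ⊕ V × V ⊕ V × V × V × V ⊕ J × V × V`,
each of the form `∑ A x ≥ c`:
(1) `- D x x ≥ 0`; (2) `D x y - D y x ≥ 0`; (3) for `(x, y, z, u)`: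
`D x z + D y u - D x y - D z u ≥ 0` if `d x y + d z u ≤ d x z + d y u`, and
`D x u + D y z - D x y - D z u ≥ 0` otherwise (then it is true by `h.four`); (4) for `(j, x, y)`:
`D x y - T j ≥ 0` if `a j ≤ d x y`, and `T j - D x y ≥ 1` otherwise. The rows are sums of at most four
`± Pi.single _ 1`, so all coefficients have absolute value `≤ 4 =: K`, and
`∑ j, (Pi.single p 1 : ι → ℤ) j * x j = x p` (`Finset.sum_eq_single`, `Pi.single_apply`, `simp`). Apply
`small_solution` (PN4); with `N := card V ^ 2 + card J` the bound is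
`N! * 4 ^ N ≤ N ^ N * 4 ^ N ≤ 2 ^ (N * N) * 2 ^ (2 * N) < 2 ^ (N * N + 2 * N + 1)`
(`Nat.factorial_le_pow`, `N < 2 ^ N`). From the inequalities for the natural numbers read off the
conclusions ((1): `D x x = 0`; (2) for `(x, y)` and `(y, x)`; (3): `le_max_of_le_left/right`; (4)).
-/

namespace Pool.Agent.LibPcg

open SimpleGraph

/-- the row with the given entries -/
def PN6_row {ι : Type} [DecidableEq ι] (l : List (ι × ℤ)) (j : ι) : ℤ :=
  (l.map fun p => if p.1 = j then p.2 else 0).sum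

theorem PN6_sum {ι R : Type} [Fintype ι] [DecidableEq ι] [CommRing R] (l : List (ι × ℤ))
    (x : ι → R) :
    ∑ j, ((PN6_row l j : ℤ) : R) * x j = (l.map fun p => ((p.2 : ℤ) : R) * x p.1).sum := by
  induction l with
  | nil => simp [PN6_row]
  | cons p l ih =>
    have h1 : ∀ j, PN6_row (p :: l) j = (if p.1 = j then p.2 else 0) + PN6_row l j := by
      intro j
      simp [PN6_row]
    rw [List.map_cons, List.sum_cons, ← ih]
    simp_rw [h1, Int.cast_add, add_mul]
    rw [Finset.sum_add_distrib]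
    congr 1
    rw [Finset.sum_eq_single p.1]
    · rw [if_pos rfl]
    · intro b _ hb
      rw [if_neg (Ne.symm hb), Int.cast_zero, zero_mul]
    · intro hb
      exact absurd (Finset.mem_univ _) hb

theorem PN6_abs {ι : Type} [DecidableEq ι] (l : List (ι × ℤ)) (hl : ∀ p ∈ l, |p.2| ≤ 1) (j : ι) :
    |PN6_row l j| ≤ l.length := by
  induction l with
  | nil => simp [PN6_row]
  | cons p l ih =>
    have h1 : PN6_row (p :: l) j = (if p.1 = j then p.2 else 0) + PN6_row l j := by
      simp [PN6_row]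
    rw [h1]
    have h2 := ih fun q hq => hl q (List.mem_cons_of_mem _ hq)
    have h3 : |if p.1 = j then p.2 else 0| ≤ 1 := by
      split_ifs
      · exact hl p List.mem_cons_self
      · simp
    have h4 := abs_add_le (if p.1 = j then p.2 else 0) (PN6_row l j)
    rw [List.length_cons]
    push_cast
    linarith

theorem PN6_bound (N y : ℕ) (h : y ≤ N.factorial * 4 ^ N) : y < 2 ^ (N * N + 2 * N + 1) := by
  have h1 : N.factorial ≤ 2 ^ (N * N) := by
    calc N.factorial ≤ N ^ N := Nat.factorial_le_pow N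
      _ ≤ (2 ^ N) ^ N := Nat.pow_le_pow_left (Nat.lt_two_pow_self).le N
      _ = 2 ^ (N * N) := by rw [← pow_mul]
  have h2 : (4 : ℕ) ^ N = 2 ^ (2 * N) := by
    rw [pow_mul]
    norm_num
  calc y ≤ N.factorial * 4 ^ N := h
    _ ≤ 2 ^ (N * N) * 2 ^ (2 * N) := by
        rw [h2]
        exact Nat.mul_le_mul_right _ h1
    _ = 2 ^ (N * N + 2 * N) := by rw [← pow_add]
    _ < 2 ^ (N * N + 2 * N + 1) := Nat.pow_lt_pow_right (by norm_num) (Nat.lt_succ_self _)

open Classical in
/-- the entries of the constraints -/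
noncomputable def PN6_L {V J : Type} (d : V → V → ℝ) (a : J → ℝ) :
    V ⊕ (V × V) ⊕ (V × V × V × V) ⊕ (J × V × V) → List (((V × V) ⊕ J) × ℤ)
  | .inl x => [(.inl (x, x), -1)]
  | .inr (.inl (x, y)) => [(.inl (x, y), 1), (.inl (y, x), -1)]
  | .inr (.inr (.inl (x, y, z, u))) =>
    if d x y + d z u ≤ d x z + d y u then
      [(.inl (x, z), 1), (.inl (y, u), 1), (.inl (x, y), -1), (.inl (z, u), -1)]
    else [(.inl (x, u), 1), (.inl (y, z), 1), (.inl (x, y), -1), (.inl (z, u), -1)]
  | .inr (.inr (.inr (j, x, y))) =>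
    if a j ≤ d x y then [(.inl (x, y), 1), (.inr j, -1)] else [(.inr j, 1), (.inl (x, y), -1)]

open Classical in
/-- the right hand sides of the constraints -/
noncomputable def PN6_c {V J : Type} (d : V → V → ℝ) (a : J → ℝ) :
    V ⊕ (V × V) ⊕ (V × V × V × V) ⊕ (J × V × V) → ℤ
  | .inr (.inr (.inr (j, x, y))) => if a j ≤ d x y then 0 else 1
  | _ => 0

theorem nat_rep {V J : Type} [Fintype V] [Fintype J] (d : V → V → ℝ) (h : FourPt d)
    (a : J → ℝ) (ha : ∀ j, 0 ≤ a j) (N : ℕ)
    (hN : N = Fintype.card V * Fintype.card V + Fintype.card J) :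
    ∃ (d' : V → V → ℕ) (a' : J → ℕ), FourPt (fun x y => (d' x y : ℝ)) ∧
      (∀ j x y, a j ≤ d x y ↔ a' j ≤ d' x y) ∧ (∀ x y, d' x y < 2 ^ (N * N + 2 * N + 1)) ∧
      ∀ j, a' j < 2 ^ (N * N + 2 * N + 1) := by
  classical
  obtain ⟨μ, hμ, hsc⟩ := exists_scale d a
  have hμ0 : 0 ≤ μ := by linarith
  obtain ⟨y, hy, hc⟩ := small_solution (ι := (V × V) ⊕ J)
    (κ := V ⊕ (V × V) ⊕ (V × V × V × V) ⊕ (J × V × V))
    (fun i => PN6_row (PN6_L d a i)) (PN6_c d a) (by
      rintro (x | ⟨x, y⟩ | ⟨x, y, z, u⟩ | ⟨j, x, y⟩)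
      · exact Or.inl rfl
      · exact Or.inl rfl
      · exact Or.inl rfl
      · simp only [PN6_c]
        split_ifs
        · exact Or.inl rfl
        · exact Or.inr rfl) 4 (by norm_num) (by
      intro i j
      refine (PN6_abs _ ?_ j).trans ?_
      · rcases i with x | ⟨x, y⟩ | ⟨x, y, z, u⟩ | ⟨j, x, y⟩ <;> simp only [PN6_L] <;>
          (try split_ifs) <;> simp
      · rcases i with x | ⟨x, y⟩ | ⟨x, y, z, u⟩ | ⟨j, x, y⟩ <;> simp only [PN6_L] <;>
          (try split_ifs) <;> simp)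
    (Sum.elim (fun p => μ * d p.1 p.2) (fun j => μ * a j)) (by
      rintro (p | j)
      · exact mul_nonneg hμ0 (h.nonneg _ _)
      · exact mul_nonneg hμ0 (ha j)) (by
      intro i
      rw [PN6_sum]
      rcases i with x | ⟨x, y⟩ | ⟨x, y, z, u⟩ | ⟨j, x, y⟩
      · simp [PN6_L, PN6_c, h.self]
      · simp [PN6_L, PN6_c, h.symm x y]
      · simp only [PN6_L, PN6_c]
        split_ifs with h1
        · simp
          nlinarith
        · have h2 := h.four x y z u
          rw [le_max_iff] at h2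
          rcases h2 with h2 | h2
          · exact absurd h2 h1
          · simp
            nlinarith
      · simp only [PN6_L, PN6_c]
        split_ifs with h1
        · simp
          nlinarith
        · have h2 := hsc j x y (not_le.1 h1)
          simp
          linarith)
  have hcard : Fintype.card ((V × V) ⊕ J) = N := by
    rw [Fintype.card_sum, Fintype.card_prod, hN]
  rw [hcard] at hy
  have hc' : ∀ i, PN6_c d a i ≤ ((PN6_L d a i).map fun p => p.2 * (y p.1 : ℤ)).sum := by
    intro i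
    have h1 := PN6_sum (R := ℤ) (PN6_L d a i) (fun j => (y j : ℤ))
    simp only [Int.cast_id] at h1
    rw [← h1]
    exact hc i
  have hself : ∀ x, y (.inl (x, x)) = 0 := by
    intro x
    have h1 := hc' (.inl x)
    simp [PN6_L, PN6_c] at h1
    exact h1
  have hle : ∀ x z, y (.inl (z, x)) ≤ y (.inl (x, z)) := by
    intro x z
    have h1 := hc' (.inr (.inl (x, z)))
    simp [PN6_L, PN6_c] at h1
    exact h1
  refine ⟨fun x z => y (.inl (x, z)), fun j => y (.inr j), ⟨?_, ?_, ?_⟩, ?_, ?_, ?_⟩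
  · intro x
    show ((y (.inl (x, x)) : ℕ) : ℝ) = 0
    rw [hself, Nat.cast_zero]
  · intro x z
    show ((y (.inl (x, z)) : ℕ) : ℝ) = ((y (.inl (z, x)) : ℕ) : ℝ)
    rw [le_antisymm (hle x z) (hle z x)]
  · intro x z w u
    show ((y (.inl (x, z)) : ℕ) : ℝ) + ((y (.inl (w, u)) : ℕ) : ℝ) ≤
      max (((y (.inl (x, w)) : ℕ) : ℝ) + ((y (.inl (z, u)) : ℕ) : ℝ))
        (((y (.inl (x, u)) : ℕ) : ℝ) + ((y (.inl (z, w)) : ℕ) : ℝ))
    have h1 := hc' (.inr (.inr (.inl (x, z, w, u))))
    simp only [PN6_L, PN6_c] at h1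
    rw [le_max_iff]
    split_ifs at h1 with h2
    · left
      simp at h1
      have h3 : y (.inl (x, z)) + y (.inl (w, u)) ≤ y (.inl (x, w)) + y (.inl (z, u)) := by
        omega
      exact_mod_cast h3
    · right
      simp at h1
      have h3 : y (.inl (x, z)) + y (.inl (w, u)) ≤ y (.inl (x, u)) + y (.inl (z, w)) := by
        omega
      exact_mod_cast h3
  · intro j x z
    show a j ≤ d x z ↔ y (.inr j) ≤ y (.inl (x, z))
    have h1 := hc' (.inr (.inr (.inr (j, x, z))))
    simp only [PN6_L, PN6_c] at h1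
    by_cases h2 : a j ≤ d x z
    · rw [if_pos h2, if_pos h2] at h1
      simp at h1
      exact iff_of_true h2 (by omega)
    · rw [if_neg h2, if_neg h2] at h1
      simp at h1
      exact iff_of_false h2 (by omega)
  · intro x z
    exact PN6_bound N _ (hy _)
  · intro j
    exact PN6_bound N _ (hy _)

end Pool.Agent.LibPcg
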