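import Pool.Agent.LibPcg.PNDefs

set_option autoImplicit false

/-!
Row PN7. The comparison is correct.
Sketch. For `m ≤ L` let `D m : ℤ` be (sum of the first two prefix numbers) - (sum of the last two),
where the prefix numbers are the folds over `List.range m`; `List.range_succ`, `List.foldl_append`:
`D (m + 1) = 2 * D m + x m` with `x m = b1 + b2 - b3 - b4 ∈ [-2, 2]`. Claim: the state after `m` steps is
`(max (-2) (min 2 (D m)) + 2).toNat`. Induction: `min 4 (2 s + p - (2 + q))` (truncated subtraction)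
with `s = c + 2` is `cut (2 c + p - q) + 2`, and `cut (2 * cut D + x) = cut (2 * D + x)` for
`|x| ≤ 2` (cases `D ≤ -2`, `-2 < D < 2`, `2 ≤ D`; `omega` after `Bool.toNat_le`). Finally state `≤ 2` iff
`D L ≤ 0`.
-/

namespace Pool.Agent.LibPcg

open SimpleGraph

theorem PN7_step (s b1 b2 b3 b4 v1 v2 v3 v4 : ℕ) (h1 : b1 ≤ 1) (h2 : b2 ≤ 1) (h3 : b3 ≤ 1)
    (h4 : b4 ≤ 1) (hs : (s : ℤ) = max (-2) (min 2 (((v1 : ℤ) + v2) - (v3 + v4))) + 2) :
    ((min 4 ((2 * s + (b1 + b2)) - (2 + (b3 + b4))) : ℕ) : ℤ) =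
      max (-2) (min 2 ((((2 * v1 + b1 : ℕ) : ℤ) + ((2 * v2 + b2 : ℕ) : ℤ)) -
        (((2 * v3 + b3 : ℕ) : ℤ) + ((2 * v4 + b4 : ℕ) : ℤ)))) + 2 := by
  push_cast
  omega

theorem PN7_inv (y : List Bool) (o1 o2 o3 o4 m : ℕ) :
    (((List.range m).foldl (fun s j => min 4 ((2 * s + ((y.getD (o1 + j) false).toNat +
    (y.getD (o2 + j) false).toNat)) - (2 + ((y.getD (o3 + j) false).toNat +
    (y.getD (o4 + j) false).toNat)))) 2 : ℕ) : ℤ) =
      max (-2) (min 2 (((numAt y m o1 : ℤ) + numAt y m o2) - (numAt y m o3 + numAt y m o4))) + 2 := by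
  induction m with
  | zero => simp [numAt]
  | succ m ih =>
    unfold numAt at ih ⊢
    simp only [List.range_succ, List.foldl_append, List.foldl_cons, List.foldl_nil] at ih ⊢
    exact PN7_step _ _ _ _ _ _ _ _ _ (Bool.toNat_le _) (Bool.toNat_le _) (Bool.toNat_le _)
      (Bool.toNat_le _) ih

theorem leq2_iff (y : List Bool) (L o1 o2 o3 o4 : ℕ) :
    leq2 y L o1 o2 o3 o4 = true ↔ numAt y L o1 + numAt y L o2 ≤ numAt y L o3 + numAt y L o4 := by
  unfold leq2
  rw [decide_eq_true_iff]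
  have h := PN7_inv y o1 o2 o3 o4 L
  omega

end Pool.Agent.LibPcg
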