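import Pool.Agent.LibPcg.PNDefs

set_option autoImplicit false

/-!
Row PN8. Every family of numbers is written in some list of bits.
-/

namespace Pool.Agent.LibPcg

open SimpleGraph

theorem exists_bits (m L M : ℕ) (hM : m * L ≤ M) (a : ℕ → ℕ) (ha : ∀ i < m, a i < 2 ^ L) :
    ∃ y : List Bool, y.length = M ∧ ∀ i < m, numAt y L (i * L) = a i := by
  let g : ℕ → Bool := fun p => decide (p / L < m) && (a (p / L)).testBit (L - 1 - p % L)
  refine ⟨(List.range M).map g, by simp, fun i hi => ?_⟩
  have hget : ∀ p, p < M → ((List.range M).map g).getD p false = g p := by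
    intro p hp
    rw [List.getD_eq_getElem _ _ (by simpa using hp)]
    simp
  have hbit : ∀ j, j < L → ((List.range M).map g).getD (i * L + j) false =
      (a i).testBit (L - 1 - j) := by
    intro j hj
    have h1 : i * L + j < M := by
      have h2 : i * L + L ≤ m * L := by
        have h3 := Nat.mul_le_mul_right L (Nat.succ_le_of_lt hi)
        rwa [Nat.succ_mul] at h3
      omega
    rw [hget _ h1]
    have hL : 0 < L := by omega
    have h4 : (i * L + j) / L = i := by
      rw [mul_comm i L, Nat.mul_add_div hL, Nat.div_eq_of_lt hj, add_zero]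
    have h5 : (i * L + j) % L = j := by
      rw [mul_comm i L, Nat.mul_add_mod, Nat.mod_eq_of_lt hj]
    show (decide ((i * L + j) / L < m) && (a ((i * L + j) / L)).testBit
      (L - 1 - (i * L + j) % L)) = _
    rw [h4, h5, decide_eq_true hi, Bool.true_and]
  have key : ∀ L', L' ≤ L → (List.range L').foldl (fun v j => 2 * v +
      (((List.range M).map g).getD (i * L + j) false).toNat) 0 = a i / 2 ^ (L - L') := by
    intro L'
    induction L' with
    | zero =>
      intro _
      rw [Nat.sub_zero, Nat.div_eq_of_lt (ha i hi)]
      rfl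
    | succ n ih =>
      intro hn
      rw [List.range_succ, List.foldl_append, ih (by omega)]
      show 2 * (a i / 2 ^ (L - n)) + (((List.range M).map g).getD (i * L + n) false).toNat = _
      rw [hbit n (by omega), Nat.toNat_testBit]
      obtain ⟨k, hk⟩ : ∃ k, L - n = k + 1 := ⟨L - n - 1, by omega⟩
      have hk1 : L - 1 - n = k := by omega
      have hk2 : L - (n + 1) = k := by omega
      rw [hk, hk1, hk2, pow_succ, ← Nat.div_div_eq_div_mul]
      exact Nat.div_add_mod _ _
  have h := key L (le_refl L)
  rw [Nat.sub_self, pow_zero, Nat.div_one] at h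
  exact h

theorem numAt_end (y : List Bool) (L : ℕ) : numAt y L y.length = 0 := by
  unfold numAt
  induction L with
  | zero => rfl
  | succ n ih =>
    rw [List.range_succ, List.foldl_append, ih]
    show 2 * 0 + (y.getD (y.length + n) false).toNat = 0
    rw [List.getD_eq_default _ _ (by omega)]
    rfl

end Pool.Agent.LibPcg
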