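import Pool.Agent.LibPcg.PNDefs
import Pool.Agent.LibPcg.PB10
import Pool.Agent.LibPcg.PN6

set_option autoImplicit false

/-!
Row PN9. AND-PCGs in terms of small natural numbers.
Sketch. (→) `andPCG_iff` (PB10) gives `d i`, `a i`, `b i`; apply `nat_rep` (PN6) for every `i` with
`V := Fin n`, `J := Bool` (thresholds `a i`, `b i`), `N = n * n + 2`; note
`bnd n = N * N + 2 * N + 1`. (←) `andPCG_iff` with the casts of the natural numbers.
-/

namespace Pool.Agent.LibPcg

open SimpleGraph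

theorem andPCG_iff_nat {n : ℕ} (hn : 1 ≤ n) (k : ℕ) (G : SimpleGraph (Fin n)) :
    IsAndPCG k G ↔ ∃ (d : Fin k → Fin n → Fin n → ℕ) (a b : Fin k → ℕ),
      (∀ i, FourPt (fun x y => (d i x y : ℝ))) ∧
      (∀ i x y, d i x y < 2 ^ bnd n) ∧ (∀ i, a i < 2 ^ bnd n ∧ b i < 2 ^ bnd n) ∧
      ∀ u v, G.Adj u v ↔ u ≠ v ∧ ∀ i, a i ≤ d i u v ∧ d i u v < b i := by
  have hne : Nonempty (Fin n) := ⟨⟨0, hn⟩⟩
  rw [andPCG_iff]
  constructor
  · rintro ⟨d, a, b, h4, hab, hadj⟩
    have hrep : ∀ i, ∃ (d' : Fin n → Fin n → ℕ) (a' : Bool → ℕ), FourPt (fun x y => (d' x y : ℝ)) ∧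
        (∀ j x y, (fun j : Bool => cond j (a i) (b i)) j ≤ d i x y ↔ a' j ≤ d' x y) ∧
        (∀ x y, d' x y < 2 ^ bnd n) ∧ ∀ j, a' j < 2 ^ bnd n := by
      intro i
      have h := nat_rep (V := Fin n) (J := Bool) (d i) (h4 i) (fun j => cond j (a i) (b i))
        (by
          intro j
          cases j
          · exact (hab i).2
          · exact (hab i).1) (n * n + 2) (by simp)
      exact h
    choose d' a' h1 h2 h3 h5 using hrep
    refine ⟨d', fun i => a' i true, fun i => a' i false, h1, h3, fun i => ⟨h5 i true, h5 i false⟩, ?_⟩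
    intro u v
    rw [hadj]
    refine and_congr_right fun _ => forall_congr' fun i => ?_
    have e1 := h2 i true u v
    have e2 := h2 i false u v
    simp only [cond_true] at e1
    simp only [cond_false] at e2
    rw [e1, ← not_le, e2, not_le]
  · rintro ⟨d, a, b, h4, -, -, hadj⟩
    refine ⟨fun i x y => (d i x y : ℝ), fun i => (a i : ℝ), fun i => (b i : ℝ), h4,
      fun i => ⟨Nat.cast_nonneg _, Nat.cast_nonneg _⟩, ?_⟩
    intro u v
    rw [hadj]
    simp only [Nat.cast_le, Nat.cast_lt]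

end Pool.Agent.LibPcg
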