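import Pool.Agent.LibPcg.PDefs
import Pool.Agent.LibComplexity.Decode

set_option autoImplicit false

/-!
The language of the pairs (graph, `k`) such that the graph is a `k`-AND-PCG.
-/

namespace Pool.Agent.LibPcg

open SimpleGraph Pool.Agent.LibComplexity

/-! ### Languages -/

open Classical in
/-- The adjacency matrix of a graph on `{0, ..., n-1}`, row by row. -/
noncomputable def matrixBits {n : ℕ} (G : SimpleGraph (Fin n)) : List Bool :=
  (List.finRange n).flatMap fun i => (List.finRange n).map fun j => decide (G.Adj i j)

/-- The word that encodes a graph and a number: the number of vertices and the number `k` in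
unary, and the adjacency matrix. -/
noncomputable def encode {n : ℕ} (G : SimpleGraph (Fin n)) (k : ℕ) : List Bool :=
  word (n, k, matrixBits G)

/-- the recognition problem of `k`-AND-PCGs, `k` being part of the input -/
def AndPCG : Set (List Bool) :=
  {x | ∃ (n k : ℕ) (G : SimpleGraph (Fin n)), 1 ≤ k ∧ x = encode G k ∧ IsAndPCG k G}


end Pool.Agent.LibPcg
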