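import Pool.Agent.LibPcg.PNDefs
import Pool.Agent.LibPcg.MDefs

set_option autoImplicit false

/-!
Row PN13. The comparison is computed in polynomial time.
-/

namespace Pool.Agent.LibPcg

open SimpleGraph Pool.Agent.LibComplexity

theorem pt_toNat {α : Type} [Enc α] {𝒜 : Set Orc} {f : Orc → α → Bool} (hf : PTf 𝒜 f) :
    PTf 𝒜 (fun A x => (f A x).toNat) :=
  PTf.ofFinite Bool.toNat hf

theorem pt_leq2 {α : Type} [Enc α] {𝒜 : Set Orc} {y : Orc → α → List Bool}
    {L o1 o2 o3 o4 : Orc → α → ℕ} (hy : PTf 𝒜 y) (hL : PTf 𝒜 L) (h1 : PTf 𝒜 o1) (h2 : PTf 𝒜 o2)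
    (h3 : PTf 𝒜 o3) (h4 : PTf 𝒜 o4) :
    PTf 𝒜 (fun A x => leq2 (y A x) (L A x) (o1 A x) (o2 A x) (o3 A x) (o4 A x)) := by
  unfold leq2
  refine PTf.decide_le ?_ (PTf.const 2)
  have hb : ∀ {o : Orc → α → ℕ}, PTf 𝒜 o →
      PTf 𝒜 (fun A (z : α × ℕ × ℕ) => ((y A z.1).getD (o A z.1 + z.2.2) false).toNat) := by
    intro o ho
    exact pt_toNat ((hy.comp PTf.id.fst).listGetD ((ho.comp PTf.id.fst).add PTf.id.snd.snd)
      (PTf.const false))
  have hg : PTf 𝒜 (fun A (z : α × ℕ × ℕ) => min 4 ((2 * z.2.1 +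
      (((y A z.1).getD (o1 A z.1 + z.2.2) false).toNat +
      ((y A z.1).getD (o2 A z.1 + z.2.2) false).toNat)) -
      (2 + (((y A z.1).getD (o3 A z.1 + z.2.2) false).toNat +
      ((y A z.1).getD (o4 A z.1 + z.2.2) false).toNat)))) :=
    (PTf.const 4).min ((((PTf.const 2).mul PTf.id.snd.fst).add ((hb h1).add (hb h2))).sub
      ((PTf.const 2).add ((hb h3).add (hb h4))))
  refine PTf.foldl (l := fun A x => List.range (L A x)) (h := fun _ _ => 2)
    (g := fun A x (s j : ℕ) => min 4 ((2 * s + (((y A x).getD (o1 A x + j) false).toNat +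
      ((y A x).getD (o2 A x + j) false).toNat)) - (2 + (((y A x).getD (o3 A x + j) false).toNat +
      ((y A x).getD (o4 A x + j) false).toNat)))) hL.range (PTf.const 2) hg
      (b := fun _ _ => 9) (PB.const 9) ?_
  intro A _ x k
  rw [sz_nat]
  have key : ∀ (l : List ℕ) (s : ℕ), s ≤ 4 → l.foldl (fun s j => min 4 ((2 * s +
      (((y A x).getD (o1 A x + j) false).toNat +
      ((y A x).getD (o2 A x + j) false).toNat)) - (2 + (((y A x).getD (o3 A x + j) false).toNat +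
      ((y A x).getD (o4 A x + j) false).toNat)))) s ≤ 4 := by
    intro l
    induction l with
    | nil => intro s hs; exact hs
    | cons a l ih => intro s _; exact ih _ (min_le_left _ _)
  have := key ((List.range (L A x)).take k) 2 (by norm_num)
  omega

theorem pt_bnd {α : Type} [Enc α] {𝒜 : Set Orc} {n : Orc → α → ℕ} (hn : PTf 𝒜 n) :
    PTf 𝒜 (fun A x => bnd (n A x)) := by
  unfold bnd
  have h : PTf 𝒜 (fun A x => n A x * n A x + 2) := (hn.mul hn).add (PTf.const 2)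
  exact ((h.mul h).add ((PTf.const 2).mul h)).add (PTf.const 1)

theorem pt_off {α : Type} [Enc α] {𝒜 : Set Orc} {n i m : Orc → α → ℕ} (hn : PTf 𝒜 n)
    (hi : PTf 𝒜 i) (hm : PTf 𝒜 m) : PTf 𝒜 (fun A x => off (n A x) (i A x) (m A x)) := by
  unfold off
  exact ((hi.mul ((hn.mul hn).add (PTf.const 2))).add hm).mul (pt_bnd hn)

end Pool.Agent.LibPcg
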