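import Pool.Agent.LibPcg.PNDefs
import Pool.Agent.LibPcg.MDefs
import Pool.Agent.LibPcg.PN13

set_option autoImplicit false

/-!
Row PN14. The verifier is computed in polynomial time.
-/

namespace Pool.Agent.LibPcg

open SimpleGraph Pool.Agent.LibComplexity

theorem pt_okFour {α : Type} [Enc α] {𝒜 : Set Orc} {y : Orc → α → List Bool}
    {n i : Orc → α → ℕ} (hy : PTf 𝒜 y) (hn : PTf 𝒜 n) (hi : PTf 𝒜 i) :
    PTf 𝒜 (fun A x => okFour (y A x) (n A x) (i A x)) := by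
  unfold okFour
  refine hn.range.all (p := fun A x (u1 : ℕ) => (List.range (n A x)).all fun u2 =>
    (List.range (n A x)).all fun u3 => (List.range (n A x)).all fun u4 =>
      leq2 (y A x) (bnd (n A x)) (off (n A x) (i A x) (u1 * n A x + u2))
        (off (n A x) (i A x) (u3 * n A x + u4)) (off (n A x) (i A x) (u1 * n A x + u3))
        (off (n A x) (i A x) (u2 * n A x + u4)) ||
      leq2 (y A x) (bnd (n A x)) (off (n A x) (i A x) (u1 * n A x + u2))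
        (off (n A x) (i A x) (u3 * n A x + u4)) (off (n A x) (i A x) (u1 * n A x + u4))
        (off (n A x) (i A x) (u2 * n A x + u3))) ?_
  have hn1 : PTf 𝒜 (fun A (p : α × ℕ) => n A p.1) := hn.comp PTf.id.fst
  refine hn1.range.all (p := fun A (x : α × ℕ) (u2 : ℕ) =>
    (List.range (n A x.1)).all fun u3 => (List.range (n A x.1)).all fun u4 =>
      leq2 (y A x.1) (bnd (n A x.1)) (off (n A x.1) (i A x.1) (x.2 * n A x.1 + u2))
        (off (n A x.1) (i A x.1) (u3 * n A x.1 + u4)) (off (n A x.1) (i A x.1) (x.2 * n A x.1 + u3))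
        (off (n A x.1) (i A x.1) (u2 * n A x.1 + u4)) ||
      leq2 (y A x.1) (bnd (n A x.1)) (off (n A x.1) (i A x.1) (x.2 * n A x.1 + u2))
        (off (n A x.1) (i A x.1) (u3 * n A x.1 + u4)) (off (n A x.1) (i A x.1) (x.2 * n A x.1 + u4))
        (off (n A x.1) (i A x.1) (u2 * n A x.1 + u3))) ?_
  have hn2 : PTf 𝒜 (fun A (p : (α × ℕ) × ℕ) => n A p.1.1) := hn1.comp PTf.id.fst
  refine hn2.range.all (p := fun A (x : (α × ℕ) × ℕ) (u3 : ℕ) =>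
    (List.range (n A x.1.1)).all fun u4 =>
      leq2 (y A x.1.1) (bnd (n A x.1.1)) (off (n A x.1.1) (i A x.1.1) (x.1.2 * n A x.1.1 + x.2))
        (off (n A x.1.1) (i A x.1.1) (u3 * n A x.1.1 + u4))
        (off (n A x.1.1) (i A x.1.1) (x.1.2 * n A x.1.1 + u3))
        (off (n A x.1.1) (i A x.1.1) (x.2 * n A x.1.1 + u4)) ||
      leq2 (y A x.1.1) (bnd (n A x.1.1)) (off (n A x.1.1) (i A x.1.1) (x.1.2 * n A x.1.1 + x.2))
        (off (n A x.1.1) (i A x.1.1) (u3 * n A x.1.1 + u4))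
        (off (n A x.1.1) (i A x.1.1) (x.1.2 * n A x.1.1 + u4))
        (off (n A x.1.1) (i A x.1.1) (x.2 * n A x.1.1 + u3))) ?_
  have hn3 : PTf 𝒜 (fun A (p : ((α × ℕ) × ℕ) × ℕ) => n A p.1.1.1) := hn2.comp PTf.id.fst
  refine hn3.range.all (p := fun A (x : ((α × ℕ) × ℕ) × ℕ) (u4 : ℕ) =>
      leq2 (y A x.1.1.1) (bnd (n A x.1.1.1))
        (off (n A x.1.1.1) (i A x.1.1.1) (x.1.1.2 * n A x.1.1.1 + x.1.2))
        (off (n A x.1.1.1) (i A x.1.1.1) (x.2 * n A x.1.1.1 + u4))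
        (off (n A x.1.1.1) (i A x.1.1.1) (x.1.1.2 * n A x.1.1.1 + x.2))
        (off (n A x.1.1.1) (i A x.1.1.1) (x.1.2 * n A x.1.1.1 + u4)) ||
      leq2 (y A x.1.1.1) (bnd (n A x.1.1.1))
        (off (n A x.1.1.1) (i A x.1.1.1) (x.1.1.2 * n A x.1.1.1 + x.1.2))
        (off (n A x.1.1.1) (i A x.1.1.1) (x.2 * n A x.1.1.1 + u4))
        (off (n A x.1.1.1) (i A x.1.1.1) (x.1.1.2 * n A x.1.1.1 + u4))
        (off (n A x.1.1.1) (i A x.1.1.1) (x.1.2 * n A x.1.1.1 + x.2))) ?_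
  have hn4 : PTf 𝒜 (fun A (p : (((α × ℕ) × ℕ) × ℕ) × ℕ) => n A p.1.1.1.1) := hn3.comp PTf.id.fst
  have hi4 : PTf 𝒜 (fun A (p : (((α × ℕ) × ℕ) × ℕ) × ℕ) => i A p.1.1.1.1) :=
    hi.comp PTf.id.fst.fst.fst.fst
  have hy4 : PTf 𝒜 (fun A (p : (((α × ℕ) × ℕ) × ℕ) × ℕ) => y A p.1.1.1.1) :=
    hy.comp PTf.id.fst.fst.fst.fst
  have hu1 : PTf 𝒜 (fun A (p : (((α × ℕ) × ℕ) × ℕ) × ℕ) => p.1.1.1.2) := PTf.id.fst.fst.fst.snd
  have hu2 : PTf 𝒜 (fun A (p : (((α × ℕ) × ℕ) × ℕ) × ℕ) => p.1.1.2) := PTf.id.fst.fst.snd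
  have hu3 : PTf 𝒜 (fun A (p : (((α × ℕ) × ℕ) × ℕ) × ℕ) => p.1.2) := PTf.id.fst.snd
  have hu4 : PTf 𝒜 (fun A (p : (((α × ℕ) × ℕ) × ℕ) × ℕ) => p.2) := PTf.id.snd
  have ho : ∀ {a b : Orc → (((α × ℕ) × ℕ) × ℕ) × ℕ → ℕ}, PTf 𝒜 a → PTf 𝒜 b →
      PTf 𝒜 (fun A p => off (n A p.1.1.1.1) (i A p.1.1.1.1) (a A p * n A p.1.1.1.1 + b A p)) :=
    fun ha hb => pt_off hn4 hi4 ((ha.mul hn4).add hb)
  exact PTf.bor (pt_leq2 hy4 (pt_bnd hn4) (ho hu1 hu2) (ho hu3 hu4) (ho hu1 hu3) (ho hu2 hu4))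
    (pt_leq2 hy4 (pt_bnd hn4) (ho hu1 hu2) (ho hu3 hu4) (ho hu1 hu4) (ho hu2 hu3))

theorem pt_okSelf {α : Type} [Enc α] {𝒜 : Set Orc} {y : Orc → α → List Bool}
    {n i : Orc → α → ℕ} (hy : PTf 𝒜 y) (hn : PTf 𝒜 n) (hi : PTf 𝒜 i) :
    PTf 𝒜 (fun A x => okSelf (y A x) (n A x) (i A x)) := by
  unfold okSelf
  refine hn.range.all (p := fun A x (u : ℕ) =>
    leq2 (y A x) (bnd (n A x)) (off (n A x) (i A x) (u * n A x + u))
      (off (n A x) (i A x) (u * n A x + u)) (y A x).length (y A x).length) ?_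
  have hn1 : PTf 𝒜 (fun A (p : α × ℕ) => n A p.1) := hn.comp PTf.id.fst
  have hi1 : PTf 𝒜 (fun A (p : α × ℕ) => i A p.1) := hi.comp PTf.id.fst
  have hy1 : PTf 𝒜 (fun A (p : α × ℕ) => y A p.1) := hy.comp PTf.id.fst
  have ho := pt_off hn1 hi1 ((PTf.id.snd.mul hn1).add PTf.id.snd)
  exact pt_leq2 hy1 (pt_bnd hn1) ho ho hy1.length hy1.length

theorem pt_okSymm {α : Type} [Enc α] {𝒜 : Set Orc} {y : Orc → α → List Bool}
    {n i : Orc → α → ℕ} (hy : PTf 𝒜 y) (hn : PTf 𝒜 n) (hi : PTf 𝒜 i) :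
    PTf 𝒜 (fun A x => okSymm (y A x) (n A x) (i A x)) := by
  unfold okSymm
  refine hn.range.all (p := fun A x (u : ℕ) => (List.range (n A x)).all fun v =>
    leq2 (y A x) (bnd (n A x)) (off (n A x) (i A x) (u * n A x + v))
      (off (n A x) (i A x) (u * n A x + v)) (off (n A x) (i A x) (v * n A x + u))
      (off (n A x) (i A x) (v * n A x + u))) ?_
  have hn1 : PTf 𝒜 (fun A (p : α × ℕ) => n A p.1) := hn.comp PTf.id.fst
  refine hn1.range.all (p := fun A (x : α × ℕ) (v : ℕ) =>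
    leq2 (y A x.1) (bnd (n A x.1)) (off (n A x.1) (i A x.1) (x.2 * n A x.1 + v))
      (off (n A x.1) (i A x.1) (x.2 * n A x.1 + v)) (off (n A x.1) (i A x.1) (v * n A x.1 + x.2))
      (off (n A x.1) (i A x.1) (v * n A x.1 + x.2))) ?_
  have hn2 : PTf 𝒜 (fun A (p : (α × ℕ) × ℕ) => n A p.1.1) := hn1.comp PTf.id.fst
  have hi2 : PTf 𝒜 (fun A (p : (α × ℕ) × ℕ) => i A p.1.1) := hi.comp PTf.id.fst.fst
  have hy2 : PTf 𝒜 (fun A (p : (α × ℕ) × ℕ) => y A p.1.1) := hy.comp PTf.id.fst.fst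
  have hu : PTf 𝒜 (fun A (p : (α × ℕ) × ℕ) => p.1.2) := PTf.id.fst.snd
  have hv : PTf 𝒜 (fun A (p : (α × ℕ) × ℕ) => p.2) := PTf.id.snd
  have h1 := pt_off hn2 hi2 ((hu.mul hn2).add hv)
  have h2 := pt_off hn2 hi2 ((hv.mul hn2).add hu)
  exact pt_leq2 hy2 (pt_bnd hn2) h1 h1 h2 h2

theorem pt_inInt {α : Type} [Enc α] {𝒜 : Set Orc} {y : Orc → α → List Bool}
    {n i u v : Orc → α → ℕ} (hy : PTf 𝒜 y) (hn : PTf 𝒜 n) (hi : PTf 𝒜 i) (hu : PTf 𝒜 u)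
    (hv : PTf 𝒜 v) :
    PTf 𝒜 (fun A x => inInt (y A x) (n A x) (i A x) (u A x) (v A x)) := by
  unfold inInt
  have h1 := pt_off hn hi ((hu.mul hn).add hv)
  have h2 := pt_off hn hi (hn.mul hn)
  have h3 := pt_off hn hi ((hn.mul hn).add (PTf.const 1))
  exact (pt_leq2 hy (pt_bnd hn) h2 h2 h1 h1).band (pt_leq2 hy (pt_bnd hn) h3 h3 h1 h1).bnot

theorem pt_okAdj {α : Type} [Enc α] {𝒜 : Set Orc} {y b : Orc → α → List Bool}
    {n k : Orc → α → ℕ} (hy : PTf 𝒜 y) (hb : PTf 𝒜 b) (hn : PTf 𝒜 n) (hk : PTf 𝒜 k) :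
    PTf 𝒜 (fun A x => okAdj (y A x) (b A x) (n A x) (k A x)) := by
  unfold okAdj
  refine hn.range.all (p := fun A x (u : ℕ) => (List.range (n A x)).all fun v =>
    decide ((b A x).getD (u * n A x + v) false = (!decide (u = v) &&
      (List.range (k A x)).all fun i => inInt (y A x) (n A x) i u v))) ?_
  have hn1 : PTf 𝒜 (fun A (p : α × ℕ) => n A p.1) := hn.comp PTf.id.fst
  refine hn1.range.all (p := fun A (x : α × ℕ) (v : ℕ) =>
    decide ((b A x.1).getD (x.2 * n A x.1 + v) false = (!decide (x.2 = v) &&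
      (List.range (k A x.1)).all fun i => inInt (y A x.1) (n A x.1) i x.2 v))) ?_
  have hn2 : PTf 𝒜 (fun A (p : (α × ℕ) × ℕ) => n A p.1.1) := hn1.comp PTf.id.fst
  have hb2 : PTf 𝒜 (fun A (p : (α × ℕ) × ℕ) => b A p.1.1) := hb.comp PTf.id.fst.fst
  have hk2 : PTf 𝒜 (fun A (p : (α × ℕ) × ℕ) => k A p.1.1) := hk.comp PTf.id.fst.fst
  have hu : PTf 𝒜 (fun A (p : (α × ℕ) × ℕ) => p.1.2) := PTf.id.fst.snd
  have hv : PTf 𝒜 (fun A (p : (α × ℕ) × ℕ) => p.2) := PTf.id.snd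
  refine PTf.decide_eq (hb2.listGetD ((hu.mul hn2).add hv) (PTf.const false))
    ((PTf.decide_eq hu hv).bnot.band ?_)
  refine hk2.range.all (p := fun A (x : (α × ℕ) × ℕ) (i : ℕ) =>
    inInt (y A x.1.1) (n A x.1.1) i x.1.2 x.2) ?_
  exact pt_inInt (hy.comp PTf.id.fst.fst.fst) (hn2.comp PTf.id.fst) PTf.id.snd PTf.id.fst.fst.snd
    PTf.id.fst.snd

theorem pt_okAll {α : Type} [Enc α] {𝒜 : Set Orc} {y b : Orc → α → List Bool}
    {n k : Orc → α → ℕ} (hy : PTf 𝒜 y) (hb : PTf 𝒜 b) (hn : PTf 𝒜 n) (hk : PTf 𝒜 k) :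
    PTf 𝒜 (fun A x => okAll (y A x) (b A x) (n A x) (k A x)) := by
  unfold okAll
  refine (PTf.decide_le (PTf.const 1) hn).band ((PTf.decide_le (PTf.const 1) hk).band
    ((PTf.decide_eq hb.length (hn.mul hn)).band (PTf.band ?_ (pt_okAdj hy hb hn hk))))
  refine hk.range.all (p := fun A x (i : ℕ) => okFour (y A x) (n A x) i &&
    (okSelf (y A x) (n A x) i && okSymm (y A x) (n A x) i)) ?_
  have hn1 : PTf 𝒜 (fun A (p : α × ℕ) => n A p.1) := hn.comp PTf.id.fst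
  have hy1 : PTf 𝒜 (fun A (p : α × ℕ) => y A p.1) := hy.comp PTf.id.fst
  have hi1 : PTf 𝒜 (fun A (p : α × ℕ) => p.2) := PTf.id.snd
  exact (pt_okFour hy1 hn1 hi1).band ((pt_okSelf hy1 hn1 hi1).band (pt_okSymm hy1 hn1 hi1))

end Pool.Agent.LibPcg
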