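import Pool.Agent.LibPcg.PDefs

set_option autoImplicit false

/-!
Numbers written in a list of bits, comparison of sums of two such numbers.
-/

namespace Pool.Agent.LibPcg

open SimpleGraph

/-- the number written in the bits `o, o + 1, ..., o + L - 1` of `y`, most significant bit first -/
def numAt (y : List Bool) (L o : ℕ) : ℕ :=
  (List.range L).foldl (fun v j => 2 * v + (y.getD (o + j) false).toNat) 0

/-- Reads the four numbers at `o1, ..., o4` in parallel; the state `s` says that the difference
(sum of the first two minus sum of the last two, so far) is `s - 2`, cut off to `[-2, 2]`. -/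
def leq2 (y : List Bool) (L o1 o2 o3 o4 : ℕ) : Bool :=
  decide ((List.range L).foldl (fun s j => min 4 ((2 * s + ((y.getD (o1 + j) false).toNat +
    (y.getD (o2 + j) false).toNat)) - (2 + ((y.getD (o3 + j) false).toNat +
    (y.getD (o4 + j) false).toNat)))) 2 ≤ 2)

/-- number of bits of each number -/
def bnd (n : ℕ) : ℕ := (n * n + 2) * (n * n + 2) + 2 * (n * n + 2) + 1

/-- the place of the number `m` of the tree `i` -/
def off (n i m : ℕ) : ℕ := (i * (n * n + 2) + m) * bnd n

/-- checks the four point condition for the tree `i` -/
def okFour (y : List Bool) (n i : ℕ) : Bool :=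
  (List.range n).all fun x => (List.range n).all fun x' => (List.range n).all fun z =>
    (List.range n).all fun u =>
      leq2 y (bnd n) (off n i (x * n + x')) (off n i (z * n + u)) (off n i (x * n + z))
        (off n i (x' * n + u)) ||
      leq2 y (bnd n) (off n i (x * n + x')) (off n i (z * n + u)) (off n i (x * n + u))
        (off n i (x' * n + z))

/-- checks that the diagonal is zero -/
def okSelf (y : List Bool) (n i : ℕ) : Bool :=
  (List.range n).all fun x =>
    leq2 y (bnd n) (off n i (x * n + x)) (off n i (x * n + x)) y.length y.length

/-- checks the symmetry -/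
def okSymm (y : List Bool) (n i : ℕ) : Bool :=
  (List.range n).all fun x => (List.range n).all fun x' =>
    leq2 y (bnd n) (off n i (x * n + x')) (off n i (x * n + x')) (off n i (x' * n + x))
      (off n i (x' * n + x))

/-- the distance of `u` and `v` in the tree `i` is between the two thresholds -/
def inInt (y : List Bool) (n i u v : ℕ) : Bool :=
  leq2 y (bnd n) (off n i (n * n)) (off n i (n * n)) (off n i (u * n + v)) (off n i (u * n + v)) &&
  !leq2 y (bnd n) (off n i (n * n + 1)) (off n i (n * n + 1)) (off n i (u * n + v))
    (off n i (u * n + v))

/-- the adjacency matrix `b` is the one which is defined by the trees -/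
def okAdj (y b : List Bool) (n k : ℕ) : Bool :=
  (List.range n).all fun u => (List.range n).all fun v =>
    decide (b.getD (u * n + v) false = (!decide (u = v) && (List.range k).all fun i =>
      inInt y n i u v))

/-- all checks -/
def okAll (y b : List Bool) (n k : ℕ) : Bool :=
  decide (1 ≤ n) && (decide (1 ≤ k) && (decide (b.length = n * n) &&
    (((List.range k).all fun i => okFour y n i && (okSelf y n i && okSymm y n i)) &&
      okAdj y b n k)))

end Pool.Agent.LibPcg
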