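import Pool.Agent.LibPcg.PNDefs
import Pool.Agent.LibPcg.MDefs

set_option autoImplicit false

/-!
Row PN12. The adjacency matrix as a word.
-/

namespace Pool.Agent.LibPcg

open SimpleGraph Pool.Agent.LibComplexity

theorem pn12_length {α β : Type} (l : List α) (f : α → List β) (k : ℕ)
    (hf : ∀ x ∈ l, (f x).length = k) : (l.flatMap f).length = l.length * k := by
  induction l with
  | nil => simp
  | cons x l ih =>
    rw [List.flatMap_cons, List.length_append, ih (fun y hy => hf y (List.mem_cons_of_mem _ hy)),
      hf x List.mem_cons_self, List.length_cons]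
    ring

theorem pn12_getD {α β : Type} (d : β) (f : α → List β) (k : ℕ) :
    ∀ (l : List α) (_ : ∀ x ∈ l, (f x).length = k) (i j : ℕ) (hi : i < l.length) (_ : j < k),
      (l.flatMap f).getD (i * k + j) d = (f l[i]).getD j d := by
  intro l
  induction l with
  | nil => intro _ i j hi; simp at hi
  | cons x l ih =>
    intro hf i j hi hj
    rw [List.flatMap_cons]
    have hx := hf x List.mem_cons_self
    cases i with
    | zero =>
      rw [List.getD_append _ _ _ _ (by omega)]
      simp
    | succ i =>
      rw [List.getD_append_right _ _ _ _ (by rw [hx]; nlinarith)]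
      have e : (i + 1) * k + j - (f x).length = i * k + j := by
        rw [hx]
        have : (i + 1) * k = i * k + k := by ring
        omega
      rw [e, ih (fun y hy => hf y (List.mem_cons_of_mem _ hy)) i j (by simpa using hi) hj]
      simp

theorem length_matrixBits' {n : ℕ} (G : SimpleGraph (Fin n)) :
    (matrixBits G).length = n * n := by
  unfold matrixBits
  rw [pn12_length _ _ n (by simp)]
  simp

theorem matrixBits_getD' {n : ℕ} (G : SimpleGraph (Fin n)) (i j : Fin n) :
    (matrixBits G).getD (i * n + j) false = true ↔ G.Adj i j := by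
  unfold matrixBits
  rw [pn12_getD false _ n _ (by simp) i j (by simp) j.2]
  simp

theorem eq_matrixBits {n : ℕ} (G : SimpleGraph (Fin n)) (b : List Bool) (hb : b.length = n * n)
    (h : ∀ u v : Fin n, G.Adj u v ↔ b.getD (u * n + v) false = true) : b = matrixBits G := by
  have hl := length_matrixBits' G
  apply List.ext_getElem (by rw [hb, hl])
  intro m h1 h2
  have hm : m < n * n := by omega
  have hn : 0 < n := Nat.pos_of_ne_zero (by rintro rfl; simp at hm)
  have hu : m / n < n := Nat.div_lt_of_lt_mul hm
  have hv : m % n < n := Nat.mod_lt _ hn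
  have e : m / n * n + m % n = m := by
    rw [Nat.mul_comm]; exact Nat.div_add_mod m n
  have h3 := h ⟨m / n, hu⟩ ⟨m % n, hv⟩
  have h4 := matrixBits_getD' G ⟨m / n, hu⟩ ⟨m % n, hv⟩
  simp only [e] at h3 h4
  rw [← h4, List.getD_eq_getElem _ _ h1, List.getD_eq_getElem _ _ h2] at h3
  rw [Bool.eq_iff_iff, h3]

end Pool.Agent.LibPcg
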