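import Pool.Agent.LibPcg.PDefs

set_option autoImplicit false

/-!
Clusters of a similarity function (Gromov product), and the tree which they form.
-/

namespace Pool.Agent.LibPcg

open SimpleGraph

/-- A similarity function of ultrametric type, with a root `r` which is similar to nothing. -/
structure Ult {V : Type} (c : V → V → ℝ) (r : V) : Prop where
  symm : ∀ x y, c x y = c y x
  ult : ∀ x y z, min (c x y) (c y z) ≤ c x z
  le : ∀ x y, c x y ≤ c x x
  root : ∀ y, c r y = 0
  nonneg : ∀ x y, 0 ≤ c x y

/-- the cluster of `x` at level `h` -/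
def cl {V : Type} (c : V → V → ℝ) (x : V) (h : ℝ) : Set V := {y | h ≤ c x y}

/-- the clusters -/
def Node {V : Type} (c : V → V → ℝ) : Type := {C : Set V // ∃ x y, C = cl c x (c x y)}

instance {V : Type} [Finite V] (c : V → V → ℝ) : Finite (Node c) := by
  unfold Node; infer_instance

/-- the cluster of `x` at the level `c x y` (it contains `x` and `y`) -/
def mkN {V : Type} (c : V → V → ℝ) (x y : V) : Node c := ⟨cl c x (c x y), x, y, rfl⟩

/-- the level of a cluster -/
noncomputable def lev {V : Type} {c : V → V → ℝ} (C : Node c) : ℝ :=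
  c C.2.choose C.2.choose_spec.choose

open Classical in
/-- the smallest cluster which strictly contains `C` (or `C` itself if there is none) -/
noncomputable def par {V : Type} {c : V → V → ℝ} (C : Node c) : Node c :=
  if h : ∃ P : Node c, C.1 ⊂ P.1 ∧ ∀ Q : Node c, C.1 ⊂ Q.1 → P.1 ⊆ Q.1 then h.choose else C

/-- the parent of a vertex of the tree on `V ⊕ Node c` -/
noncomputable def upN {V : Type} (c : V → V → ℝ) : V ⊕ Node c → V ⊕ Node c
  | .inl v => .inr (mkN c v v)
  | .inr C => .inr (par C)

/-- the level of a vertex of the tree -/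
noncomputable def lv {V : Type} (c : V → V → ℝ) : V ⊕ Node c → ℝ
  | .inl v => c v v
  | .inr C => lev C

/-- the tree -/
def bT {V : Type} (c : V → V → ℝ) : SimpleGraph (V ⊕ Node c) :=
  SimpleGraph.fromRel (fun x y => upN c x = y)

/-- the weights of its edges -/
noncomputable def bw {V : Type} (c : V → V → ℝ) : Sym2 (V ⊕ Node c) → ℝ :=
  Sym2.lift ⟨fun x y => |lv c x - lv c y|, fun _ _ => abs_sub_comm _ _⟩

end Pool.Agent.LibPcg
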