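import Pool.Agent.LibPcg.PDefs

set_option autoImplicit false

/-!
Row PC1. Few near pairs between the two sides.
`side` splits the points in two classes; any two different points at distance `< α` are on
different sides. Then a set `P` of pairs (side `true`, side `false`) of points of `S` at distance
`< α` has at most `S.card` elements.
Sketch. Induction on `S.card` (generalizing `P`). `S = ∅`: `P = ∅`. Otherwise let `r ∈ S`, and let
`v ∈ S` with `d v r` maximal. Claim: at most one pair of `P` contains `v`. If `x ≠ y` are both near
`v` (`d x v < α`, `d y v < α`, `x, y ∈ S`), then `h.four x y v r`: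
`d x y + d v r ≤ max (d x v + d y r) (d x r + d y v) ≤ max (d x v) (d y v) + d v r`, so `d x y < α`
and `x, y` are on different sides by `hs`; but `x` and `y` both are on the side different from the
one of `v` (`hs`; they are different from `v` since in `P` the two members are on different
sides), and there are only two sides: contradiction. So the pairs of `P` that contain `v` are at
most one (all pairs containing `v` have `v` at the same position, given by `side v`). Remove `v`
from `S` and these pairs from `P`.
-/

namespace Pool.Agent.LibPcg

open SimpleGraph

theorem near_card {V : Type} {d : V → V → ℝ} (h : FourPt d) (α : ℝ) (side : V → Bool)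
    (hs : ∀ x y, x ≠ y → d x y < α → side x ≠ side y) (S : Finset V) (P : Finset (V × V))
    (hP : ∀ p ∈ P, p.1 ∈ S ∧ p.2 ∈ S ∧ side p.1 = true ∧ side p.2 = false ∧ d p.1 p.2 < α) :
    P.card ≤ S.card := by
  classical
  induction hn : S.card generalizing S P with
  | zero =>
    have hS : S = ∅ := Finset.card_eq_zero.1 hn
    have hP0 : P = ∅ := by
      rw [Finset.eq_empty_iff_forall_notMem]
      intro p hp
      have := (hP p hp).1
      rw [hS] at this
      exact Finset.notMem_empty _ this
    rw [hP0, Finset.card_empty]
  | succ n ih =>
    have hne : S.Nonempty := Finset.card_pos.1 (by omega)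
    obtain ⟨r, hr⟩ := hne
    obtain ⟨v, hv, hmax⟩ := Finset.exists_max_image S (fun x => d x r) ⟨r, hr⟩
    have claim : ∀ x ∈ S, ∀ y ∈ S, d x v < α → d y v < α → d x y < α := by
      intro x hx y hy hxv hyv
      have h4 := h.four x y v r
      have h1 := hmax x hx
      have h2 := hmax y hy
      rcases max_cases (d x v + d y r) (d x r + d y v) with ⟨e, _⟩ | ⟨e, _⟩
      · rw [e] at h4
        linarith
      · rw [e] at h4
        linarith
    have hsplit : (P.filter (fun p => p.1 = v ∨ p.2 = v)).card +
        (P.filter (fun p => ¬ (p.1 = v ∨ p.2 = v))).card = P.card :=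
      Finset.card_filter_add_card_filter_not _
    have hA : (P.filter (fun p => p.1 = v ∨ p.2 = v)).card ≤ 1 := by
      rw [Finset.card_le_one]
      rintro ⟨a1, a2⟩ ha ⟨b1, b2⟩ hb
      obtain ⟨ha1, ha2⟩ := Finset.mem_filter.1 ha
      obtain ⟨hb1, hb2⟩ := Finset.mem_filter.1 hb
      obtain ⟨a3, a4, a5, a6, a7⟩ := hP _ ha1
      obtain ⟨b3, b4, b5, b6, b7⟩ := hP _ hb1
      dsimp only at *
      cases hsv : side v with
      | true =>
        have ea : a1 = v := by
          rcases ha2 with e | e
          · exact e
          · rw [e, hsv] at a6
            exact absurd a6 (by decide)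
        have eb : b1 = v := by
          rcases hb2 with e | e
          · exact e
          · rw [e, hsv] at b6
            exact absurd b6 (by decide)
        subst ea
        subst eb
        by_contra hab
        have hne : a2 ≠ b2 := fun e => hab (by rw [e])
        have hd := claim a2 a4 b2 b4 (by rw [h.symm]; exact a7) (by rw [h.symm]; exact b7)
        exact hs a2 b2 hne hd (by rw [a6, b6])
      | false =>
        have ea : a2 = v := by
          rcases ha2 with e | e
          · rw [e, hsv] at a5
            exact absurd a5 (by decide)
          · exact e
        have eb : b2 = v := by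
          rcases hb2 with e | e
          · rw [e, hsv] at b5
            exact absurd b5 (by decide)
          · exact e
        subst ea
        subst eb
        by_contra hab
        have hne : a1 ≠ b1 := fun e => hab (by rw [e])
        have hd := claim a1 a3 b1 b3 a7 b7
        exact hs a1 b1 hne hd (by rw [a5, b5])
    have hB : (P.filter (fun p => ¬ (p.1 = v ∨ p.2 = v))).card ≤ n := by
      have hc : (S.erase v).card = n := by
        rw [Finset.card_erase_of_mem hv, hn]
        rfl
      refine (ih (S.erase v) _ ?_ hc)
      intro p hp
      obtain ⟨hp1, hp2⟩ := Finset.mem_filter.1 hp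
      obtain ⟨q1, q2, q3⟩ := hP p hp1
      push Not at hp2
      exact ⟨Finset.mem_erase.2 ⟨hp2.1, q1⟩, Finset.mem_erase.2 ⟨hp2.2, q2⟩, q3⟩
    omega

end Pool.Agent.LibPcg
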