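import Pool.Agent.LibPcg.PDefs

set_option autoImplicit false

/-!
Row PC2. The far pairs form a chain graph.
Sketch. Let `β ≤ d (f a) (g b)`, `β ≤ d (f a') (g b')`. If `a = a'` or `b = b'` the claim is
trivial. Otherwise `h.four (f a) (g b) (f a') (g b')`:
`2 β ≤ d (f a) (g b) + d (f a') (g b') ≤ max (d (f a) (f a') + d (g b) (g b')) (d (f a) (g b') + d (g b) (f a'))`;
the first entry of the maximum is `< 2 β`, so it is the second one, and one of
`d (f a) (g b')`, `d (f a') (g b)` is at least `β` (`h.symm`).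
-/

namespace Pool.Agent.LibPcg

open SimpleGraph

theorem far_chain {V A B : Type} {d : V → V → ℝ} (h : FourPt d) (β : ℝ) (f : A → V) (g : B → V)
    (hA : ∀ a a', a ≠ a' → d (f a) (f a') < β) (hB : ∀ b b', b ≠ b' → d (g b) (g b') < β) :
    IsChain (fun a b => β ≤ d (f a) (g b)) := by
  intro a b a' b' h1 h2
  by_cases ha : a = a'
  · subst ha
    exact Or.inl h2
  by_cases hb : b = b'
  · subst hb
    exact Or.inl h1
  have h3 := h.four (f a) (g b) (f a') (g b')
  have h4 := hA a a' ha
  have h5 := hB b b' hb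
  have h6 := h.symm (g b) (f a')
  by_contra hcon
  push Not at hcon
  obtain ⟨h7, h8⟩ := hcon
  have h1' : β ≤ d (f a) (g b) := h1
  have h2' : β ≤ d (f a') (g b') := h2
  rcases max_cases (d (f a) (f a') + d (g b) (g b')) (d (f a) (g b') + d (g b) (f a')) with
    ⟨e, _⟩ | ⟨e, _⟩
  · rw [e] at h3
    linarith
  · rw [e] at h3
    linarith

end Pool.Agent.LibPcg
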