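import Pool.Agent.LibPcg.PDefs

set_option autoImplicit false

/-!
Row PC3. Choice of one copy of every vertex which avoids a small set of pairs of copies.
Sketch. Double counting over the finite set of all `(σ, τ) : (A → Fin t) × (B → Fin t)`, which has
`t ^ |A| * t ^ |B|` elements (`t > 0` because `P.card < t ^ 2`). For `x = ((a, p), (b, q))` the
number of `(σ, τ)` with `σ a = p`, `τ b = q` is `t ^ (|A| - 1) * t ^ (|B| - 1)`
(`Fintype.piFinset`: the functions with `σ a = p` are `Fintype.piFinset (fun a' => if a' = a then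
{p} else univ)`, whose cardinality is a product, `Finset.prod_ite_eq`-like), so that number times
`t ^ 2` is the total. If every `(σ, τ)` hit `P`, the total would be at most
`P.card * t ^ (|A| - 1) * t ^ (|B| - 1)` (`Finset.card_biUnion_le`), which is `<` total.
-/

namespace Pool.Agent.LibPcg

open SimpleGraph

theorem PC3_card {A : Type} [Fintype A] [DecidableEq A] (t : ℕ) (a : A) (p : Fin t) :
    ((Finset.univ : Finset (A → Fin t)).filter (fun σ => σ a = p)).card * t =
      t ^ Fintype.card A := by
  have h1 : (Finset.univ : Finset (A → Fin t)).filter (fun σ => σ a = p) =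
      Fintype.piFinset (fun a' => if a' = a then {p} else Finset.univ) := by
    ext σ
    rw [Finset.mem_filter, Fintype.mem_piFinset]
    constructor
    · rintro ⟨-, h⟩ a'
      by_cases h' : a' = a
      · rw [if_pos h', h', h]
        exact Finset.mem_singleton_self p
      · rw [if_neg h']
        exact Finset.mem_univ _
    · intro h
      have h2 := h a
      rw [if_pos rfl, Finset.mem_singleton] at h2
      exact ⟨Finset.mem_univ _, h2⟩
  rw [h1, Fintype.card_piFinset, ← Finset.mul_prod_erase Finset.univ _ (Finset.mem_univ a),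
    if_pos rfl, Finset.card_singleton, one_mul]
  have h2 : ∏ a' ∈ Finset.univ.erase a,
      (if a' = a then ({p} : Finset (Fin t)) else Finset.univ).card =
      ∏ _a' ∈ Finset.univ.erase a, t := by
    refine Finset.prod_congr rfl fun a' ha' => ?_
    rw [if_neg (Finset.ne_of_mem_erase ha'), Finset.card_univ, Fintype.card_fin]
  rw [h2]
  calc (∏ _a' ∈ Finset.univ.erase a, t) * t = t * ∏ _a' ∈ Finset.univ.erase a, t := mul_comm _ _
    _ = ∏ _a' : A, t := Finset.mul_prod_erase Finset.univ (fun _ => t) (Finset.mem_univ a)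
    _ = t ^ Fintype.card A := by rw [Finset.prod_const, Finset.card_univ]

theorem exists_avoid {A B : Type} [Fintype A] [Fintype B] (t : ℕ)
    (P : Finset ((A × Fin t) × (B × Fin t))) (hP : P.card < t ^ 2) :
    ∃ (σ : A → Fin t) (τ : B → Fin t), ∀ a b, ((a, σ a), (b, τ b)) ∉ P := by
  classical
  by_contra hcon
  push Not at hcon
  have ht : 0 < t := by
    rcases Nat.eq_zero_or_pos t with h | h
    · subst h
      simp at hP
    · exact h
  let N : (A × Fin t) × (B × Fin t) → Finset ((A → Fin t) × (B → Fin t)) := fun x =>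
    ((Finset.univ : Finset (A → Fin t)).filter (fun σ => σ x.1.1 = x.1.2)) ×ˢ
      ((Finset.univ : Finset (B → Fin t)).filter (fun τ => τ x.2.1 = x.2.2))
  have hcov : (Finset.univ : Finset ((A → Fin t) × (B → Fin t))) ⊆ P.biUnion N := by
    rintro ⟨σ, τ⟩ -
    obtain ⟨a, b, hab⟩ := hcon σ τ
    rw [Finset.mem_biUnion]
    refine ⟨_, hab, ?_⟩
    simp [N]
  have hN : ∀ x, (N x).card * t ^ 2 = t ^ Fintype.card A * t ^ Fintype.card B := by
    intro x
    have h1 := PC3_card t x.1.1 x.1.2
    have h2 := PC3_card t x.2.1 x.2.2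
    rw [Finset.card_product, ← h1, ← h2]
    ring
  have hcard : t ^ Fintype.card A * t ^ Fintype.card B ≤ ∑ x ∈ P, (N x).card := by
    refine le_trans ?_ ((Finset.card_le_card hcov).trans Finset.card_biUnion_le)
    rw [Finset.card_univ, Fintype.card_prod, Fintype.card_fun, Fintype.card_fun, Fintype.card_fin]
  have h3 : (t ^ Fintype.card A * t ^ Fintype.card B) * t ^ 2 ≤
      P.card * (t ^ Fintype.card A * t ^ Fintype.card B) := by
    calc (t ^ Fintype.card A * t ^ Fintype.card B) * t ^ 2
        ≤ (∑ x ∈ P, (N x).card) * t ^ 2 := Nat.mul_le_mul_right _ hcard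
      _ = ∑ x ∈ P, (t ^ Fintype.card A * t ^ Fintype.card B) := by
          rw [Finset.sum_mul]
          exact Finset.sum_congr rfl fun x _ => hN x
      _ = P.card * (t ^ Fintype.card A * t ^ Fintype.card B) := by
          rw [Finset.sum_const, smul_eq_mul]
  have hpos : 0 < t ^ Fintype.card A * t ^ Fintype.card B :=
    Nat.mul_pos (Nat.pow_pos ht) (Nat.pow_pos ht)
  rw [mul_comm P.card] at h3
  have h4 := Nat.le_of_mul_le_mul_left h3 hpos
  omega

end Pool.Agent.LibPcg
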