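import Pool.Agent.LibPcg.PDefs
import Pool.Agent.LibPcg.PB10
import Pool.Agent.LibPcg.PC1
import Pool.Agent.LibPcg.PC2
import Pool.Agent.LibPcg.PC3

set_option autoImplicit false

/-!
Row PC4. From an AND-representation of the blow-up to a cover by chain graphs.
-/

namespace Pool.Agent.LibPcg

open SimpleGraph

theorem chainCover_of_andPCG {A B : Type} [Fintype A] [Fintype B] [Nonempty A]
    (R : A → B → Prop) (k t : ℕ) (ht : k * (Fintype.card A + Fintype.card B) < t)
    (h : IsAndPCG k (blow R t)) : ChainCover R k := by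
  classical
  have ht0 : 0 < t := lt_of_le_of_lt (Nat.zero_le _) ht
  have : Nonempty (Fin t) := ⟨⟨0, ht0⟩⟩
  obtain ⟨d, α, β, hd, -, hG⟩ := (andPCG_iff k (blow R t)).1 h
  have hclose : ∀ i x y, x ≠ y → d i x y < α i → rel R x.1 y.1 := by
    intro i x y hne hlt
    by_contra hr
    have h1 := ((hG x y).1 ⟨hne, hr⟩).2 i
    linarith [h1.1]
  let side : (A ⊕ B) × Fin t → Bool := fun x => x.1.isLeft
  have hside : ∀ x y : (A ⊕ B) × Fin t, rel R x.1 y.1 → side x ≠ side y := by
    rintro ⟨x | x, p⟩ ⟨y | y, q⟩ hr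
    · exact hr.elim
    · simp [side]
    · simp [side]
    · exact hr.elim
  let P : Fin k → Finset (((A ⊕ B) × Fin t) × ((A ⊕ B) × Fin t)) := fun i =>
    Finset.univ.filter fun p => side p.1 = true ∧ side p.2 = false ∧ d i p.1 p.2 < α i
  have hP : ∀ i, (P i).card ≤ (Fintype.card A + Fintype.card B) * t := by
    intro i
    have h1 := near_card (hd i) (α i) side
      (fun x y hne hlt => hside x y (hclose i x y hne hlt)) Finset.univ (P i)
      (fun p hp => by
        have h2 := (Finset.mem_filter.1 hp).2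
        exact ⟨Finset.mem_univ _, Finset.mem_univ _, h2.1, h2.2.1, h2.2.2⟩)
    rwa [Finset.card_univ, Fintype.card_prod, Fintype.card_sum, Fintype.card_fin] at h1
  let e : (A × Fin t) × (B × Fin t) → ((A ⊕ B) × Fin t) × ((A ⊕ B) × Fin t) := fun q =>
    ((Sum.inl q.1.1, q.1.2), (Sum.inr q.2.1, q.2.2))
  have he : Function.Injective e := by
    rintro ⟨⟨a, p⟩, ⟨b, q⟩⟩ ⟨⟨a', p'⟩, ⟨b', q'⟩⟩ h1
    simp only [e, Prod.mk.injEq, Sum.inl.injEq, Sum.inr.injEq] at h1
    obtain ⟨⟨rfl, rfl⟩, rfl, rfl⟩ := h1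
    rfl
  let Q : Fin k → Finset ((A × Fin t) × (B × Fin t)) := fun i =>
    Finset.univ.filter fun q => d i (e q).1 (e q).2 < α i
  have hQ : ∀ i, (Q i).card ≤ (Fintype.card A + Fintype.card B) * t := by
    intro i
    refine le_trans ?_ (hP i)
    refine Finset.card_le_card_of_injOn e ?_ he.injOn
    intro q hq
    have h1 := (Finset.mem_filter.1 hq).2
    exact Finset.mem_coe.2 (Finset.mem_filter.2 ⟨Finset.mem_univ _, rfl, rfl, h1⟩)
  have hU : (Finset.univ.biUnion Q).card < t ^ 2 := by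
    have h1 : (Finset.univ.biUnion Q).card ≤ ∑ i : Fin k, (Q i).card := Finset.card_biUnion_le
    have h2 : ∑ i : Fin k, (Q i).card ≤ k * ((Fintype.card A + Fintype.card B) * t) := by
      refine (Finset.sum_le_sum fun i _ => hQ i).trans ?_
      rw [Finset.sum_const, Finset.card_univ, Fintype.card_fin, smul_eq_mul]
    have h3 : k * ((Fintype.card A + Fintype.card B) * t) < t ^ 2 := by
      rw [← mul_assoc, pow_two]
      exact Nat.mul_lt_mul_of_pos_right ht ht0
    omega
  obtain ⟨σ, τ, hst⟩ := exists_avoid t _ hU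
  have hav : ∀ i a b, α i ≤ d i (Sum.inl a, σ a) (Sum.inr b, τ b) := by
    intro i a b
    by_contra h1
    apply hst a b
    rw [Finset.mem_biUnion]
    exact ⟨i, Finset.mem_univ _, Finset.mem_filter.2 ⟨Finset.mem_univ _, lt_of_not_ge h1⟩⟩
  refine ⟨fun i a b => β i ≤ d i (Sum.inl a, σ a) (Sum.inr b, τ b), fun i => ?_, fun a b => ?_⟩
  · refine far_chain (hd i) (β i) (fun a => ((Sum.inl a, σ a) : (A ⊕ B) × Fin t))
      (fun b => ((Sum.inr b, τ b) : (A ⊕ B) × Fin t)) ?_ ?_
    · intro a a' hne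
      refine (((hG _ _).1 ⟨?_, ?_⟩).2 i).2
      · intro h1
        exact hne (Sum.inl.inj (congrArg Prod.fst h1))
      · exact fun h1 => h1
    · intro b b' hne
      refine (((hG _ _).1 ⟨?_, ?_⟩).2 i).2
      · intro h1
        exact hne (Sum.inr.inj (congrArg Prod.fst h1))
      · exact fun h1 => h1
  · have hne : ((Sum.inl a, σ a) : (A ⊕ B) × Fin t) ≠ (Sum.inr b, τ b) := by
      intro h1
      exact absurd (congrArg Prod.fst h1) (by simp)
    constructor
    · intro hR
      by_contra hno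
      have h1 : (blow R t).Adj (Sum.inl a, σ a) (Sum.inr b, τ b) := by
        rw [hG]
        refine ⟨hne, fun i => ⟨hav i a b, ?_⟩⟩
        by_contra h2
        exact hno ⟨i, le_of_not_gt h2⟩
      exact h1.2 hR
    · rintro ⟨i, hi⟩
      by_contra hR
      have h1 := (((hG _ _).1 ⟨hne, hR⟩).2 i).2
      exact absurd h1 (not_lt.2 hi)

end Pool.Agent.LibPcg
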