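import Pool.Agent.LibPcg.PDefs

set_option autoImplicit false

/-!
Row PC5. Chain graphs are given by weights and a threshold.
Sketch. Let `N a := {b | C a b}` (a `Finset B`, classical filter) and, for `b`,
`ρ b := card {b' | ∃ a, C a b' ∧ ¬ C a b}`. Take `α a := (N a).card`, `β b := card B - ρ b`
(`ρ b ≤ card B`). The claim is `C a b ↔ ρ b < (N a).card`. If `C a b`: every `b'` counted by `ρ b`
is in `N a` (`C a' b'`, `¬ C a' b`, `C a b` and the chain property of `(a, b), (a', b')` give
`C a b'`), and `b ∈ N a` is not counted by `ρ b`; so `ρ b < (N a).card`. If `¬ C a b`: every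
`b' ∈ N a` is counted by `ρ b` (with the same `a`), so `(N a).card ≤ ρ b`.
-/

namespace Pool.Agent.LibPcg

open SimpleGraph

theorem chain_threshold {A B : Type} [Fintype A] [Fintype B] {C : A → B → Prop} (hC : IsChain C) :
    ∃ (α : A → ℕ) (β : B → ℕ), (∀ a, α a ≤ Fintype.card B) ∧ (∀ b, β b ≤ Fintype.card B) ∧
      ∀ a b, C a b ↔ Fintype.card B < α a + β b := by
  classical
  let N : A → Finset B := fun a => Finset.univ.filter (fun b => C a b)
  let R : B → Finset B := fun b => Finset.univ.filter (fun b' => ∃ a, C a b' ∧ ¬ C a b)
  have hR : ∀ b, (R b).card ≤ Fintype.card B := fun b => Finset.card_le_univ _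
  refine ⟨fun a => (N a).card, fun b => Fintype.card B - (R b).card, fun a => Finset.card_le_univ _,
    fun b => Nat.sub_le _ _, ?_⟩
  intro a b
  have key : C a b ↔ (R b).card < (N a).card := by
    constructor
    · intro hab
      apply Finset.card_lt_card
      rw [Finset.ssubset_iff_of_subset]
      · refine ⟨b, ?_, ?_⟩
        · simpa [N] using hab
        · simp [R]
      · intro b' hb'
        simp only [R, Finset.mem_filter, Finset.mem_univ, true_and] at hb'
        obtain ⟨a', h1, h2⟩ := hb'
        simp only [N, Finset.mem_filter, Finset.mem_univ, true_and]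
        rcases hC a b a' b' hab h1 with h | h
        · exact h
        · exact absurd h h2
    · intro hlt
      by_contra hab
      have : (N a).card ≤ (R b).card := by
        apply Finset.card_le_card
        intro b' hb'
        simp only [N, Finset.mem_filter, Finset.mem_univ, true_and] at hb'
        simp only [R, Finset.mem_filter, Finset.mem_univ, true_and]
        exact ⟨a, hb', hab⟩
      omega
  rw [key]
  have := hR b
  show (R b).card < (N a).card ↔ Fintype.card B < (N a).card + (Fintype.card B - (R b).card)
  omega

end Pool.Agent.LibPcg
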