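import Pool.Agent.LibPcg.PDefs
import Pool.Agent.LibPcg.PB10
import Pool.Agent.LibPcg.PC5
import Pool.Agent.LibPcg.PC6

set_option autoImplicit false

/-!
Row PC7. From a cover by chain graphs to an AND-representation of the blow-up.
Sketch. Use `andPCG_iff` (PB10). Let `C i` be the chains. For every `i` PC5 gives `α, β`. With
`n := card B` put `ω (inl a, p) := α a`, `ω (inr b, q) := β b`, `side x := x.1.isLeft`, `L := 2 n + 1`,
`d i` := the function of PC6, `a i := 0`, `b i := L + n + 1/2`... simply `b i := 3 n + 2`: two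
different points on the same side have distance `≤ 2 n < 3 n + 2`; points on different sides have
distance `α a + β b + 2 n + 1`, which is `≥ 3 n + 2` iff `n < α a + β b` iff `C i a b`. `x, y` with
`x ≠ y` are adjacent in `blow R t` iff `¬ rel R x.1 y.1` iff for no `i` `C i a b` (for points on
different sides), iff `∀ i, d i x y < b i`.
-/

namespace Pool.Agent.LibPcg

open SimpleGraph

theorem andPCG_of_chainCover {A B : Type} [Fintype A] [Fintype B] [Nonempty A]
    (R : A → B → Prop) (k t : ℕ) (ht : 0 < t) (h : ChainCover R k) : IsAndPCG k (blow R t) := by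
  obtain ⟨C, hC, hR⟩ := h
  choose α β hα hβ hCi using fun i => chain_threshold (hC i)
  have : Nonempty (Fin t) := ⟨⟨0, ht⟩⟩
  rw [andPCG_iff]
  set n : ℕ := Fintype.card B with hn
  set side : (A ⊕ B) × Fin t → Bool := fun x => x.1.isLeft with hside
  set ω : Fin k → (A ⊕ B) × Fin t → ℝ := fun i x =>
    Sum.elim (fun a => (α i a : ℝ)) (fun b => (β i b : ℝ)) x.1 with hω
  have hω0 : ∀ i x, 0 ≤ ω i x := by
    rintro i ⟨a | b, p⟩
    · exact Nat.cast_nonneg _
    · exact Nat.cast_nonneg _
  have key := fun i => fourPt_star side (ω i) (hω0 i) ((2 * n + 1 : ℕ) : ℝ) (Nat.cast_nonneg _)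
  refine ⟨_, fun _ => 0, fun _ => ((3 * n + 2 : ℕ) : ℝ), key,
    fun i => ⟨le_rfl, Nat.cast_nonneg _⟩, ?_⟩
  intro u v
  show (u ≠ v ∧ ¬ rel R u.1 v.1) ↔ _
  refine and_congr_right fun huv => ?_
  simp only [if_neg huv]
  obtain ⟨x, p⟩ := u
  obtain ⟨y, q⟩ := v
  rcases x with a | b <;> rcases y with a' | b'
  · refine iff_of_true (fun h => h) fun i => ?_
    have h1 := hα i a
    have h2 := hα i a'
    simp only [hside, hω, Sum.isLeft_inl, if_true, Sum.elim_inl]
    constructor
    · positivity
    · rw [add_zero]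
      exact_mod_cast (by omega : α i a + α i a' < 3 * n + 2)
  · show ¬ R a b' ↔ _
    rw [hR, not_exists]
    refine forall_congr' fun i => ?_
    rw [hCi, not_lt]
    simp only [hside, hω, Sum.isLeft_inl, Sum.isLeft_inr, Bool.true_eq_false, if_false,
      Sum.elim_inl, Sum.elim_inr]
    constructor
    · intro h1
      refine ⟨by positivity, ?_⟩
      exact_mod_cast (by omega : α i a + β i b' + (2 * n + 1) < 3 * n + 2)
    · rintro ⟨-, h1⟩
      have h2 : α i a + β i b' + (2 * n + 1) < 3 * n + 2 := by exact_mod_cast h1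
      omega
  · show ¬ R a' b ↔ _
    rw [hR, not_exists]
    refine forall_congr' fun i => ?_
    rw [hCi, not_lt]
    simp only [hside, hω, Sum.isLeft_inl, Sum.isLeft_inr, Bool.false_eq_true, if_false,
      Sum.elim_inl, Sum.elim_inr]
    constructor
    · intro h1
      refine ⟨by positivity, ?_⟩
      exact_mod_cast (by omega : β i b + α i a' + (2 * n + 1) < 3 * n + 2)
    · rintro ⟨-, h1⟩
      have h2 : β i b + α i a' + (2 * n + 1) < 3 * n + 2 := by exact_mod_cast h1
      omega
  · refine iff_of_true (fun h => h) fun i => ?_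
    have h1 := hβ i b
    have h2 := hβ i b'
    simp only [hside, hω, Sum.isLeft_inr, if_true, Sum.elim_inr]
    constructor
    · positivity
    · rw [add_zero]
      exact_mod_cast (by omega : β i b + β i b' < 3 * n + 2)

end Pool.Agent.LibPcg
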