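import Pool.Agent.LibPcg.PDefs

set_option autoImplicit false

/-!
Row PC8. Covers by chain graphs and pull-backs along surjections.
Sketch. (→) pull back along sections: for `C' i a' b'` covering `R'` put
`C i a b := C' i (sA a) (sB b)` with `f (sA a) = a`, `g (sB b) = b`. (←) `C' i a' b' := C i (f a') (g b')`.
-/

namespace Pool.Agent.LibPcg

open SimpleGraph

theorem chainCover_pullback {A B A' B' : Type} (R : A → B → Prop) (R' : A' → B' → Prop)
    (f : A' → A) (g : B' → B) (hf : Function.Surjective f) (hg : Function.Surjective g)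
    (h : ∀ a' b', R' a' b' ↔ R (f a') (g b')) (k : ℕ) : ChainCover R' k ↔ ChainCover R k := by
  obtain ⟨sA, hsA⟩ := hf.hasRightInverse
  obtain ⟨sB, hsB⟩ := hg.hasRightInverse
  constructor
  · rintro ⟨C, hC, hR⟩
    refine ⟨fun i a b => C i (sA a) (sB b), fun i a b a' b' h1 h2 => hC i _ _ _ _ h1 h2,
      fun a b => ?_⟩
    rw [← hR, h, hsA a, hsB b]
  · rintro ⟨C, hC, hR⟩
    refine ⟨fun i a' b' => C i (f a') (g b'), fun i a b a' b' h1 h2 => hC i _ _ _ _ h1 h2,
      fun a' b' => ?_⟩
    rw [h, hR]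

end Pool.Agent.LibPcg
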