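import Pool.Agent.LibPcg.PDefs

set_option autoImplicit false

/-!
Row PD0. Chain covers indexed by a finite type. Sketch: reindex along `Fintype.equivFinOfCardEq`.
-/

namespace Pool.Agent.LibPcg

open SimpleGraph

theorem chainCover_of_fintype {A B J : Type} [Fintype J] (R : A → B → Prop) (k : ℕ)
    (hJ : Fintype.card J = k) (C : J → A → B → Prop) (hC : ∀ i, IsChain (C i))
    (hR : ∀ a b, R a b ↔ ∃ i, C i a b) : ChainCover R k := by
  let e : J ≃ Fin k := Fintype.equivFinOfCardEq hJ
  refine ⟨fun i => C (e.symm i), fun i => hC _, fun a b => ?_⟩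
  rw [hR]
  constructor
  · rintro ⟨i, hi⟩
    exact ⟨e i, by simpa using hi⟩
  · rintro ⟨i, hi⟩
    exact ⟨e.symm i, hi⟩

end Pool.Agent.LibPcg
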