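import Pool.Agent.LibPcg.PDDefs

set_option autoImplicit false

/-!
Row PD1. From a chain cover of the gadget graph to a 2-colouring.
Sketch. Let `C i` (`i : Fin k`, `k = |I| ^ 2 + 2`) be the cover. Consider the pairs
`h j := (r j, r j)` (`j : Bool`), `f p := (c p, c p)` (`p : I × I`). All are in `R := gR D`; let
`J : Bool ⊕ I × I → Fin k` choose a chain containing each. `J` is injective: for two different of
these pairs `(a, b)`, `(a', b')` neither `R a b'` nor `R a' b` holds, so they are not in one chain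
(`gR D a b ↔ ∃ i, C i a b`). The cardinalities agree, so `J` is bijective
(`Function.Injective.bijective_of_nat_card_le` or `Fintype.bijective_iff_injective_and_card`).
`f' p := (c' p, c' p)` is in `R`; its chain is `J` of something; it conflicts with `h j`
(`R (c' p) (r j)` and `R (r j) (c' p)` are false) and with `f q`, `q ≠ p` (`R (c' p) (c q)` false,
`R (c q) (c' p)` false). So `f' p` is in the chain `C (J (inr p))` (for ANY chain containing it).
`e u := (a u, a u)` is in `R` (`D` irreflexive); let `C i` contain it, `i = J x`. If `x = inr (v, w)`: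
with `f (v, w)`: `R (a u) (c v w)` or `R (c v w) (a u)`, so `u = v`, `v ≠ w`; with `f' (v, w)`
(in the same chain): `R (a u) (c' v w)` (false) or `R (c' v w) (a u)`, so `u = w`; contradiction. So
`e u` is in `C (J (inl j))` for some `j =: χ u`. Let
`ρ u := card {v : I | C (J (inl (χ u))) (a u) (a v)}`. If `D u v` and `χ u = χ v =: j`,
`H := C (J (inl j))`: `H (a u) (a v)` is false (`¬ gR D (a u) (a v)`), hence every `w` with
`H (a u) (a w)` has `H (a v) (a w)` (chain property for `(a u, a w)`, `(a v, a v)`: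
`H (a u) (a v)` or `H (a v) (a w)`), and `v` itself is in the set of `v` and not in the one of `u`.
So `ρ u < ρ v` (`Finset.card_lt_card`).
-/

namespace Pool.Agent.LibPcg

open SimpleGraph

theorem two_of_chainCover {I : Type} [Fintype I] (D : I → I → Prop) (hD : ∀ u, ¬ D u u)
    (h : ChainCover (gR D) (Fintype.card I ^ 2 + 2)) : Two D := by
  classical
  obtain ⟨C, hC, hR⟩ := h
  have confl : ∀ {i a b a' b'}, C i a b → C i a' b' → gR D a b' ∨ gR D a' b := by
    intro i a b a' b' h1 h2
    rcases hC i a b a' b' h1 h2 with h3 | h3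
    · exact Or.inl ((hR _ _).2 ⟨i, h3⟩)
    · exact Or.inr ((hR _ _).2 ⟨i, h3⟩)
  let pt : Bool ⊕ (I × I) → VC I := Sum.elim VC.r (fun p => VC.c p.1 p.2)
  have hpt : ∀ x, ∃ i, C i (pt x) (pt x) := by
    intro x
    refine (hR _ _).1 ?_
    rcases x with j | ⟨u, v⟩
    · change j = j
      rfl
    · exact ⟨rfl, rfl⟩
  choose J hJ using hpt
  have hinj : Function.Injective J := by
    intro x y hxy
    have h1 := hJ x
    have h2 := hJ y
    rw [← hxy] at h2
    rcases confl h1 h2 with h3 | h3
    · rcases x with j | ⟨u, v⟩ <;> rcases y with j' | ⟨u', v'⟩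
      · have h4 : j = j' := h3
        rw [h4]
      · exact h3.elim
      · exact h3.elim
      · obtain ⟨h4, h5⟩ : u = u' ∧ v = v' := h3
        rw [h4, h5]
    · rcases x with j | ⟨u, v⟩ <;> rcases y with j' | ⟨u', v'⟩
      · have h4 : j' = j := h3
        rw [h4]
      · exact h3.elim
      · exact h3.elim
      · obtain ⟨h4, h5⟩ : u' = u ∧ v' = v := h3
        rw [h4, h5]
  have hsurj : Function.Surjective J := by
    refine ((Fintype.bijective_iff_injective_and_card J).2 ⟨hinj, ?_⟩).2
    rw [Fintype.card_sum, Fintype.card_prod, Fintype.card_bool, Fintype.card_fin]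
    ring
  have hc' : ∀ u v, C (J (Sum.inr (u, v))) (VC.c' u v) (VC.c' u v) := by
    intro u v
    obtain ⟨i, hi⟩ := (hR (VC.c' u v) (VC.c' u v)).1 ⟨rfl, rfl⟩
    obtain ⟨x, rfl⟩ := hsurj i
    rcases x with j | ⟨u', v'⟩
    · rcases confl (hJ (Sum.inl j)) hi with h3 | h3
      · exact h3.elim
      · exact h3.elim
    · rcases confl (hJ (Sum.inr (u', v'))) hi with h3 | h3
      · exact h3.elim
      · obtain ⟨h4, h5⟩ : u = u' ∧ v = v' := h3
        rw [h4, h5] at hi ⊢
        exact hi
  have ha : ∀ u, ∃ j, C (J (Sum.inl j)) (VC.a u) (VC.a u) := by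
    intro u
    obtain ⟨i, hi⟩ := (hR (VC.a u) (VC.a u)).1 (hD u)
    obtain ⟨x, rfl⟩ := hsurj i
    rcases x with j | ⟨v, w⟩
    · exact ⟨j, hi⟩
    · exfalso
      have h1 : u = v ∧ v ≠ w := by
        rcases confl hi (hJ (Sum.inr (v, w))) with h3 | h3
        · exact h3
        · exact h3.elim
      have h2 : u = w ∧ v ≠ w := by
        rcases confl hi (hc' v w) with h3 | h3
        · exact h3.elim
        · exact h3
      exact h1.2 (h1.1.symm.trans h2.1)
  choose χ hχ using ha
  refine ⟨χ, fun u => (Finset.univ.filter fun v => C (J (Sum.inl (χ u))) (VC.a u) (VC.a v)).card,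
    ?_⟩
  intro u v huv hcol
  refine Finset.card_lt_card ?_
  have hno : ¬ C (J (Sum.inl (χ u))) (VC.a u) (VC.a v) := by
    intro h1
    have h2 : gR D (VC.a u) (VC.a v) := (hR _ _).2 ⟨_, h1⟩
    exact h2 huv
  have hv : C (J (Sum.inl (χ u))) (VC.a v) (VC.a v) := by
    rw [hcol]
    exact hχ v
  refine Finset.ssubset_iff_of_subset ?_ |>.2 ⟨v, ?_, ?_⟩
  · intro w hw
    have hw' := (Finset.mem_filter.1 hw).2
    refine Finset.mem_filter.2 ⟨Finset.mem_univ _, ?_⟩
    rw [← hcol]
    rcases hC _ _ _ _ _ hw' hv with h3 | h3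
    · exact absurd h3 hno
    · exact h3
  · exact Finset.mem_filter.2 ⟨Finset.mem_univ _, by rw [← hcol]; exact hv⟩
  · intro h1
    exact hno (Finset.mem_filter.1 h1).2

end Pool.Agent.LibPcg
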