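import Pool.Agent.LibPcg.PDDefs
import Pool.Agent.LibPcg.PD0

set_option autoImplicit false

/-!
Row PD2. From a 2-colouring to a chain cover of the gadget graph.
Sketch. Index type `J := (I × I) ⊕ Bool` (cardinality `|I| ^ 2 + 2`), PD0. The chains:
`C (inl (u, v))` := the relation which holds exactly in the cases
`(c u v, c u v)`, `(c' u v, c u v)`, `(c' u v, c' u v)`, and, if `u ≠ v`, also `(a u, c u v)`,
`(c' u v, a v)`, and `(a u, a v)` if `¬ D u v`.
(Neighbourhoods: `N (c u v) = {c u v} ⊆ N (a u) ⊆ {a v, c u v} ⊆ N (c' u v)`.)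
`C (inr i)` := the relation which holds exactly in the cases `(r i, r i)`, `(r i, a v)` for all `v`,
and `(a u, a v)` with `χ u = i`, `χ v = i`, `ρ v ≤ ρ u`.
All these are contained in `gR D` (for the last one: `D u v` would give `ρ u < ρ v`), and they cover
it (`(a u, a u)` is in `C (inr (χ u))`; `(a u, a v)` with `u ≠ v` in `C (inl (u, v))`). Suggestion:
define the two families by pattern matching on the constructors (or as a disjunction of
equations) and check `IsChain` by `rintro` over all cases.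
-/

namespace Pool.Agent.LibPcg

open SimpleGraph

/-- the chains of the pairs -/
def PD2_C1 {I : Type} (D : I → I → Prop) (u v : I) : VC I → VC I → Prop
  | .c u1 v1, .c u2 v2 => (u1 = u ∧ v1 = v) ∧ u2 = u ∧ v2 = v
  | .c' u1 v1, .c u2 v2 => (u1 = u ∧ v1 = v) ∧ u2 = u ∧ v2 = v
  | .c' u1 v1, .c' u2 v2 => (u1 = u ∧ v1 = v) ∧ u2 = u ∧ v2 = v
  | .a u1, .c u2 v2 => (u1 = u ∧ u ≠ v) ∧ u2 = u ∧ v2 = v
  | .c' u1 v1, .a v2 => (u1 = u ∧ v1 = v) ∧ u ≠ v ∧ v2 = v
  | .a u1, .a v2 => (u1 = u ∧ v2 = v) ∧ u ≠ v ∧ ¬ D u v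
  | _, _ => False

/-- the chains of the colours -/
def PD2_C2 {I : Type} (χ : I → Bool) (ρ : I → ℕ) (i : Bool) : VC I → VC I → Prop
  | .r j, .r k => j = i ∧ k = i
  | .r j, .a _ => j = i
  | .a u, .a v => χ u = i ∧ χ v = i ∧ ρ v ≤ ρ u
  | _, _ => False

theorem PD2_chain1 {I : Type} (D : I → I → Prop) (u v : I) : IsChain (PD2_C1 D u v) := by
  intro a b a' b' h h'
  cases a <;> cases b <;> simp only [PD2_C1] at h <;> cases a' <;> cases b' <;>
    simp only [PD2_C1] at h' ⊢ <;> tauto

theorem PD2_chain2 {I : Type} (χ : I → Bool) (ρ : I → ℕ) (i : Bool) :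
    IsChain (PD2_C2 χ ρ i) := by
  intro a b a' b' h h'
  cases a <;> cases b <;> simp only [PD2_C2] at h <;> cases a' <;> cases b' <;>
    simp only [PD2_C2] at h' ⊢ <;> first | tauto | grind

theorem chainCover_of_two {I : Type} [Fintype I] (D : I → I → Prop) (hD : ∀ u, ¬ D u u)
    (h : Two D) : ChainCover (gR D) (Fintype.card I ^ 2 + 2) := by
  classical
  obtain ⟨χ, ρ, hχ⟩ := h
  refine chainCover_of_fintype (J := (I × I) ⊕ Bool) (gR D) _ ?_
    (Sum.elim (fun p => PD2_C1 D p.1 p.2) (fun i => PD2_C2 χ ρ i)) ?_ ?_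
  · rw [Fintype.card_sum, Fintype.card_prod, Fintype.card_bool, pow_two]
  · rintro (p | i)
    · exact PD2_chain1 D p.1 p.2
    · exact PD2_chain2 χ ρ i
  · intro x y
    constructor
    · intro hxy
      cases x with
      | a u =>
        cases y with
        | a v =>
          by_cases huv : u = v
          · subst huv
            exact ⟨Sum.inr (χ u), rfl, rfl, le_rfl⟩
          · exact ⟨Sum.inl (u, v), ⟨rfl, rfl⟩, huv, hxy⟩
        | c u' v =>
          obtain ⟨rfl, h2⟩ := hxy
          exact ⟨Sum.inl (u, v), ⟨rfl, h2⟩, rfl, rfl⟩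
        | c' u' v => exact hxy.elim
        | r j => exact hxy.elim
      | c u v =>
        cases y with
        | a v' => exact hxy.elim
        | c u' v' =>
          obtain ⟨rfl, rfl⟩ := hxy
          exact ⟨Sum.inl (u, v), ⟨rfl, rfl⟩, rfl, rfl⟩
        | c' u' v' => exact hxy.elim
        | r j => exact hxy.elim
      | c' u v =>
        cases y with
        | a v' =>
          obtain ⟨rfl, h2⟩ := hxy
          exact ⟨Sum.inl (u, v'), ⟨rfl, rfl⟩, h2, rfl⟩
        | c u' v' =>
          obtain ⟨rfl, rfl⟩ := hxy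
          exact ⟨Sum.inl (u, v), ⟨rfl, rfl⟩, rfl, rfl⟩
        | c' u' v' =>
          obtain ⟨rfl, rfl⟩ := hxy
          exact ⟨Sum.inl (u, v), ⟨rfl, rfl⟩, rfl, rfl⟩
        | r j => exact hxy.elim
      | r i =>
        cases y with
        | a v' => exact ⟨Sum.inr i, rfl⟩
        | c u' v' => exact hxy.elim
        | c' u' v' => exact hxy.elim
        | r j =>
          obtain rfl : i = j := hxy
          exact ⟨Sum.inr i, rfl, rfl⟩
    · rintro ⟨j | i, hj⟩
      · obtain ⟨u, v⟩ := j
        cases x <;> cases y <;> simp only [Sum.elim_inl, PD2_C1] at hj <;>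
          simp only [gR] <;> grind
      · cases x <;> cases y <;> simp only [Sum.elim_inr, PD2_C2] at hj <;>
          simp only [gR] <;> grind

end Pool.Agent.LibPcg
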