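import Pool.Agent.LibPcg.PDDefs

set_option autoImplicit false

/-!
Row PD3. Basic facts on the items.
-/

namespace Pool.Agent.LibPcg

open SimpleGraph

theorem mem_items {V : Type} (φ : List (List (V × Bool))) (u : It V) :
    u ∈ items φ ↔ ∃ (s : Bool) (j i : ℕ), j < φ.length ∧ i < (cls φ j).length ∧
      u = (s, j, i, (cls φ j).length, ((cls φ j).getD i (none, true)).1,
        ((cls φ j).getD i (none, true)).2 == s) := by
  rw [items, List.mem_flatMap]
  constructor
  · rintro ⟨j, hj, hu⟩
    rw [List.mem_flatMap] at hu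
    obtain ⟨i, hi, hu⟩ := hu
    rw [List.mem_map] at hu
    obtain ⟨s, -, hs⟩ := hu
    exact ⟨s, j, i, List.mem_range.1 hj, List.mem_range.1 hi, hs.symm⟩
  · rintro ⟨s, j, i, hj, hi, rfl⟩
    refine ⟨j, List.mem_range.2 hj, List.mem_flatMap.2 ⟨i, List.mem_range.2 hi, ?_⟩⟩
    refine List.mem_map.2 ⟨s, ?_, rfl⟩
    cases s <;> simp

theorem items_nodup {V : Type} (φ : List (List (V × Bool))) : (items φ).Nodup := by
  rw [items, List.nodup_flatMap]
  constructor
  · intro j _
    rw [List.nodup_flatMap]
    constructor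
    · intro i _
      simp only [List.map_cons, List.map_nil, List.nodup_cons, List.mem_singleton,
        List.not_mem_nil, not_false_eq_true, List.nodup_nil, and_true]
      intro h
      exact absurd (congrArg Prod.fst h) (by simp)
    · refine List.Nodup.pairwise_of_forall_ne List.nodup_range fun i _ i' _ hne => ?_
      intro x hx hx'
      rw [List.mem_map] at hx hx'
      obtain ⟨s, -, hs⟩ := hx
      obtain ⟨s', -, hs'⟩ := hx'
      apply hne
      have h1 : x.2.2.1 = i := by rw [← hs]
      have h2 : x.2.2.1 = i' := by rw [← hs']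
      exact h1.symm.trans h2
  · refine List.Nodup.pairwise_of_forall_ne List.nodup_range fun j _ j' _ hne => ?_
    intro x hx hx'
    rw [List.mem_flatMap] at hx hx'
    obtain ⟨i, -, hx⟩ := hx
    obtain ⟨i', -, hx'⟩ := hx'
    rw [List.mem_map] at hx hx'
    obtain ⟨s, -, hs⟩ := hx
    obtain ⟨s', -, hs'⟩ := hx'
    apply hne
    have h1 : x.2.1 = j := by rw [← hs]
    have h2 : x.2.1 = j' := by rw [← hs']
    exact h1.symm.trans h2

theorem arc_irrefl {V : Type} [DecidableEq V] (φ : List (List (V × Bool))) (u : It V)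
    (hu : u ∈ items φ) : arc u u = false := by
  obtain ⟨s, j, i, -, hi, rfl⟩ := (mem_items φ u).1 hu
  have hM : 2 ≤ (cls φ j).length := by
    simp [cls]
  have h1 : ¬ (i = if i + 1 = (cls φ j).length then 0 else i + 1) := by
    split_ifs with h
    · omega
    · omega
  have h2 : decide (i = if i + 1 = (cls φ j).length then 0 else i + 1) = false :=
    decide_eq_false h1
  unfold arc
  simp only [h2, decide_true, Bool.not_true, Bool.and_false, Bool.or_false]

end Pool.Agent.LibPcg
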