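import Pool.Agent.LibPcg.PDDefs
import Pool.Agent.LibPcg.PD3

set_option autoImplicit false

/-!
Row PD4. From a satisfying assignment to a 2-colouring of the items.
Sketch. Let `a` be the assignment. Value of a literal `(o, b)`: `val (some v, b) := (a v == b)`,
`val (none, b) := (false == b)` (the dummy variable is false; so `val (o, !b) = !val (o, b)`).
`χ u := val (u.2.2.2.2.1, u.2.2.2.2.2)`. For a clause `j < φ.length` let `c j` be the first position
`i` in `cls φ j` whose literal is true (exists since `a` satisfies the clause; positions `0`, `1` are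
dummy and false, so `2 ≤ c j`); `M := (cls φ j).length`. Put
`ρ u := if c ≤ i then i - c else i + M - c` with `i` the position, `c = c j`, `j` the clause of `u`.
Let `arc u v`, `χ u = χ v`. If the variables agree and the signs differ then `χ u ≠ χ v`. So `u`, `v`
are main items of one clause, `v` being next to `u` in the cyclic order; `ρ v = ρ u + 1`
unless `v` has the position `c` (then `u` has the position `c - 1 ≥ 1`, where the literal is
false, whereas the literal of `v` is true: for main items (`s = true`) the sign of the item is the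
sign of the literal: `χ u ≠ χ v`). Also when `u` has position `M - 1` and `v` position `0`:
`ρ u = M - 1 - c`, `ρ v = M - c` (`0 < c`).
-/

namespace Pool.Agent.LibPcg

open SimpleGraph

/-- the value of a literal (the dummy variable is false) -/
private def pd4Val {V : Type} (a : V → Bool) : Option V → Bool → Bool
  | some v, b => a v == b
  | none, b => false == b

private lemma pd4_val_ne {V : Type} (a : V → Bool) (o : Option V) {b b' : Bool} (h : b ≠ b') :
    pd4Val a o b ≠ pd4Val a o b' := by
  cases o with
  | none => revert h; cases b <;> cases b' <;> simp [pd4Val]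
  | some v => revert h; cases b <;> cases b' <;> cases hv : a v <;> simp [pd4Val, hv]

private lemma pd4_len {V : Type} (φ : List (List (V × Bool))) (j : ℕ) :
    (cls φ j).length = (φ.getD j []).length + 2 := by
  simp [cls]

/-- the first true literal of a clause -/
private lemma pd4_first {V : Type} (φ : List (List (V × Bool))) (a : V → Bool)
    (h : ∀ c ∈ φ, ∃ l ∈ c, a l.1 = l.2) (j : ℕ) :
    ∃ c, j < φ.length → (0 < c ∧ c < (cls φ j).length ∧
      pd4Val a ((cls φ j).getD c (none, true)).1 ((cls φ j).getD c (none, true)).2 = true ∧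
      ∀ i < c, pd4Val a ((cls φ j).getD i (none, true)).1
        ((cls φ j).getD i (none, true)).2 = false) := by
  classical
  by_cases hj : j < φ.length
  · have hgetD : φ.getD j [] = φ[j] := by
      rw [List.getD_eq_getElem _ _ hj]
    obtain ⟨l, hl, hal⟩ := h φ[j] (List.getElem_mem hj)
    obtain ⟨i, hi, hil⟩ := List.getElem_of_mem hl
    have hlen := pd4_len φ j
    rw [hgetD] at hlen
    have hcl : (cls φ j).getD (i + 2) (none, true) = (some l.1, l.2) := by
      unfold cls
      rw [hgetD, ← hil]
      simp [List.getD_eq_getElem?_getD, hi]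
    have hex : ∃ c, pd4Val a ((cls φ j).getD c (none, true)).1
        ((cls φ j).getD c (none, true)).2 = true := by
      refine ⟨i + 2, ?_⟩
      rw [hcl]
      simp [pd4Val, hal]
    refine ⟨Nat.find hex, fun _ => ⟨?_, ?_, Nat.find_spec hex, ?_⟩⟩
    · rw [Nat.find_pos]
      simp [cls, pd4Val]
    · have : Nat.find hex ≤ i + 2 := Nat.find_min' hex (by rw [hcl]; simp [pd4Val, hal])
      omega
    · intro i' hi'
      have := Nat.find_min hex hi'
      simpa using this
  · exact ⟨0, fun h' => absurd h' hj⟩

theorem two_of_sat {V : Type} [DecidableEq V] (φ : List (List (V × Bool)))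
    (h : ∃ a : V → Bool, ∀ c ∈ φ, ∃ l ∈ c, a l.1 = l.2) :
    Two (fun u v : {u : It V // u ∈ items φ} => arc u.1 v.1 = true) := by
  classical
  obtain ⟨a, ha⟩ := h
  choose c hc using pd4_first φ a ha
  refine ⟨fun u => pd4Val a u.1.2.2.2.2.1 u.1.2.2.2.2.2,
    fun u => if c u.1.2.1 ≤ u.1.2.2.1 then u.1.2.2.1 - c u.1.2.1
      else u.1.2.2.1 + u.1.2.2.2.1 - c u.1.2.1, ?_⟩
  rintro ⟨u, hu⟩ ⟨v, hv⟩ harc hχ
  obtain ⟨s, j, i, hj, hi, rfl⟩ := (mem_items φ u).1 hu
  obtain ⟨s', j', i', hj', hi', rfl⟩ := (mem_items φ v).1 hv
  simp only at hχ harc ⊢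
  unfold arc at harc
  rw [Bool.or_eq_true] at harc
  rcases harc with harc | harc
  · exfalso
    simp only [Bool.and_eq_true, decide_eq_true_eq, Bool.not_eq_true', decide_eq_false_iff_not]
      at harc
    obtain ⟨e1, e2⟩ := harc
    rw [← e1] at hχ
    exact pd4_val_ne a _ e2 hχ
  · simp only [Bool.and_eq_true, decide_eq_true_eq] at harc
    obtain ⟨rfl, rfl, rfl, e⟩ := harc
    obtain ⟨c0, cM, ct, cf⟩ := hc j hj
    simp only [beq_true] at hχ
    by_cases hM : i + 1 = (cls φ j).length
    · rw [if_pos hM] at e
      subst e
      rw [if_pos (by omega), if_neg (by omega)]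
      omega
    · rw [if_neg hM] at e
      subst e
      by_cases h1 : c j ≤ i
      · rw [if_pos h1, if_pos (by omega)]
        omega
      · by_cases h2 : i + 1 = c j
        · exfalso
          rw [h2, ct, cf i (by omega)] at hχ
          exact absurd hχ (by decide)
        · rw [if_neg h1, if_neg (by omega)]
          omega

end Pool.Agent.LibPcg
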