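import Pool.Agent.LibPcg.PDDefs
import Pool.Agent.LibPcg.PD3

set_option autoImplicit false

/-!
Row PD5. From a 2-colouring of the items to a satisfying assignment.
Sketch. Let `χ, ρ` be given. (1) If `u`, `v` are items with the same variable (`Option V`) and
different signs, then `χ u ≠ χ v`: both `arc u v` and `arc v u` hold, so `χ u = χ v` would give
`ρ u < ρ v < ρ u`. (2) Every item `u = (s, ..)` has a partner `u' = (!s, ..)` with the same variable and
the opposite sign; hence two items with the same variable and the same sign have the same colour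
(compare both with the partner of the first). (3) Let `j < φ.length`; `w := ` main item `(true, j, 0)`
with literal `(none, true)`. If all main items of the clause `j` had the same colour, then `ρ` would
increase strictly along `0 → 1 → ... → M - 1 → 0`, absurd. So some main item `x` of clause `j` has
`χ x ≠ χ w`; by (2) its variable is not `none` (the signs at positions 0, 1 are `true`), so it
comes from a literal `(v, b)` of the clause. (4) Define `a v := true` iff there are an item `x` with variable
`some v` and sign `true` and an item `w` with literal `(none, true)` and `χ x ≠ χ w`. For the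
literal `(v, b)` of (3): if `b = true`, `a v = true`. If `b = false`: `a v = false`: otherwise there were an
item `x'` with literal `(some v, true)`, `χ x' ≠ χ w' = χ w` (by (2)), but `χ x' ≠ χ x` by (1) and
`χ x ≠ χ w`: three different values of a `Bool`, impossible.
-/

namespace Pool.Agent.LibPcg

open SimpleGraph

/-- the item number `i` of the clause `j` with flag `s` -/
private def pd5Mk {V : Type} (φ : List (List (V × Bool))) (s : Bool) (j i : ℕ) : It V :=
  (s, j, i, (cls φ j).length, ((cls φ j).getD i (none, true)).1,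
    ((cls φ j).getD i (none, true)).2 == s)

private lemma pd5_mem {V : Type} (φ : List (List (V × Bool))) (s : Bool) {j i : ℕ}
    (hj : j < φ.length) (hi : i < (cls φ j).length) : pd5Mk φ s j i ∈ items φ :=
  (mem_items φ _).2 ⟨s, j, i, hj, hi, rfl⟩

private lemma pd5_len {V : Type} (φ : List (List (V × Bool))) (j : ℕ) :
    (cls φ j).length = (φ.getD j []).length + 2 := by
  simp [cls]

theorem sat_of_two {V : Type} [DecidableEq V] (φ : List (List (V × Bool)))
    (h : Two (fun u v : {u : It V // u ∈ items φ} => arc u.1 v.1 = true)) :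
    ∃ a : V → Bool, ∀ c ∈ φ, ∃ l ∈ c, a l.1 = l.2 := by
  classical
  obtain ⟨χ, ρ, h⟩ := h
  -- (1)
  have h1 : ∀ u v : {u : It V // u ∈ items φ}, u.1.2.2.2.2.1 = v.1.2.2.2.2.1 →
      u.1.2.2.2.2.2 ≠ v.1.2.2.2.2.2 → χ u ≠ χ v := by
    intro u v hv hs hc
    have a1 : arc u.1 v.1 = true := by
      unfold arc
      simp [hv, hs]
    have a2 : arc v.1 u.1 = true := by
      unfold arc
      simp [hv, Ne.symm hs]
    have b1 := h u v a1 hc
    have b2 := h v u a2 hc.symm
    omega
  -- partner
  have hpart : ∀ u : {u : It V // u ∈ items φ}, ∃ u' : {u : It V // u ∈ items φ},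
      u'.1.2.2.2.2.1 = u.1.2.2.2.2.1 ∧ u'.1.2.2.2.2.2 ≠ u.1.2.2.2.2.2 := by
    intro u
    obtain ⟨s, j, i, hj, hi, hu⟩ := (mem_items φ u.1).1 u.2
    refine ⟨⟨pd5Mk φ (!s) j i, pd5_mem φ (!s) hj hi⟩, ?_, ?_⟩
    · rw [hu]; rfl
    · rw [hu]
      show (((cls φ j).getD i (none, true)).2 == !s) ≠ (((cls φ j).getD i (none, true)).2 == s)
      cases ((cls φ j).getD i (none, true)).2 <;> cases s <;> decide
  -- (2)
  have h2 : ∀ u v : {u : It V // u ∈ items φ}, u.1.2.2.2.2.1 = v.1.2.2.2.2.1 →
      u.1.2.2.2.2.2 = v.1.2.2.2.2.2 → χ u = χ v := by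
    intro u v hv hs
    obtain ⟨u', hu1, hu2⟩ := hpart u
    have c1 := h1 u' u hu1 hu2
    have c2 := h1 u' v (hu1.trans hv) (by rw [← hs]; exact hu2)
    revert c1 c2
    cases χ u' <;> cases χ u <;> cases χ v <;> simp
  -- (3)
  have h3 : ∀ j, ∀ hj : j < φ.length, ∃ i, ∃ hi : i < (cls φ j).length,
      ∃ h0 : 0 < (cls φ j).length,
      χ ⟨pd5Mk φ true j i, pd5_mem φ true hj hi⟩ ≠ χ ⟨pd5Mk φ true j 0, pd5_mem φ true hj h0⟩ := by
    intro j hj
    have hM := pd5_len φ j
    have h0 : 0 < (cls φ j).length := by omega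
    by_contra hcon
    have hall : ∀ i, ∀ hi : i < (cls φ j).length,
        χ ⟨pd5Mk φ true j i, pd5_mem φ true hj hi⟩ =
          χ ⟨pd5Mk φ true j 0, pd5_mem φ true hj h0⟩ := by
      intro i hi
      by_contra hne
      exact hcon ⟨i, hi, h0, hne⟩
    have hstep : ∀ i, ∀ hi : i + 1 < (cls φ j).length,
        ρ ⟨pd5Mk φ true j i, pd5_mem φ true hj (by omega)⟩ <
          ρ ⟨pd5Mk φ true j (i + 1), pd5_mem φ true hj hi⟩ := by
      intro i hi
      apply h
      · show arc (pd5Mk φ true j i) (pd5Mk φ true j (i + 1)) = true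
        have hne : i + 1 ≠ (cls φ j).length := by omega
        unfold arc pd5Mk
        simp [hne]
      · rw [hall i (by omega), hall (i + 1) hi]
    have hmono : ∀ i, ∀ hi : i < (cls φ j).length,
        ρ ⟨pd5Mk φ true j 0, pd5_mem φ true hj h0⟩ ≤
          ρ ⟨pd5Mk φ true j i, pd5_mem φ true hj hi⟩ := by
      intro i
      induction i with
      | zero => intro hi; exact le_refl _
      | succ i ih =>
        intro hi
        exact (ih (by omega)).trans (hstep i hi).le
    have hlast : (cls φ j).length - 1 < (cls φ j).length := by omega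
    have hcyc : ρ ⟨pd5Mk φ true j ((cls φ j).length - 1), pd5_mem φ true hj hlast⟩ <
        ρ ⟨pd5Mk φ true j 0, pd5_mem φ true hj h0⟩ := by
      apply h
      · show arc (pd5Mk φ true j ((cls φ j).length - 1)) (pd5Mk φ true j 0) = true
        have hne : (cls φ j).length - 1 + 1 = (cls φ j).length := by omega
        unfold arc pd5Mk
        simp [hne]
      · rw [hall _ hlast]
    have := hmono _ hlast
    omega
  -- (4)
  let a : V → Bool := fun v => decide (∃ x w : {u : It V // u ∈ items φ},
    x.1.2.2.2.2.1 = some v ∧ x.1.2.2.2.2.2 = true ∧ w.1.2.2.2.2.1 = none ∧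
      w.1.2.2.2.2.2 = true ∧ χ x ≠ χ w)
  refine ⟨a, ?_⟩
  intro cl hc
  obtain ⟨j, hj, hjc⟩ := List.getElem_of_mem hc
  have hgetD : φ.getD j [] = cl := by
    rw [List.getD_eq_getElem _ _ hj, hjc]
  obtain ⟨i, hi, h0, hne⟩ := h3 j hj
  have hw1 : (pd5Mk φ true j 0).2.2.2.2.1 = none := by
    simp [pd5Mk, cls]
  have hw2 : (pd5Mk φ true j 0).2.2.2.2.2 = true := by
    simp [pd5Mk, cls]
  match i, hi, hne with
  | 0, hi, hne => exact absurd rfl hne
  | 1, hi, hne =>
    exact absurd (h2 _ _ (by simp [pd5Mk, cls]) (by simp [pd5Mk, cls])) hne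
  | i + 2, hi, hne =>
    have hil : i < cl.length := by
      have := pd5_len φ j
      rw [hgetD] at this
      omega
    refine ⟨cl[i], List.getElem_mem hil, ?_⟩
    have hcl : (cls φ j).getD (i + 2) (none, true) = (some cl[i].1, cl[i].2) := by
      unfold cls
      rw [hgetD]
      simp [List.getD_eq_getElem?_getD, hil]
    have hx1 : (pd5Mk φ true j (i + 2)).2.2.2.2.1 = some cl[i].1 := by
      show ((cls φ j).getD (i + 2) (none, true)).1 = _
      rw [hcl]
    have hx2 : (pd5Mk φ true j (i + 2)).2.2.2.2.2 = cl[i].2 := by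
      show (((cls φ j).getD (i + 2) (none, true)).2 == true) = _
      rw [hcl]
      simp
    rcases hb : cl[i].2 with _ | _
    · -- false
      show decide _ = false
      rw [decide_eq_false_iff_not]
      rintro ⟨x', w', e1, e2, e3, e4, e5⟩
      have g1 : χ w' = χ ⟨pd5Mk φ true j 0, pd5_mem φ true hj h0⟩ :=
        h2 _ _ (e3.trans hw1.symm) (e4.trans hw2.symm)
      have g2 : χ x' ≠ χ ⟨pd5Mk φ true j (i + 2), pd5_mem φ true hj hi⟩ := by
        apply h1
        · exact e1.trans hx1.symm
        · show x'.1.2.2.2.2.2 ≠ (pd5Mk φ true j (i + 2)).2.2.2.2.2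
          rw [hx2, e2, hb]
          decide
      rw [g1] at e5
      revert e5 g2 hne
      generalize χ x' = p1
      generalize χ ⟨pd5Mk φ true j (i + 2), pd5_mem φ true hj hi⟩ = p2
      generalize χ ⟨pd5Mk φ true j 0, pd5_mem φ true hj h0⟩ = p3
      cases p1 <;> cases p2 <;> cases p3 <;> simp
    · show decide _ = true
      rw [decide_eq_true_iff]
      exact ⟨⟨pd5Mk φ true j (i + 2), pd5_mem φ true hj hi⟩,
        ⟨pd5Mk φ true j 0, pd5_mem φ true hj h0⟩, hx1, by rw [hx2, hb], hw1, hw2, hne⟩

end Pool.Agent.LibPcg
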