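import Pool.Agent.LibPcg.PDefs

set_option autoImplicit false

/-!
The combinatorial part of the reduction: from formulas to 2-colourings of digraphs without
monochromatic directed cycles, and from these to covers of bipartite graphs by chain graphs.
-/

namespace Pool.Agent.LibPcg

open SimpleGraph

/-- the vertices on each side of the bipartite graph -/
inductive VC (I : Type) : Type
  | a : I → VC I
  | c : I → I → VC I
  | c' : I → I → VC I
  | r : Bool → VC I

/-- the bipartite graph of the digraph `D` -/
def gR {I : Type} (D : I → I → Prop) : VC I → VC I → Prop
  | .a u, .a v => ¬ D u v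
  | .a u', .c u v => u' = u ∧ u ≠ v
  | .c u v, .c u' v' => u = u' ∧ v = v'
  | .c' u v, .a v' => v' = v ∧ u ≠ v
  | .c' u v, .c u' v' => u = u' ∧ v = v'
  | .c' u v, .c' u' v' => u = u' ∧ v = v'
  | .r _, .a _ => True
  | .r i, .r j => i = j
  | _, _ => False

/-- 2-colouring without monochromatic directed cycle -/
def Two {I : Type} (D : I → I → Prop) : Prop :=
  ∃ (χ : I → Bool) (ρ : I → ℕ), ∀ u v, D u v → χ u = χ v → ρ u < ρ v

/-- the clause number `j` with two dummy literals (which stand for the value `false`) in front -/
def cls {V : Type} (φ : List (List (V × Bool))) (j : ℕ) : List (Option V × Bool) :=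
  (none, true) :: (none, true) :: (φ.getD j []).map fun l => (some l.1, l.2)

/-- An item: flag (main item or negated copy), number of the clause, position in the clause, length
of the clause, variable, sign. -/
abbrev It (V : Type) : Type := Bool × ℕ × ℕ × ℕ × Option V × Bool

set_option synthInstance.maxSize 1000 in
/-- items have decidable equality -/
instance instDecIt {V : Type} [DecidableEq V] :
    DecidableEq (Bool × ℕ × ℕ × ℕ × Option V × Bool) := inferInstance

/-- the items of a formula -/
def items {V : Type} (φ : List (List (V × Bool))) : List (It V) :=
  (List.range φ.length).flatMap fun j =>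
    (List.range (cls φ j).length).flatMap fun i =>
      [true, false].map fun s =>
        (s, j, i, (cls φ j).length, ((cls φ j).getD i (none, true)).1,
          ((cls φ j).getD i (none, true)).2 == s)

/-- the arcs between items: complementary literals, and the cyclic order of the main items of a
clause -/
def arc {V : Type} [DecidableEq V] (u v : It V) : Bool :=
  (decide (u.2.2.2.2.1 = v.2.2.2.2.1) && !decide (u.2.2.2.2.2 = v.2.2.2.2.2)) ||
  (u.1 && (v.1 && (decide (u.2.1 = v.2.1) &&
    decide (v.2.2.1 = if u.2.2.1 + 1 = u.2.2.2.1 then 0 else u.2.2.1 + 1))))

end Pool.Agent.LibPcg
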