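import Mathlib

set_option autoImplicit false

/-!
Definitions for the recognition problem of `k`-AND-PCGs (problem MP_dff376_lc).
-/

namespace Pool.Agent.LibPcg

open SimpleGraph

/-! ### Trees, distances, AND-PCGs -/

/-- a vertex with at most one neighbour -/
def IsLeaf {W : Type} (T : SimpleGraph W) (x : W) : Prop := ∀ y z, T.Adj x y → T.Adj x z → y = z

/-- A finite tree with nonnegative real edge weights, whose leaves are labelled bijectively by
`V`. -/
structure WTree (V : Type) where
  /-- the vertices of the tree -/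
  W : Type
  fin : Finite W
  /-- the tree -/
  T : SimpleGraph W
  tree : T.IsTree
  /-- the weights of the edges -/
  w : Sym2 W → ℝ
  nonneg : ∀ e, 0 ≤ w e
  /-- the leaf with a given label -/
  leaf : V → W
  inj : Function.Injective leaf
  leaves : ∀ x, IsLeaf T x ↔ ∃ v, leaf v = x

/-- the total weight of the path between the leaves `u` and `v` is `t` -/
def WTree.Dist {V : Type} (D : WTree V) (u v : V) (t : ℝ) : Prop :=
  ∃ p : D.T.Walk (D.leaf u) (D.leaf v), p.IsPath ∧ (p.edges.map D.w).sum = t

/-- an interval of nonnegative reals -/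
def IsInterval (I : Set ℝ) : Prop := I.OrdConnected ∧ ∀ t ∈ I, 0 ≤ t

/-- `G` is a `k`-AND-PCG. -/
def IsAndPCG {V : Type} (k : ℕ) (G : SimpleGraph V) : Prop :=
  ∃ (D : Fin k → WTree V) (I : Fin k → Set ℝ), (∀ i, IsInterval (I i)) ∧
    ∀ u v, G.Adj u v ↔ u ≠ v ∧ ∀ i, ∃ t ∈ I i, (D i).Dist u v t

/-- the vertices can be partitioned into two cliques -/
def CoBipartite {V : Type} (G : SimpleGraph V) : Prop :=
  ∃ s : V → Bool, ∀ u v, u ≠ v → s u = s v → G.Adj u v

/-! ### Four point condition -/

/-- the four point condition -/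
structure FourPt {V : Type} (d : V → V → ℝ) : Prop where
  self : ∀ x, d x x = 0
  symm : ∀ x y, d x y = d y x
  four : ∀ x y z u, d x y + d z u ≤ max (d x z + d y u) (d x u + d y z)

/-- The distance of two labels in a weighted tree. -/
noncomputable def WTree.d {V : Type} (D : WTree V) (u v : V) : ℝ :=
  ((D.tree.existsUnique_path (D.leaf u) (D.leaf v)).choose.edges.map D.w).sum

/-- `x` and `y` are on the same side of the edge `e` -/
def Same {W : Type} (T : SimpleGraph W) (e : Sym2 W) (x y : W) : Prop :=
  (T.deleteEdges {e}).Reachable x y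

/-! ### Chains and blow-ups -/

/-- a chain graph between `A` and `B`: no two edges `a b`, `a' b'` such that neither `a b'` nor
`a' b` is an edge -/
def IsChain {A B : Type} (C : A → B → Prop) : Prop :=
  ∀ a b a' b', C a b → C a' b' → C a b' ∨ C a' b

/-- `R` is a union of `k` chain graphs -/
def ChainCover {A B : Type} (R : A → B → Prop) (k : ℕ) : Prop :=
  ∃ C : Fin k → A → B → Prop, (∀ i, IsChain (C i)) ∧ ∀ a b, R a b ↔ ∃ i, C i a b

/-- the symmetric relation on `A ⊕ B` given by a relation between `A` and `B` -/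
def rel {A B : Type} (R : A → B → Prop) : A ⊕ B → A ⊕ B → Prop
  | .inl a, .inr b => R a b
  | .inr b, .inl a => R a b
  | _, _ => False

/-- the complement of the graph in which every vertex of the bipartite graph `R` is replaced by
`t` independent copies -/
def blow {A B : Type} (R : A → B → Prop) (t : ℕ) : SimpleGraph ((A ⊕ B) × Fin t) where
  Adj x y := x ≠ y ∧ ¬ rel R x.1 y.1
  symm := ⟨fun x y h => ⟨h.1.symm, fun h' => h.2 (by
    obtain ⟨x1, x2⟩ := x
    obtain ⟨y1, y2⟩ := y
    cases x1 <;> cases y1 <;> exact h')⟩⟩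
  loopless := ⟨fun x h => h.1 rfl⟩

end Pool.Agent.LibPcg
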