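import Pool.Agent.LibPcg.PMDefs

set_option autoImplicit false

/-!
Row PM1. The list of the items is computed in polynomial time.
-/

namespace Pool.Agent.LibPcg

open SimpleGraph Pool.Agent.LibComplexity

theorem pt_cls {V : Type} [Enc V] {α : Type} [Enc α] {𝒜 : Set Orc}
    {f : Orc → α → List (List (V × Bool))} {j : Orc → α → ℕ} (hf : PTf 𝒜 f) (hj : PTf 𝒜 j) :
    PTf 𝒜 (fun A x => cls (f A x) (j A x)) := by
  unfold cls
  exact (PTf.const _).cons ((PTf.const _).cons ((hf.listGetD hj (PTf.const [])).map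
    (g := fun _ _ (l : V × Bool) => (some l.1, l.2)) (PTf.id.snd.fst.some.pair PTf.id.snd.snd)))

theorem pt_items {V : Type} [Enc V] {α : Type} [Enc α] {𝒜 : Set Orc}
    {f : Orc → α → List (List (V × Bool))} (hf : PTf 𝒜 f) :
    PTf 𝒜 (fun A x => items (f A x)) := by
  unfold items
  refine hf.length.range.flatMap (g := fun A x (j : ℕ) =>
    (List.range (cls (f A x) j).length).flatMap fun i =>
      [true, false].map fun s =>
        ((s, j, i, (cls (f A x) j).length, ((cls (f A x) j).getD i (none, true)).1,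
          ((cls (f A x) j).getD i (none, true)).2 == s) : It V)) ?_
  have h1 : PTf 𝒜 (fun A (p : α × ℕ) => cls (f A p.1) p.2) := pt_cls (hf.comp PTf.id.fst) PTf.id.snd
  refine h1.length.range.flatMap (g := fun A (p : α × ℕ) (i : ℕ) =>
      [true, false].map fun s =>
        ((s, p.2, i, (cls (f A p.1) p.2).length, ((cls (f A p.1) p.2).getD i (none, true)).1,
          ((cls (f A p.1) p.2).getD i (none, true)).2 == s) : It V)) ?_
  have h2 : PTf 𝒜 (fun A (p : (α × ℕ) × ℕ) => cls (f A p.1.1) p.1.2) := h1.comp PTf.id.fst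
  refine PTf.map (l := fun _ _ => [true, false]) (g := fun A (p : (α × ℕ) × ℕ) (s : Bool) =>
        ((s, p.1.2, p.2, (cls (f A p.1.1) p.1.2).length,
          ((cls (f A p.1.1) p.1.2).getD p.2 (none, true)).1,
          ((cls (f A p.1.1) p.1.2).getD p.2 (none, true)).2 == s) : It V)) (PTf.const _) ?_
  have h3 : PTf 𝒜 (fun A (p : ((α × ℕ) × ℕ) × Bool) => cls (f A p.1.1.1) p.1.1.2) :=
    h2.comp PTf.id.fst
  have h4 : PTf 𝒜 (fun A (p : ((α × ℕ) × ℕ) × Bool) =>
      (cls (f A p.1.1.1) p.1.1.2).getD p.1.2 (none, true)) :=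
    h3.listGetD PTf.id.fst.snd (PTf.const _)
  refine PTf.id.snd.pair (PTf.id.fst.fst.snd.pair (PTf.id.fst.snd.pair (h3.length.pair
    (h4.fst.pair ?_))))
  exact PTf.beq h4.snd PTf.id.snd

end Pool.Agent.LibPcg
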