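import Pool.Agent.LibPcg.PMDefs
import Pool.Agent.LibPcg.PD3

set_option autoImplicit false

/-!
Row PM6. The lists of vertices have no repetitions.
-/

namespace Pool.Agent.LibPcg

open SimpleGraph Pool.Agent.LibComplexity

theorem pm6_pairs {V : Type} (l : List (It V)) (hl : l.Nodup) (n : ℕ) :
    (l.flatMap fun u => l.map fun v => ((n, u, v) : Cd V)).Nodup := by
  rw [List.nodup_flatMap]
  refine ⟨fun u _ => hl.map (fun a b h => by simpa using h), ?_⟩
  refine hl.imp ?_
  intro a b hab x h1 h2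
  rw [List.mem_map] at h1 h2
  obtain ⟨v, -, rfl⟩ := h1
  obtain ⟨w, -, h⟩ := h2
  simp only [Prod.mk.injEq] at h
  exact hab h.2.1.symm

theorem vc_nodup {V : Type} (l : List (It V)) (hl : l.Nodup) : (vc l).Nodup := by
  unfold vc
  rw [List.nodup_append, List.nodup_append, List.nodup_append]
  refine ⟨hl.map (fun a b h => by simpa using h), ⟨pm6_pairs l hl 1, ⟨pm6_pairs l hl 2, ?_, ?_⟩, ?_⟩, ?_⟩
  · simp
  · intro a ha b hb h
    subst h
    simp only [List.mem_flatMap, List.mem_map] at ha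
    obtain ⟨u, -, v, -, rfl⟩ := ha
    simp at hb
  · intro a ha b hb h
    subst h
    simp only [List.mem_flatMap, List.mem_map] at ha
    obtain ⟨u, -, v, -, rfl⟩ := ha
    simp at hb
  · intro a ha b hb h
    subst h
    simp only [List.mem_map] at ha
    obtain ⟨u, -, rfl⟩ := ha
    simp at hb

theorem mem_verts {V : Type} (l : List (Cd V)) (t : ℕ) (z : Bool × Cd V × ℕ) :
    z ∈ verts l t ↔ z.2.1 ∈ l ∧ z.2.2 < t := by
  obtain ⟨s, x, j⟩ := z
  unfold verts
  simp only [List.mem_flatMap, List.mem_map, List.mem_range]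
  constructor
  · rintro ⟨s', -, x', hx', j', hj', h⟩
    simp only [Prod.mk.injEq] at h
    obtain ⟨-, rfl, rfl⟩ := h
    exact ⟨hx', hj'⟩
  · rintro ⟨hx, hj⟩
    exact ⟨s, by cases s <;> simp, x, hx, j, hj, rfl⟩

theorem verts_nodup {V : Type} (l : List (Cd V)) (hl : l.Nodup) (t : ℕ) : (verts l t).Nodup := by
  unfold verts
  rw [List.nodup_flatMap]
  refine ⟨fun s _ => ?_, ?_⟩
  · rw [List.nodup_flatMap]
    refine ⟨fun x _ => List.nodup_range.map (fun a b h => by simpa using h), ?_⟩
    refine hl.imp ?_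
    intro a b hab x h1 h2
    rw [List.mem_map] at h1 h2
    obtain ⟨v, -, rfl⟩ := h1
    obtain ⟨w, -, h⟩ := h2
    simp only [Prod.mk.injEq] at h
    exact hab h.2.1.symm
  · have : ([true, false] : List Bool).Nodup := by decide
    refine this.imp ?_
    intro a b hab x h1 h2
    simp only [List.mem_flatMap, List.mem_map] at h1 h2
    obtain ⟨_, -, _, -, rfl⟩ := h1
    obtain ⟨_, -, _, -, h⟩ := h2
    simp only [Prod.mk.injEq] at h
    exact hab h.1.symm

end Pool.Agent.LibPcg
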