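import Pool.Agent.LibPcg.PMDefs

set_option autoImplicit false

/-!
Row PM7. Gadget relation on typed vertices and on codes.
-/

namespace Pool.Agent.LibPcg

open SimpleGraph Pool.Agent.LibComplexity

theorem relC_iff {V : Type} [DecidableEq V] (x y : Cd V) : relC x y = true ↔
    (x.1 = 0 ∧ y.1 = 0 ∧ ¬ arc x.2.1 y.2.1 = true) ∨
    (x.1 = 0 ∧ y.1 = 1 ∧ x.2.1 = y.2.1 ∧ ¬ y.2.1 = y.2.2) ∨
    (x.1 = 1 ∧ y.1 = 1 ∧ x.2 = y.2) ∨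
    (x.1 = 2 ∧ y.1 = 0 ∧ y.2.1 = x.2.2 ∧ ¬ x.2.1 = x.2.2) ∨
    (x.1 = 2 ∧ y.1 = 1 ∧ x.2 = y.2) ∨
    (x.1 = 2 ∧ y.1 = 2 ∧ x.2 = y.2) ∨
    (3 ≤ x.1 ∧ y.1 = 0) ∨ (3 ≤ x.1 ∧ x.1 = y.1) := by
  unfold relC
  simp only [Bool.or_eq_true, Bool.and_eq_true, decide_eq_true_eq, Bool.not_eq_true',
    decide_eq_false_iff_not, Bool.not_eq_true]

/-- the code of a vertex -/
def pm7e {V : Type} (l : List (It V)) : VC {u : It V // u ∈ l} → Cd V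
  | .a u => (0, u.1, u.1)
  | .c u v => (1, u.1, v.1)
  | .c' u v => (2, u.1, v.1)
  | .r false => (3, i0 V, i0 V)
  | .r true => (4, i0 V, i0 V)

theorem pm7_mem {V : Type} (l : List (It V)) (p : VC {u : It V // u ∈ l}) : pm7e l p ∈ vc l := by
  unfold vc
  simp only [List.mem_append, List.mem_map, List.mem_flatMap]
  rcases p with u | ⟨u, v⟩ | ⟨u, v⟩ | i
  · exact Or.inl ⟨u.1, u.2, rfl⟩
  · exact Or.inr (Or.inl ⟨u.1, u.2, v.1, v.2, rfl⟩)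
  · exact Or.inr (Or.inr (Or.inl ⟨u.1, u.2, v.1, v.2, rfl⟩))
  · cases i <;> simp [pm7e]

theorem exists_code {V : Type} [DecidableEq V] (l : List (It V)) :
    ∃ e : VC {u : It V // u ∈ l} → {x : Cd V // x ∈ vc l}, Function.Surjective e ∧
      ∀ p q, gR (fun u v : {u : It V // u ∈ l} => arc u.1 v.1 = true) p q ↔
        relC (e p).1 (e q).1 = true := by
  refine ⟨fun p => ⟨pm7e l p, pm7_mem l p⟩, ?_, ?_⟩
  · rintro ⟨x, hx⟩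
    have hx' := hx
    unfold vc at hx'
    simp only [List.mem_append, List.mem_map, List.mem_flatMap, List.mem_cons,
      List.not_mem_nil, or_false] at hx'
    rcases hx' with ⟨u, hu, rfl⟩ | ⟨u, hu, v, hv, rfl⟩ | ⟨u, hu, v, hv, rfl⟩ | rfl | rfl
    · exact ⟨.a ⟨u, hu⟩, rfl⟩
    · exact ⟨.c ⟨u, hu⟩ ⟨v, hv⟩, rfl⟩
    · exact ⟨.c' ⟨u, hu⟩ ⟨v, hv⟩, rfl⟩
    · exact ⟨.r false, rfl⟩
    · exact ⟨.r true, rfl⟩
  · intro p q
    rw [relC_iff]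
    rcases p with u | ⟨u, v⟩ | ⟨u, v⟩ | i <;> rcases q with u' | ⟨u', v'⟩ | ⟨u', v'⟩ | i' <;>
      (try cases i) <;> (try cases i') <;>
      simp [gR, pm7e, Subtype.ext_iff]

end Pool.Agent.LibPcg
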