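import Pool.Agent.LibPcg.PMDefs
import Pool.Agent.LibPcg.PD3
import Pool.Agent.LibPcg.PM6

set_option autoImplicit false

/-!
Row PM8. The output graph is the complement of the blow-up.
-/

namespace Pool.Agent.LibPcg

open SimpleGraph Pool.Agent.LibComplexity

/-- the side of a vertex of the blow-up as a Boolean, its code and the number of the copy -/
def pm8f {V : Type} {l : List (Cd V)} {t : ℕ} :
    ({x : Cd V // x ∈ l} ⊕ {x : Cd V // x ∈ l}) × Fin t → Bool × Cd V × ℕ
  | (.inl x, j) => (true, x.1, j.1)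
  | (.inr x, j) => (false, x.1, j.1)

theorem pm8_mem {V : Type} {l : List (Cd V)} {t : ℕ}
    (z : ({x : Cd V // x ∈ l} ⊕ {x : Cd V // x ∈ l}) × Fin t) : pm8f z ∈ verts l t := by
  obtain ⟨x | x, j⟩ := z
  · exact (mem_verts _ _ _).2 ⟨x.2, j.2⟩
  · exact (mem_verts _ _ _).2 ⟨x.2, j.2⟩

theorem pm8_bij {V : Type} {l : List (Cd V)} {t : ℕ} : Function.Bijective
    (fun z : ({x : Cd V // x ∈ l} ⊕ {x : Cd V // x ∈ l}) × Fin t =>
      (⟨pm8f z, pm8_mem z⟩ : {z // z ∈ verts l t})) := by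
  constructor
  · rintro ⟨x | x, j⟩ ⟨y | y, j'⟩ h
    · have h1 := congrArg Subtype.val h
      simp only [pm8f, Prod.mk.injEq] at h1
      obtain ⟨-, h2, h3⟩ := h1
      rw [Subtype.ext h2, Fin.ext h3]
    · have h1 := congrArg Subtype.val h
      simp only [pm8f, Prod.mk.injEq] at h1
      exact absurd h1.1 (by decide)
    · have h1 := congrArg Subtype.val h
      simp only [pm8f, Prod.mk.injEq] at h1
      exact absurd h1.1 (by decide)
    · have h1 := congrArg Subtype.val h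
      simp only [pm8f, Prod.mk.injEq] at h1
      obtain ⟨-, h2, h3⟩ := h1
      rw [Subtype.ext h2, Fin.ext h3]
  · rintro ⟨⟨s, x, j⟩, h⟩
    have h' := (mem_verts _ _ _).1 h
    cases s
    · exact ⟨(.inr ⟨x, h'.1⟩, ⟨j, h'.2⟩), rfl⟩
    · exact ⟨(.inl ⟨x, h'.1⟩, ⟨j, h'.2⟩), rfl⟩

theorem pm8_adj {V : Type} [DecidableEq V] {l : List (Cd V)} {t : ℕ}
    (z z' : ({x : Cd V // x ∈ l} ⊕ {x : Cd V // x ∈ l}) × Fin t) :
    gadj (pm8f z) (pm8f z') = true ↔
      (blow (fun x y : {x : Cd V // x ∈ l} => relC x.1 y.1 = true) t).Adj z z' := by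
  have hinj : pm8f z = pm8f z' ↔ z = z' := by
    constructor
    · intro h
      exact pm8_bij.1 (Subtype.ext h)
    · rintro rfl
      rfl
  show _ ↔ z ≠ z' ∧ ¬ rel _ z.1 z'.1
  unfold gadj
  rw [Bool.and_eq_true, Bool.not_eq_true', decide_eq_false_iff_not, hinj, Bool.not_eq_true',
    ← Bool.not_eq_true]
  obtain ⟨x | x, j⟩ := z <;> obtain ⟨y | y, j'⟩ := z' <;> simp [pm8f, rel]

theorem outG_iso {V : Type} [DecidableEq V] (φ : List (List (V × Bool))) :
    Nonempty (blow (fun x y : {x : Cd V // x ∈ vc (items φ)} => relC x.1 y.1 = true) (numT φ) ≃g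
      outG φ) := by
  have hL : (outV φ).Nodup := verts_nodup _ (vc_nodup _ (items_nodup φ)) _
  let m : ({x : Cd V // x ∈ vc (items φ)} ⊕ {x : Cd V // x ∈ vc (items φ)}) × Fin (numT φ) ≃
      {z // z ∈ outV φ} := Equiv.ofBijective _ (pm8_bij (l := vc (items φ)) (t := numT φ))
  let g : Fin (outV φ).length ≃ {z // z ∈ outV φ} := List.Nodup.getEquiv (outV φ) hL
  refine ⟨⟨m.trans g.symm, ?_⟩⟩
  intro z z'
  rw [← pm8_adj]
  have key : ∀ z, (outV φ)[(m.trans g.symm) z] = pm8f z := by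
    intro z
    have h1 : g ((m.trans g.symm) z) = m z := g.apply_symm_apply (m z)
    have h2 := congrArg Subtype.val h1
    exact h2
  show gadj (outV φ)[(m.trans g.symm) z] (outV φ)[(m.trans g.symm) z'] = true ↔ _
  rw [key, key]

end Pool.Agent.LibPcg
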