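import Pool.Agent.LibPcg.PMDefs
import Pool.Agent.LibPcg.PC4
import Pool.Agent.LibPcg.PC7
import Pool.Agent.LibPcg.PC8
import Pool.Agent.LibPcg.PB11
import Pool.Agent.LibPcg.PD1
import Pool.Agent.LibPcg.PD2
import Pool.Agent.LibPcg.PD3
import Pool.Agent.LibPcg.PD4
import Pool.Agent.LibPcg.PD5
import Pool.Agent.LibPcg.PM6
import Pool.Agent.LibPcg.PM7
import Pool.Agent.LibPcg.PM8

set_option autoImplicit false

/-!
Row PM10. Correctness of the reduction.
-/

namespace Pool.Agent.LibPcg

open SimpleGraph Pool.Agent.LibComplexity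

theorem pm10_card {γ : Type} (l : List γ) (hl : l.Nodup) [Fintype {x // x ∈ l}] :
    Fintype.card {x // x ∈ l} = l.length := by
  classical
  rw [Fintype.card_congr (List.Nodup.getEquiv l hl).symm, Fintype.card_fin]

theorem sat_iff_andPCG {V : Type} [DecidableEq V] (φ : List (List (V × Bool))) :
    (∃ a : V → Bool, ∀ c ∈ φ, ∃ l ∈ c, a l.1 = l.2) ↔ IsAndPCG (numK φ) (outG φ) := by
  classical
  have hn := items_nodup φ
  have hv := vc_nodup _ hn
  have hI : Fintype.card {u : It V // u ∈ items φ} = (items φ).length := pm10_card _ hn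
  have hA : Fintype.card {x : Cd V // x ∈ vc (items φ)} = (vc (items φ)).length := pm10_card _ hv
  have hk : Fintype.card {u : It V // u ∈ items φ} ^ 2 + 2 = numK φ := by
    rw [hI]; unfold numK; ring
  have h1 : (∃ a : V → Bool, ∀ c ∈ φ, ∃ l ∈ c, a l.1 = l.2) ↔
      Two (fun u v : {u : It V // u ∈ items φ} => arc u.1 v.1 = true) :=
    ⟨two_of_sat φ, sat_of_two φ⟩
  have hirr : ∀ u : {u : It V // u ∈ items φ}, ¬ arc u.1 u.1 = true := by
    intro u
    rw [arc_irrefl φ u.1 u.2]
    decide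
  have h2 : Two (fun u v : {u : It V // u ∈ items φ} => arc u.1 v.1 = true) ↔
      ChainCover (gR (fun u v : {u : It V // u ∈ items φ} => arc u.1 v.1 = true)) (numK φ) := by
    rw [← hk]
    exact ⟨chainCover_of_two _ hirr, two_of_chainCover _ hirr⟩
  obtain ⟨e, he, hrel⟩ := exists_code (items φ)
  have h3 := chainCover_pullback (fun x y : {x : Cd V // x ∈ vc (items φ)} => relC x.1 y.1 = true)
    (gR (fun u v : {u : It V // u ∈ items φ} => arc u.1 v.1 = true)) e e he he hrel (numK φ)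
  have hne : Nonempty {x : Cd V // x ∈ vc (items φ)} := by
    refine ⟨⟨(3, i0 V, i0 V), ?_⟩⟩
    unfold vc
    simp
  have ht : numK φ * (Fintype.card {x : Cd V // x ∈ vc (items φ)} +
      Fintype.card {x : Cd V // x ∈ vc (items φ)}) < numT φ := by
    rw [hA]; unfold numT
    rw [two_mul]
    exact Nat.lt_succ_self _
  have h4 : ChainCover (fun x y : {x : Cd V // x ∈ vc (items φ)} => relC x.1 y.1 = true) (numK φ) ↔
      IsAndPCG (numK φ) (blow (fun x y : {x : Cd V // x ∈ vc (items φ)} => relC x.1 y.1 = true)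
        (numT φ)) :=
    ⟨andPCG_of_chainCover _ _ _ (by omega), chainCover_of_andPCG _ _ _ ht⟩
  obtain ⟨ψ⟩ := outG_iso φ
  rw [h1, h2, h3, h4]
  exact ⟨isAndPCG_of_iso ψ, isAndPCG_of_iso ψ.symm⟩

end Pool.Agent.LibPcg
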