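import Pool.Agent.LibPcg.PMDefs

set_option autoImplicit false

/-!
Row PM3. The list of the vertices of the gadget and of its blow-up.
-/

namespace Pool.Agent.LibPcg

open SimpleGraph Pool.Agent.LibComplexity

theorem pt_vc {V : Type} [Enc V] {α : Type} [Enc α] {𝒜 : Set Orc}
    {f : Orc → α → List (It V)} (hf : PTf 𝒜 f) :
    PTf 𝒜 (fun A x => vc (f A x)) := by
  unfold vc
  have h0 : PTf 𝒜 (fun A x => (f A x).map fun u => ((0, u, u) : Cd V)) :=
    hf.map (g := fun _ _ u => ((0, u, u) : Cd V))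
      ((PTf.const 0).pair (PTf.id.snd.pair PTf.id.snd))
  have h1 : ∀ n : ℕ, PTf 𝒜 (fun A x => (f A x).flatMap fun u => (f A x).map fun v =>
      ((n, u, v) : Cd V)) := fun n =>
    hf.flatMap (g := fun A x u => (f A x).map fun v => ((n, u, v) : Cd V))
      ((hf.comp PTf.id.fst).map (g := fun _ (p : α × It V) v => ((n, p.2, v) : Cd V))
        ((PTf.const n).pair (PTf.id.fst.snd.pair PTf.id.snd)))
  exact h0.append ((h1 1).append ((h1 2).append (PTf.const _)))

theorem pt_verts {V : Type} [Enc V] {α : Type} [Enc α] {𝒜 : Set Orc}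
    {f : Orc → α → List (Cd V)} {t : Orc → α → ℕ} (hf : PTf 𝒜 f) (ht : PTf 𝒜 t) :
    PTf 𝒜 (fun A x => verts (f A x) (t A x)) := by
  unfold verts
  refine PTf.flatMap (l := fun _ _ => [true, false]) (g := fun A x (s : Bool) =>
    (f A x).flatMap fun c => (List.range (t A x)).map fun j => ((s, c, j) : Bool × Cd V × ℕ))
    (PTf.const _) ?_
  refine (hf.comp PTf.id.fst).flatMap (g := fun A (p : α × Bool) (c : Cd V) =>
    (List.range (t A p.1)).map fun j => ((p.2, c, j) : Bool × Cd V × ℕ)) ?_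
  refine (ht.comp PTf.id.fst.fst).range.map (g := fun A (p : (α × Bool) × Cd V) (j : ℕ) =>
    ((p.1.2, p.2, j) : Bool × Cd V × ℕ)) ?_
  exact PTf.id.fst.fst.snd.pair (PTf.id.fst.snd.pair PTf.id.snd)

end Pool.Agent.LibPcg
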