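import Pool.Agent.LibPcg.PMDefs

set_option autoImplicit false

/-!
Row PM2. The arcs are computed in polynomial time.
-/

namespace Pool.Agent.LibPcg

open SimpleGraph Pool.Agent.LibComplexity

theorem pt_arc {V : Type} [Enc V] [DecidableEq V] {α : Type} [Enc α] {𝒜 : Set Orc}
    {f g : Orc → α → It V} (hf : PTf 𝒜 f) (hg : PTf 𝒜 g) :
    PTf 𝒜 (fun A x => arc (f A x) (g A x)) := by
  unfold arc
  refine PTf.bor (PTf.band (PTf.decide_eq hf.snd.snd.snd.snd.fst hg.snd.snd.snd.snd.fst)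
    (PTf.decide_eq hf.snd.snd.snd.snd.snd hg.snd.snd.snd.snd.snd).bnot) ?_
  refine PTf.band hf.fst (PTf.band hg.fst (PTf.band (PTf.decide_eq hf.snd.fst hg.snd.fst) ?_))
  refine PTf.decide_eq hg.snd.snd.fst ?_
  exact PTf.ifP (PTf.decide_eq hf.snd.snd.fst.succ hf.snd.snd.snd.fst) (PTf.const 0)
    hf.snd.snd.fst.succ

end Pool.Agent.LibPcg
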