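import Pool.Agent.LibPcg.PMDefs
import Pool.Agent.LibPcg.PM2

set_option autoImplicit false

/-!
Row PM4. The adjacency matrix of the output graph.
-/

namespace Pool.Agent.LibPcg

open SimpleGraph Pool.Agent.LibComplexity

theorem pt_relC {V : Type} [Enc V] [DecidableEq V] {α : Type} [Enc α] {𝒜 : Set Orc}
    {f g : Orc → α → Cd V} (hf : PTf 𝒜 f) (hg : PTf 𝒜 g) :
    PTf 𝒜 (fun A x => relC (f A x) (g A x)) := by
  unfold relC
  have hf0 : ∀ n : ℕ, PTf 𝒜 (fun A x => decide ((f A x).1 = n)) := fun n =>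
    PTf.decide_eq hf.fst (PTf.const n)
  have hg0 : ∀ n : ℕ, PTf 𝒜 (fun A x => decide ((g A x).1 = n)) := fun n =>
    PTf.decide_eq hg.fst (PTf.const n)
  have h3 : PTf 𝒜 (fun A x => decide (3 ≤ (f A x).1)) := PTf.decide_le (PTf.const 3) hf.fst
  have hs : PTf 𝒜 (fun A x => decide ((f A x).2 = (g A x).2)) := PTf.decide_eq hf.snd hg.snd
  refine PTf.bor ((hf0 0).band ((hg0 0).band (pt_arc hf.snd.fst hg.snd.fst).bnot)) ?_
  refine PTf.bor ((hf0 0).band ((hg0 1).band ((PTf.decide_eq hf.snd.fst hg.snd.fst).band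
    (PTf.decide_eq hg.snd.fst hg.snd.snd).bnot))) ?_
  refine PTf.bor ((hf0 1).band ((hg0 1).band hs)) ?_
  refine PTf.bor ((hf0 2).band ((hg0 0).band ((PTf.decide_eq hg.snd.fst hf.snd.snd).band
    (PTf.decide_eq hf.snd.fst hf.snd.snd).bnot))) ?_
  refine PTf.bor ((hf0 2).band ((hg0 1).band hs)) ?_
  refine PTf.bor ((hf0 2).band ((hg0 2).band hs)) ?_
  exact PTf.bor (h3.band (hg0 0)) (h3.band (PTf.decide_eq hf.fst hg.fst))

theorem pt_gadj {V : Type} [Enc V] [DecidableEq V] {α : Type} [Enc α] {𝒜 : Set Orc}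
    {f g : Orc → α → Bool × Cd V × ℕ} (hf : PTf 𝒜 f) (hg : PTf 𝒜 g) :
    PTf 𝒜 (fun A x => gadj (f A x) (g A x)) := by
  unfold gadj
  refine PTf.band (PTf.decide_eq hf hg).bnot (PTf.bor ?_ ?_).bnot
  · exact hf.fst.band (hg.fst.bnot.band (pt_relC hf.snd.fst hg.snd.fst))
  · exact hf.fst.bnot.band (hg.fst.band (pt_relC hg.snd.fst hf.snd.fst))

theorem pt_gbits {V : Type} [Enc V] [DecidableEq V] {α : Type} [Enc α] {𝒜 : Set Orc}
    {f : Orc → α → List (Bool × Cd V × ℕ)} (hf : PTf 𝒜 f) :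
    PTf 𝒜 (fun A x => gbits (f A x)) := by
  unfold gbits
  refine hf.flatMap (g := fun A x c => (f A x).map fun y => gadj c y) ?_
  refine (hf.comp PTf.id.fst).map (g := fun A (p : α × (Bool × Cd V × ℕ)) y => gadj p.2 y) ?_
  exact pt_gadj PTf.id.fst.snd PTf.id.snd

end Pool.Agent.LibPcg
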