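import Pool.Agent.LibPcg.PMDefs
import Pool.Agent.LibPcg.PM1
import Pool.Agent.LibPcg.PM3
import Pool.Agent.LibPcg.PM4

set_option autoImplicit false

/-!
Row PM5. The reduction is computed in polynomial time.
-/

namespace Pool.Agent.LibPcg

open SimpleGraph Pool.Agent.LibComplexity

theorem pt_numK {V : Type} [Enc V] {α : Type} [Enc α] {𝒜 : Set Orc}
    {f : Orc → α → List (List (V × Bool))} (hf : PTf 𝒜 f) :
    PTf 𝒜 (fun A x => numK (f A x)) := by
  unfold numK
  exact ((pt_items hf).length.mul (pt_items hf).length).add (PTf.const 2)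

theorem pt_outV {V : Type} [Enc V] {α : Type} [Enc α] {𝒜 : Set Orc}
    {f : Orc → α → List (List (V × Bool))} (hf : PTf 𝒜 f) :
    PTf 𝒜 (fun A x => outV (f A x)) := by
  unfold outV numT
  exact pt_verts (pt_vc (pt_items hf)) (((pt_numK hf).mul ((PTf.const 2).mul
    (pt_vc (pt_items hf)).length)).add (PTf.const 1))

theorem pt_redW {V : Type} [Enc V] [DecidableEq V] {α : Type} [Enc α] {𝒜 : Set Orc}
    {f : Orc → α → List (List (V × Bool))} (hf : PTf 𝒜 f) :
    PTf 𝒜 (fun A x => word ((outV (f A x)).length, numK (f A x), gbits (outV (f A x)))) :=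
  ((pt_outV hf).length.pair ((pt_numK hf).pair (pt_gbits (pt_outV hf)))).word

theorem pt_red {α : Type} [Enc α] {𝒜 : Set Orc}
    {f : Orc → α → List (List (Vr × Bool))} (hf : PTf 𝒜 f) :
    PTf 𝒜 (fun A x => red (f A x)) := by
  unfold red
  exact pt_redW hf

end Pool.Agent.LibPcg
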