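import Pool.Agent.LibPcg.PMDefs

set_option autoImplicit false

/-!
Row PM9. The word computed by the reduction encodes the output graph.
-/

namespace Pool.Agent.LibPcg

open SimpleGraph Pool.Agent.LibComplexity

open Classical in
theorem red_eq (φ : List (List (Vr × Bool))) : red φ = encode (outG φ) (numK φ) := by
  unfold red encode
  congr 3
  unfold gbits matrixBits
  have h : ∀ {γ : Type} (l : List γ),
      l = (List.finRange l.length).map fun i : Fin l.length => l[(i : ℕ)]'i.2 := by
    intro γ l
    rw [← List.ofFn_eq_map]
    simp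
  have h1 : ∀ {γ : Type} (l : List γ) {β : Type} (g : γ → β),
      l.map g = (List.finRange l.length).map fun i : Fin l.length => g (l[(i : ℕ)]'i.2) := by
    intro γ l β g
    conv_lhs => rw [h l]
    rw [List.map_map]
    rfl
  have h2 : ∀ {γ : Type} (l : List γ) {β : Type} (g : γ → List β),
      l.flatMap g =
        (List.finRange l.length).flatMap fun i : Fin l.length => g (l[(i : ℕ)]'i.2) := by
    intro γ l β g
    rw [List.flatMap_def, List.flatMap_def, h1 l g]
  rw [h2]
  congr 1
  funext i
  rw [h1]
  congr 1
  funext j
  rw [Bool.eq_iff_iff, decide_eq_true_iff]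
  rfl

theorem outG_coBipartite {V : Type} [DecidableEq V] (φ : List (List (V × Bool)))
    (hn : (outV φ).Nodup) : CoBipartite (outG φ) := by
  refine ⟨fun i => ((outV φ)[i]).1, fun u v huv hs => ?_⟩
  show gadj (outV φ)[u] (outV φ)[v] = true
  have hne : (outV φ)[u] ≠ (outV φ)[v] := by
    intro h
    apply huv
    have := (List.Nodup.getElem_inj_iff hn).1 h
    exact Fin.ext this
  simp only [gadj]
  simp only at hs
  rw [hs]
  cases (outV φ)[v].1 <;> simpa using hne

end Pool.Agent.LibPcg
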