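import Pool.Agent.LibPcg.PMDefs
import Pool.Agent.LibPcg.PM5
import Pool.Agent.LibPcg.PM6
import Pool.Agent.LibPcg.PM9
import Pool.Agent.LibPcg.PM10
import Pool.Agent.LibPcg.PD3

set_option autoImplicit false

/-!
Row PM11. NP-hardness.
-/

namespace Pool.Agent.LibPcg

open SimpleGraph Pool.Agent.LibComplexity

theorem andPCG_hard (L : Set (List Bool)) (hL : InNP ∅ L) :
    ∃ f : List Bool → List Bool, InFP ∅ f ∧ ∀ w, ∃ (n k : ℕ) (G : SimpleGraph (Fin n)), 1 ≤ k ∧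
      CoBipartite G ∧ f w = encode G k ∧ (w ∈ L ↔ IsAndPCG k G) := by
  obtain ⟨F, hF, -, hFL⟩ := cook_levin hL
  refine ⟨fun x => red (F x),
    inFP_of_PTf (A := ∅) (f := fun _ x => red (F x)) (pt_red (hF {∅})), fun w => ?_⟩
  refine ⟨_, numK (F w), outG (F w), by unfold numK; omega,
    outG_coBipartite _ (verts_nodup _ (vc_nodup _ (items_nodup _)) _), red_eq _, ?_⟩
  rw [hFL w, ← sat_iff_andPCG]
  rfl

end Pool.Agent.LibPcg
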