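import Pool.Agent.LibPcg.PDDefs
import Pool.Agent.LibPcg.MDefs

set_option autoImplicit false

/-!
The reduction as a function on words.
-/

namespace Pool.Agent.LibPcg

open SimpleGraph Pool.Agent.LibComplexity

/-- codes of the vertices of the gadget graph -/
abbrev Cd (V : Type) : Type := ℕ × It V × It V

/-- codes have decidable equality -/
instance instDecII {V : Type} [DecidableEq V] :
    DecidableEq ((Bool × ℕ × ℕ × ℕ × Option V × Bool) × (Bool × ℕ × ℕ × ℕ × Option V × Bool)) :=
  fun x y => decidable_of_iff (x.1 = y.1 ∧ x.2 = y.2) Prod.ext_iff.symm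

/-- an item used as a filler -/
def i0 (V : Type) : It V := (true, 0, 0, 0, none, true)

/-- the codes of all the vertices on one side, `l` being the list of the items -/
def vc {V : Type} (l : List (It V)) : List (Cd V) :=
  (l.map fun u => (0, u, u)) ++ ((l.flatMap fun u => l.map fun v => (1, u, v)) ++
    ((l.flatMap fun u => l.map fun v => (2, u, v)) ++ [(3, i0 V, i0 V), (4, i0 V, i0 V)]))

/-- the gadget relation on codes -/
def relC {V : Type} [DecidableEq V] (x y : Cd V) : Bool :=
  (decide (x.1 = 0) && (decide (y.1 = 0) && !arc x.2.1 y.2.1)) ||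
  ((decide (x.1 = 0) && (decide (y.1 = 1) && (decide (x.2.1 = y.2.1) && !decide (y.2.1 = y.2.2)))) ||
  ((decide (x.1 = 1) && (decide (y.1 = 1) && decide (x.2 = y.2))) ||
  ((decide (x.1 = 2) && (decide (y.1 = 0) && (decide (y.2.1 = x.2.2) && !decide (x.2.1 = x.2.2)))) ||
  ((decide (x.1 = 2) && (decide (y.1 = 1) && decide (x.2 = y.2))) ||
  ((decide (x.1 = 2) && (decide (y.1 = 2) && decide (x.2 = y.2))) ||
  ((decide (3 ≤ x.1) && decide (y.1 = 0)) ||
  (decide (3 ≤ x.1) && decide (x.1 = y.1))))))))

/-- the vertices of the blown-up graph: side, code, number of the copy -/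
def verts {V : Type} (l : List (Cd V)) (t : ℕ) : List (Bool × Cd V × ℕ) :=
  [true, false].flatMap fun s => l.flatMap fun x => (List.range t).map fun j => (s, x, j)

/-- adjacency in the complement of the blown-up graph -/
def gadj {V : Type} [DecidableEq V] (x y : Bool × Cd V × ℕ) : Bool :=
  !decide (x = y) && !((x.1 && (!y.1 && relC x.2.1 y.2.1)) || (!x.1 && (y.1 && relC y.2.1 x.2.1)))

/-- the adjacency matrix of the output graph -/
def gbits {V : Type} [DecidableEq V] (l : List (Bool × Cd V × ℕ)) : List Bool :=
  l.flatMap fun x => l.map fun y => gadj x y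

/-- the number of trees -/
def numK {V : Type} (φ : List (List (V × Bool))) : ℕ := (items φ).length * (items φ).length + 2

/-- the number of copies -/
def numT {V : Type} (φ : List (List (V × Bool))) : ℕ :=
  numK φ * (2 * (vc (items φ)).length) + 1

/-- the vertices of the output graph -/
def outV {V : Type} (φ : List (List (V × Bool))) : List (Bool × Cd V × ℕ) :=
  verts (vc (items φ)) (numT φ)

/-- the reduction -/
def red (φ : List (List (Vr × Bool))) : List Bool :=
  word ((outV φ).length, numK φ, gbits (outV φ))

/-- the output graph -/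
def outG {V : Type} [DecidableEq V] (φ : List (List (V × Bool))) :
    SimpleGraph (Fin (outV φ).length) where
  Adj i j := gadj (outV φ)[i] (outV φ)[j] = true
  symm := ⟨fun i j h => by
    have key : ∀ x y : Bool × Cd V × ℕ, gadj x y = gadj y x := by
      rintro ⟨a, x⟩ ⟨b, y⟩
      unfold gadj
      cases a <;> cases b <;> simp [eq_comm]
    rw [key]; exact h⟩
  loopless := ⟨fun i h => by simp [gadj] at h⟩

end Pool.Agent.LibPcg
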