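import Pool.Agent.LibPcg.PNDefs
import Pool.Agent.LibPcg.PN7
import Pool.Agent.LibPcg.PN8
import Pool.Agent.LibPcg.PN9

set_option autoImplicit false

/-!
Row PN11. Completeness of the verifier.
Sketch. `andPCG_iff_nat` (PN9) gives `d, a, b`. Apply `exists_bits` (PN8) with `m := k * (n * n + 2)`,
`L := bnd n` and the numbering `p = i * (n * n + 2) + q` (`i = p / (n * n + 2) < k`,
`q = p % (n * n + 2)`): the number is `d i (q / n) (q % n)` if `q < n * n`, `a i` if `q = n * n`, `b i` if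
`q = n * n + 1`. Then unfold `okAll`, rewrite with `leq2_iff` and `numAt_end` and check everything;
`off n i q = (i * (n * n + 2) + q) * bnd n`.
-/

namespace Pool.Agent.LibPcg

open SimpleGraph

theorem okAll_complete {n : ℕ} (hn : 1 ≤ n) {k : ℕ} (hk : 1 ≤ k) (G : SimpleGraph (Fin n))
    (b : List Bool) (hb : b.length = n * n)
    (hG : ∀ u v : Fin n, G.Adj u v ↔ b.getD (u * n + v) false = true) (h : IsAndPCG k G) (M : ℕ)
    (hM : k * (n * n + 2) * bnd n ≤ M) : ∃ y : List Bool, y.length = M ∧ okAll y b n k = true := by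
  classical
  obtain ⟨d, ta, tb, hfour, hd, hab, hadj⟩ := (andPCG_iff_nat hn k G).1 h
  let D : ℕ → ℕ → ℕ → ℕ := fun i x y =>
    if h : i < k ∧ x < n ∧ y < n then d ⟨i, h.1⟩ ⟨x, h.2.1⟩ ⟨y, h.2.2⟩ else 0
  let TA : ℕ → ℕ := fun i => if h : i < k then ta ⟨i, h⟩ else 0
  let TB : ℕ → ℕ := fun i => if h : i < k then tb ⟨i, h⟩ else 0
  have hpos : 0 < 2 ^ bnd n := by positivity
  have hD : ∀ i x y, D i x y < 2 ^ bnd n := by
    intro i x y
    by_cases h : i < k ∧ x < n ∧ y < n
    · simp only [D, dif_pos h]; exact hd _ _ _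
    · simp only [D, dif_neg h]; exact hpos
  have hTA : ∀ i, TA i < 2 ^ bnd n := by
    intro i
    by_cases h : i < k
    · simp only [TA, dif_pos h]; exact (hab _).1
    · simp only [TA, dif_neg h]; exact hpos
  have hTB : ∀ i, TB i < 2 ^ bnd n := by
    intro i
    by_cases h : i < k
    · simp only [TB, dif_pos h]; exact (hab _).2
    · simp only [TB, dif_neg h]; exact hpos
  let val : ℕ → ℕ := fun p =>
    if p % (n * n + 2) < n * n then
      D (p / (n * n + 2)) (p % (n * n + 2) / n) (p % (n * n + 2) % n)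
    else if p % (n * n + 2) = n * n then TA (p / (n * n + 2)) else TB (p / (n * n + 2))
  obtain ⟨y, hy, hval⟩ := exists_bits (k * (n * n + 2)) (bnd n) M hM val (by
    intro p _
    simp only [val]
    split_ifs
    · exact hD _ _ _
    · exact hTA _
    · exact hTB _)
  have hnum : ∀ i < k, ∀ q < n * n + 2, numAt y (bnd n) (off n i q) =
      (if q < n * n then D i (q / n) (q % n) else if q = n * n then TA i else TB i) := by
    intro i hi q hq
    have hlt : i * (n * n + 2) + q < k * (n * n + 2) := by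
      calc i * (n * n + 2) + q < i * (n * n + 2) + (n * n + 2) := by omega
        _ = (i + 1) * (n * n + 2) := by ring
        _ ≤ k * (n * n + 2) := Nat.mul_le_mul_right _ hi
    have e := hval _ hlt
    have e1 : (i * (n * n + 2) + q) / (n * n + 2) = i := by
      rw [mul_comm i, Nat.mul_add_div (by omega), Nat.div_eq_of_lt hq, add_zero]
    have e2 : (i * (n * n + 2) + q) % (n * n + 2) = q := by
      rw [mul_comm i, Nat.mul_add_mod, Nat.mod_eq_of_lt hq]
    simp only [val, e1, e2] at e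
    exact e
  have hidx : ∀ x < n, ∀ x' < n, x * n + x' < n * n := by
    intro x hx x' hx'
    calc x * n + x' < x * n + n := by omega
      _ = (x + 1) * n := by ring
      _ ≤ n * n := Nat.mul_le_mul_right _ hx
  have hdist : ∀ i < k, ∀ x < n, ∀ x' < n,
      numAt y (bnd n) (off n i (x * n + x')) = D i x x' := by
    intro i hi x hx x' hx'
    have h1 := hidx x hx x' hx'
    rw [hnum i hi _ (by omega), if_pos h1]
    have e1 : (x * n + x') / n = x := by
      rw [mul_comm x, Nat.mul_add_div (by omega), Nat.div_eq_of_lt hx', add_zero]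
    have e2 : (x * n + x') % n = x' := by
      rw [mul_comm x, Nat.mul_add_mod, Nat.mod_eq_of_lt hx']
    rw [e1, e2]
  have hta : ∀ i < k, numAt y (bnd n) (off n i (n * n)) = TA i := by
    intro i hi
    rw [hnum i hi _ (by omega), if_neg (lt_irrefl _), if_pos rfl]
  have htb : ∀ i < k, numAt y (bnd n) (off n i (n * n + 1)) = TB i := by
    intro i hi
    rw [hnum i hi _ (by omega), if_neg (by omega), if_neg (by omega)]
  have hDeq : ∀ (i : ℕ) (hi : i < k) (x : ℕ) (hx : x < n) (x' : ℕ) (hx' : x' < n),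
      D i x x' = d ⟨i, hi⟩ ⟨x, hx⟩ ⟨x', hx'⟩ := by
    intro i hi x hx x' hx'
    simp only [D, dif_pos (show i < k ∧ x < n ∧ x' < n from ⟨hi, hx, hx'⟩)]
  have hTAeq : ∀ (i : ℕ) (hi : i < k), TA i = ta ⟨i, hi⟩ := by
    intro i hi
    simp only [TA, dif_pos hi]
  have hTBeq : ∀ (i : ℕ) (hi : i < k), TB i = tb ⟨i, hi⟩ := by
    intro i hi
    simp only [TB, dif_pos hi]
  have hin : ∀ (i : ℕ) (hi : i < k) (u : ℕ) (hu : u < n) (v : ℕ) (hv : v < n),
      inInt y n i u v = true ↔ ta ⟨i, hi⟩ ≤ d ⟨i, hi⟩ ⟨u, hu⟩ ⟨v, hv⟩ ∧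
        d ⟨i, hi⟩ ⟨u, hu⟩ ⟨v, hv⟩ < tb ⟨i, hi⟩ := by
    intro i hi u hu v hv
    rw [inInt, Bool.and_eq_true, Bool.not_eq_true', Bool.eq_false_iff, ne_eq, leq2_iff, leq2_iff,
      hdist i hi u hu v hv, hta i hi, htb i hi, hDeq i hi u hu v hv, hTAeq i hi, hTBeq i hi]
    omega
  refine ⟨y, hy, ?_⟩
  rw [okAll]
  simp only [Bool.and_eq_true, decide_eq_true_eq, List.all_eq_true, List.mem_range]
  refine ⟨hn, hk, hb, ?_, ?_⟩
  · intro i hi
    refine ⟨?_, ?_, ?_⟩
    · rw [okFour]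
      simp only [List.all_eq_true, List.mem_range, Bool.or_eq_true, leq2_iff]
      intro x hx x' hx' z hz u hu
      rw [hdist i hi x hx x' hx', hdist i hi z hz u hu, hdist i hi x hx z hz, hdist i hi x' hx' u hu,
        hdist i hi x hx u hu, hdist i hi x' hx' z hz, hDeq i hi x hx x' hx', hDeq i hi z hz u hu,
        hDeq i hi x hx z hz, hDeq i hi x' hx' u hu, hDeq i hi x hx u hu, hDeq i hi x' hx' z hz]
      have h4 := (hfour ⟨i, hi⟩).four ⟨x, hx⟩ ⟨x', hx'⟩ ⟨z, hz⟩ ⟨u, hu⟩
      rw [le_max_iff] at h4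
      rcases h4 with h4 | h4
      · left; exact_mod_cast h4
      · right; exact_mod_cast h4
    · rw [okSelf]
      simp only [List.all_eq_true, List.mem_range, leq2_iff, numAt_end]
      intro x hx
      rw [hdist i hi x hx x hx, hDeq i hi x hx x hx]
      have h4 := (hfour ⟨i, hi⟩).self ⟨x, hx⟩
      have h5 : d ⟨i, hi⟩ ⟨x, hx⟩ ⟨x, hx⟩ = 0 := by exact_mod_cast h4
      rw [h5]
    · rw [okSymm]
      simp only [List.all_eq_true, List.mem_range, leq2_iff]
      intro x hx x' hx'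
      rw [hdist i hi x hx x' hx', hdist i hi x' hx' x hx, hDeq i hi x hx x' hx',
        hDeq i hi x' hx' x hx]
      have h4 := (hfour ⟨i, hi⟩).symm ⟨x, hx⟩ ⟨x', hx'⟩
      have h5 : d ⟨i, hi⟩ ⟨x, hx⟩ ⟨x', hx'⟩ = d ⟨i, hi⟩ ⟨x', hx'⟩ ⟨x, hx⟩ := by exact_mod_cast h4
      rw [h5]
  · rw [okAdj]
    simp only [List.all_eq_true, List.mem_range, decide_eq_true_eq]
    intro u hu v hv
    rw [Bool.eq_iff_iff, ← hG ⟨u, hu⟩ ⟨v, hv⟩, hadj]
    simp only [Bool.and_eq_true, Bool.not_eq_true', decide_eq_false_iff_not, List.all_eq_true,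
      List.mem_range, ne_eq, Fin.mk.injEq]
    refine and_congr Iff.rfl ⟨fun h i hi => (hin i hi u hu v hv).2 (h ⟨i, hi⟩), fun h i => ?_⟩
    exact (hin i i.2 u hu v hv).1 (h i i.2)

end Pool.Agent.LibPcg
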